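import Pool.Agent.Lib.MP_40dc3c_ag.Fe.Main

/-! The theorem on Tate tuples for an abstract system of symbols. -/

namespace Pool.Agent.Lib.MP_40dc3c_ag.Fe

open Finset

variable {p : ℕ} {B : Type} [AddCommGroup B]

/-- an abstract system of symbols with reflection, Frobenius and multiplication relations. -/
structure Sys (p : ℕ) (g : ℚ → B) (L s : B) : Prop where
  per : ∀ (a : ℚ) (n : ℤ), g (a + n) = g a
  neg : ∀ a : ℚ, a.den ≠ 1 → a.den.Coprime p → g a + g (-a) = L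
  frob : ∀ a : ℚ, a.den ≠ 1 → a.den.Coprime p → g (p * a) = g a
  dist : ∀ a : ℚ, a.den ≠ 1 → a.den.Coprime p → ∀ l : ℕ, l.Prime → l ≠ p →
    ∑ k ∈ range l, g ((a + k) / l) = g a + ∑ k ∈ Ico 1 l, g (k / l)
  two : 2 • s = L
  half : p ≠ 2 → g (1 / 2) = s

/-- the normalised symbol. -/
def ua (g : ℚ → B) (s : B) (a : ℚ) : B := if a.den = 1 then 0 else g a - s

variable {g : ℚ → B} {L s : B}

lemma ua_per (H : Sys p g L s) (a : ℚ) (n : ℤ) : ua g s (a + n) = ua g s a := by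
  rw [ua, ua, Rat.add_intCast_den, H.per]

lemma ua_neg (H : Sys p g L s) {a : ℚ} (h : a.den.Coprime p) : ua g s (-a) = -ua g s a := by
  rw [ua, ua, Rat.neg_den]
  split_ifs with c
  · simp
  · rw [eq_neg_iff_add_eq_zero, sub_add_sub_comm, add_comm, H.neg _ c h, ← two_nsmul, H.two,
      sub_self]

lemma ua_zero (H : Sys p g L s) (hp : p.Prime) {l : ℕ} (hl : l.Prime) (hlp : l ≠ p) :
    ∑ k ∈ Ico 1 l, ua g s (k / l) = 0 := by
  have co : ∀ k : ℕ, ((k : ℚ) / l).den.Coprime p := fun k =>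
    ((Nat.coprime_primes hl hp).2 hlp).coprime_dvd_left (lv_iff.1 (lv_ndiv dvd_rfl k))
  have l0 : (l : ℚ) ≠ 0 := by have := hl.pos; positivity
  refine sum_involution (fun k _ => l - k) (fun k hk => ?_) (fun k hk h e => h ?_)
    (fun k hk => ?_) fun k hk => ?_
  · rw [add_comm, add_eq_zero_iff_eq_neg, ← ua_neg H (co k), ← ua_per H (-_) 1,
      Nat.cast_sub (mem_Ico.1 hk).2.le]
    congr 1
    field_simp
    push_cast
    ring
  · have : l = 2 := hl.even_iff.1 ⟨k, by have := mem_Ico.1 hk; omega⟩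
    subst this
    have : k = 1 := by have := mem_Ico.1 hk; omega
    subst this
    rw [ua, if_neg (by norm_num), sub_eq_zero, ← H.half hlp.symm]
    norm_num
  · rw [mem_Ico] at hk ⊢
    omega
  · rw [mem_Ico] at hk
    omega

theorem gd_ua (H : Sys p g L s) (hp : p.Prime) : GD p (ua g s) := by
  intro m hm hmp
  have co : ∀ a, Lv m a → a.den.Coprime p := fun a ha => hmp.coprime_dvd_left (lv_iff.1 ha)
  refine ⟨fun a _ n => ua_per H a n, fun a ha => ua_neg H (co a ha), fun a ha => ?_,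
    fun l hl hlm a ha => ?_⟩
  · by_cases c : a.den = 1
    · rw [ua, ua, if_pos c, if_pos (Nat.dvd_one.1 (lv_iff.1 ((lv_iff.2 c.dvd).nmul p)))]
    · rw [ua, ua, if_neg c, if_neg (den_mul (co a ha).symm c), H.frob _ c (co a ha)]
  have hlp : l ≠ p := (Nat.coprime_primes hl hp).1 (hmp.coprime_dvd_left hlm)
  have l0 : (l : ℚ) ≠ 0 := by have := hl.pos; positivity
  have hz := ua_zero H hp hl hlp
  by_cases c : ((l : ℚ) * a).den = 1
  · have e := (Rat.den_eq_one_iff _).1 c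
    have h1 := sum_reindex hl.pos (fun k : ℤ => ua g s (k / l)) (fun x y h => by
      obtain ⟨z, hz⟩ := h
      rw [← ua_per H (y / l) z, sub_eq_iff_eq_add.1 hz]
      congr 1
      push_cast
      field_simp
      ring) (t := 1) isCoprime_one_left ((l : ℚ) * a).num
    rw [ua, if_pos c, ← hz, ← zero_add (∑ k ∈ Ico 1 l, _),
      show (0 : B) = ua g s ((0 : ℕ) / l) by simp [ua],
      ← sum_range_eq_add_Ico (fun k : ℕ => ua g s (k / l)) hl.pos]
    simp only [Int.cast_natCast] at h1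
    rw [← h1]
    refine sum_congr rfl fun k _ => ?_
    congr 1
    push_cast
    rw [e]
    field_simp
    ring
  · have h1 := H.dist _ c (co _ (ha.nmul l)) l hl hlp
    have h2 : ∀ k ∈ range l, ua g s (a + k / l) = g ((l * a + k) / l) - s := by
      intro k _
      rw [ua, if_neg]
      · congr 2
        field_simp
      · intro h
        refine c (Nat.dvd_one.1 (lv_iff.1 ?_))
        convert ((lv_iff.2 h.dvd).nmul l).add (lv_nat 1 k).neg using 1
        field_simp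
        ring
    have h3 : ∀ k ∈ Ico 1 l, ua g s (k / l) = g (k / l) - s := by
      intro k hk
      rw [ua, if_neg]
      intro h
      obtain ⟨j, hj⟩ := lv_iff.2 h.dvd
      rw [Nat.cast_one, one_mul, div_eq_iff l0] at hj
      have h4 : (l : ℤ) ∣ k := ⟨j, by rw [mul_comm]; exact_mod_cast hj⟩
      have := mem_Ico.1 hk
      have := Nat.le_of_dvd (by omega) (Int.natCast_dvd_natCast.1 h4)
      omega
    rw [sum_congr rfl h3, sum_sub_distrib, sub_eq_zero] at hz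
    rw [sum_congr rfl h2, sum_sub_distrib, h1, hz, ua, if_neg c, sum_const, sum_const, card_range,
      Nat.card_Ico]
    obtain ⟨l, rfl⟩ := Nat.exists_eq_add_of_lt hl.pos
    simp only [zero_add, Nat.add_sub_cancel, succ_nsmul]
    abel

lemma ev_ua {x : Multiset ℚ} (h : ∀ a ∈ x, a.den ≠ 1) :
    ev (ua g s) x = ev g x - x.card • s := by
  rw [ev_congr (g := ua g s) fun a ha => if_neg (h a ha), ev_sub]
  simp [ev]

/-- Tate tuples with harmless parities vanish in every abstract system of symbols. -/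
theorem main_abs (H : Sys p g L s) (hp : p.Prime) (a : Multiset ℚ) (r : ℕ) (hr : a.card = 2 * r)
    (ha : Tate p a) (h : ∀ n : ℕ, Odd n → Squarefree n →
      Even (a.countP fun x => x.den.primeFactors = n.primeFactors) ∨
      ((∃ v, n ∣ p ^ v + 1) ∧ (n ≠ 1 → g (1 / n) = s)) ∨
      ∃ χ : DirichletCharacter ℂ n, χ.IsPrimitive ∧ χ.Odd ∧ (∃ k, χ ^ 2 ^ k = 1) ∧ χ p = 1 ∧
        (χ 2 = 1 ∨ ∀ x ∈ a, ¬4 ∣ x.den) ∧
        ∀ x ∈ a, ∀ l : ℕ, l.Prime → l ∣ x.den → ¬l ∣ 2 * n → χ l = 1) :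
    (a.map g).sum = r • L := by
  classical
  obtain ⟨a1, a2, N, a3, a4⟩ := ha.tors hp
  set c : ℕ → ℕ := fun n => a.countP fun x => x.den.primeFactors = n.primeFactors with hc
  have dv : ∀ n, Squarefree n → ¬Even (c n) → n ∣ (a.map Rat.den).prod := by
    intro n hn he
    obtain ⟨x, hx, e⟩ := Multiset.countP_pos.1 (Nat.not_even_iff_odd.1 he).pos
    rw [← Nat.prod_primeFactors_of_squarefree hn, ← e]
    exact (Nat.prod_primeFactors_dvd _).trans (Multiset.dvd_prod (Multiset.mem_map_of_mem _ hx))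
  have ex : ∀ n, Odd n ∧ Squarefree n ∧ ¬Even (c n) → ∃ ρ,
      ((∃ m N, 0 < m ∧ m.Coprime p ∧ 0 < N ∧ Tors p m N ρ) ∧ ev (ua g s) ρ = 0) ∧
      ∀ n' : ℕ, Odd n' → Squarefree n' →
        (ρ.countP fun a => a.den.primeFactors = n'.primeFactors) = if n' = n then 1 else 0 := by
    rintro n ⟨h1, h2, h3⟩
    have hnp := a2.coprime_dvd_left (dv n h2 h3)
    rcases h n h1 h2 with h | ⟨⟨v, hv⟩, h⟩ | ⟨χ, b1, b2, ⟨k, b3⟩, b4, b5, b6⟩
    · exact absurd h h3
    · have hd : (1 / n : ℚ).den = n := by rw [one_div, Rat.inv_natCast_den_of_pos h1.pos]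
      have lv := lv_one_div n
      refine ⟨{(1 / n : ℚ)},
        ⟨⟨n, 2, h1.pos, hnp, two_pos, by simpa using lv, fun B _ g hg => ?_⟩, ?_⟩,
        fun n' h1 h' => ?_⟩
      · obtain ⟨j, hj⟩ := lv.mono hv
        rw [ev_singleton, two_nsmul, add_eq_zero_iff_eq_neg, ← hg.odd _ lv, ← hg.frob_pow lv v]
        refine hg.congr_int lv.neg j ?_
        rw [← hj]
        push_cast
        ring
      · rw [ev_singleton, ua, hd]
        split_ifs with c
        · rfl
        · rw [h c, sub_self]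
      · exact count_one (x := 0) h2 h1 h' ⟨hd, by simp⟩
    have b7 : ∀ x ∈ a, ∀ l : ℕ, l.Prime → l ∣ x.den → ¬l ∣ n → l ≠ 2 → χ l = 1 :=
      fun x hx l hl c1 c2 c3 => b6 x hx l hl c1 fun c4 => (hl.dvd_mul.1 c4).elim
        (fun c5 => c3 ((Nat.prime_dvd_prime_iff_eq hl Nat.prime_two).1 c5)) c2
    rcases b5 with b5 | b5
    · refine absurd (char_even a1 a2 a3 a4 h2 h1 b1 b2 b3 b4 fun l hl hd hln => ?_) h3
      obtain ⟨d, hd, h⟩ := hl.prime.exists_mem_multiset_dvd hd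
      obtain ⟨x, hx, rfl⟩ := Multiset.mem_map.1 hd
      by_cases c : l = 2
      · rw [c]
        exact_mod_cast b5
      · exact b7 x hx l hl h hln c
    · exact absurd (char_even' hp ha b5 h2 h1 b1 b2 b3 b4 b7) h3
  choose! ρ hρ using ex
  set O := (a.map Rat.den).prod.divisors.filter fun n => Odd n ∧ Squarefree n ∧ ¬Even (c n)
    with hO
  have gd : (∃ m N, 0 < m ∧ m.Coprime p ∧ 0 < N ∧ Tors p m N (∑ n ∈ O, ρ n)) ∧
      ev (ua g s) (∑ n ∈ O, ρ n) = 0 := sum_induction _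
    (fun x => (∃ m N, 0 < m ∧ m.Coprime p ∧ 0 < N ∧ Tors p m N x) ∧ ev (ua g s) x = 0)
    (fun x y hx hy => ⟨tors_add hx.1 hy.1, by rw [ev_add, hx.2, hy.2, add_zero]⟩)
    ⟨⟨1, 1, one_pos, by simp, one_pos, by simp, fun B _ g _ => by simp⟩, by simp⟩
    fun n hn => (hρ n (mem_filter.1 hn).2).1
  obtain ⟨m, M, b1, b2, b3, b4⟩ := tors_add ⟨_, N, a1, a2, a3, a4⟩ gd.1
  have v := vanish hp (gd_ua H hp) b1 b2 b3 b4 fun n h1 h2 => by
    have e := map_sum (Multiset.countPAddMonoidHom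
      fun x : ℚ => x.den.primeFactors = n.primeFactors) ρ O
    simp only [Multiset.coe_countPAddMonoidHom] at e
    rw [Multiset.countP_add, e, sum_congr rfl fun n' hn => (hρ n' (mem_filter.1 hn).2).2 n h1 h2,
      sum_ite_eq]
    split_ifs with hn
    · exact (Nat.not_even_iff_odd.1 (mem_filter.1 hn).2.2.2).add_one
    · by_contra he
      exact hn (mem_filter.2 ⟨Nat.mem_divisors.2 ⟨dv n h2 he, a1.ne'⟩, h1, h2, he⟩)
  rw [ev_add, gd.2, add_zero, ev_ua ha.1, hr, mul_nsmul, H.two, sub_eq_zero] at v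
  exact v

/-- the same for an abstract subgroup of relations between the symbols. -/
theorem main_sub (hp : p.Prime) (R : AddSubgroup (FreeAbelianGroup (Option ℚ)))
    (h1 : ∀ a : ℚ, a.den ≠ 1 → a.den.Coprime p → sym a + sym (-a) - Lef ∈ R)
    (h2 : ∀ a : ℚ, a.den ≠ 1 → a.den.Coprime p → sym (p * a) - sym a ∈ R)
    (h3 : ∀ a : ℚ, a.den ≠ 1 → a.den.Coprime p → ∀ l : ℕ, l.Prime → l ≠ p →
      ∑ k ∈ range l, sym ((a + k) / l) - sym a - ∑ k ∈ Ico 1 l, sym (k / l) ∈ R)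
    {b : ℚ} (hb : 2 • sym b - Lef ∈ R) (hb2 : p ≠ 2 → sym (1 / 2) - sym b ∈ R)
    (a : Multiset ℚ) (r : ℕ) (hr : a.card = 2 * r)
    (ha : Tate p a) (h : ∀ n : ℕ, Odd n → Squarefree n →
      Even (a.countP fun x => x.den.primeFactors = n.primeFactors) ∨
      ((∃ v, n ∣ p ^ v + 1) ∧ (n ≠ 1 → sym (1 / n) - sym b ∈ R)) ∨
      ∃ χ : DirichletCharacter ℂ n, χ.IsPrimitive ∧ χ.Odd ∧ (∃ k, χ ^ 2 ^ k = 1) ∧ χ p = 1 ∧
        (χ 2 = 1 ∨ ∀ x ∈ a, ¬4 ∣ x.den) ∧
        ∀ x ∈ a, ∀ l : ℕ, l.Prime → l ∣ x.den → ¬l ∣ 2 * n → χ l = 1) :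
    (a.map sym).sum - r • Lef ∈ R := by
  have mk : ∀ {z w : FreeAbelianGroup (Option ℚ)}, z - w ∈ R →
      QuotientAddGroup.mk' R z = QuotientAddGroup.mk' R w := fun h => by
    rw [← sub_eq_zero, ← map_sub]
    exact (QuotientAddGroup.eq_zero_iff _).2 h
  have H : Sys p (fun a => QuotientAddGroup.mk' R (sym a)) (QuotientAddGroup.mk' R Lef)
      (QuotientAddGroup.mk' R (sym b)) :=
    ⟨fun a n => by simp [sym], fun a c1 c2 => (map_add _ _ _).symm.trans (mk (h1 a c1 c2)),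
      fun a c1 c2 => mk (h2 a c1 c2), fun a c1 c2 l c3 c4 => by
        rw [← map_sum, ← map_sum, ← map_add]
        exact mk (by rw [← sub_sub]; exact h3 a c1 c2 l c3 c4),
      (map_nsmul _ _ _).symm.trans (mk hb), fun c => mk (hb2 c)⟩
  have v := main_abs H hp a r hr ha fun n c1 c2 => (h n c1 c2).imp_right fun c =>
    c.imp_left fun c => ⟨c.1, fun e => mk (c.2 e)⟩
  rw [← QuotientAddGroup.eq_zero_iff]
  refine (map_sub (QuotientAddGroup.mk' R) _ _).trans ?_
  rw [map_nsmul, ← v, sub_eq_zero]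
  exact map_ev (g := sym) _ a

/-- the supersingular base symbol is a square root of the Lefschetz symbol. -/
lemma two_base (hp : p.Prime) (R : AddSubgroup (FreeAbelianGroup (Option ℚ)))
    (h1 : ∀ a : ℚ, a.den ≠ 1 → a.den.Coprime p → sym a + sym (-a) - Lef ∈ R)
    (h2 : ∀ a : ℚ, a.den ≠ 1 → a.den.Coprime p → sym (p * a) - sym a ∈ R) :
    2 • sym (1 / (p + 1 : ℕ)) - Lef ∈ R := by
  have e1 : (1 / (p + 1 : ℕ) : ℚ).den ≠ 1 := by rw [den_ss hp]; have := hp.pos; omega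
  have e2 : (1 / (p + 1 : ℕ) : ℚ).den.Coprime p := by rw [den_ss hp]; simp
  have e3 : sym (p * (1 / (p + 1 : ℕ))) = sym (-(1 / (p + 1 : ℕ))) := by
    have : (p * (1 / (p + 1 : ℕ)) : ℚ) = -(1 / (p + 1 : ℕ)) + (1 : ℤ) := by
      push_cast
      field_simp
      ring
    rw [sym, sym, this, Int.fract_add_intCast]
  have := R.sub_mem (h1 _ e1 e2) (h2 _ e1 e2)
  rw [e3] at this
  convert this using 1
  abel

end Pool.Agent.Lib.MP_40dc3c_ag.Fe
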