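import Mathlib

/-! Odd distributions on the rationals modulo one. -/

namespace Pool.Agent.Lib.MP_40dc3c_ag.Fe

open Finset

/-- `a` has level `m`. -/
def Lv (m : ℕ) (a : ℚ) : Prop := ∃ j : ℤ, (m : ℚ) * a = j

lemma Lv.add {m : ℕ} {a b : ℚ} (ha : Lv m a) (hb : Lv m b) : Lv m (a + b) := by
  obtain ⟨i, hi⟩ := ha
  obtain ⟨j, hj⟩ := hb
  exact ⟨i + j, by rw [mul_add, hi, hj]; push_cast; ring⟩

lemma Lv.neg {m : ℕ} {a : ℚ} (ha : Lv m a) : Lv m (-a) := by
  obtain ⟨i, hi⟩ := ha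
  exact ⟨-i, by rw [mul_neg, hi]; push_cast; ring⟩

lemma Lv.zmul {m : ℕ} {a : ℚ} (ha : Lv m a) (t : ℤ) : Lv m (t * a) := by
  obtain ⟨i, hi⟩ := ha
  exact ⟨t * i, by rw [mul_left_comm, hi]; push_cast; ring⟩

lemma Lv.nmul {m : ℕ} {a : ℚ} (ha : Lv m a) (t : ℕ) : Lv m (t * a) := by
  simpa using ha.zmul t

lemma lv_int (m : ℕ) (n : ℤ) : Lv m n := ⟨m * n, by push_cast; ring⟩

lemma lv_nat (m : ℕ) (n : ℕ) : Lv m n := by simpa using lv_int m n

lemma Lv.mono {m m' : ℕ} {a : ℚ} (ha : Lv m a) (h : m ∣ m') : Lv m' a := by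
  obtain ⟨i, hi⟩ := ha
  obtain ⟨c, rfl⟩ := h
  exact ⟨c * i, by push_cast; rw [← hi]; ring⟩

lemma lv_div {m l : ℕ} (h : l ∣ m) (k : ℤ) : Lv m (k / l) := by
  obtain ⟨c, rfl⟩ := h
  rcases Nat.eq_zero_or_pos l with rfl | hl
  · exact ⟨0, by simp⟩
  · refine ⟨c * k, ?_⟩
    have : (l : ℚ) ≠ 0 := by positivity
    push_cast
    field_simp

lemma lv_ndiv {m l : ℕ} (h : l ∣ m) (k : ℕ) : Lv m (k / l) := by simpa using lv_div h k

lemma lv_iff {m : ℕ} {a : ℚ} : Lv m a ↔ a.den ∣ m := by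
  constructor
  · rintro ⟨j, hj⟩
    have h1 : ((m : ℤ) * a.num : ℤ) = j * a.den := by
      have := Rat.mul_den_eq_num a
      have h2 : ((m : ℚ)) * a.num = j * a.den := by rw [← this, ← hj]; ring
      exact_mod_cast h2
    have h3 : (a.den : ℤ) ∣ (m : ℤ) * a.num := ⟨j, by rw [h1]; ring⟩
    have h4 : IsCoprime (a.den : ℤ) a.num := by
      rw [Int.isCoprime_iff_gcd_eq_one, Int.gcd_comm]
      exact a.reduced
    exact_mod_cast h4.dvd_of_dvd_mul_right h3
  · intro h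
    have := lv_div h a.num
    rwa [Rat.num_div_den] at this

/-- odd, Frobenius invariant distributions of level `m`. -/
structure Dist (p m : ℕ) {B : Type} [AddCommGroup B] (g : ℚ → B) : Prop where
  per : ∀ a, Lv m a → ∀ n : ℤ, g (a + n) = g a
  odd : ∀ a, Lv m a → g (-a) = -g a
  frob : ∀ a, Lv m a → g (p * a) = g a
  dist : ∀ l : ℕ, l.Prime → l ∣ m → ∀ a, Lv m a → ∑ k ∈ range l, g (a + k / l) = g (l * a)

variable {p m : ℕ} {B : Type} [AddCommGroup B] {g : ℚ → B}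

lemma Dist.mono {m' : ℕ} (h : Dist p m' g) (hm : m ∣ m') : Dist p m g :=
  ⟨fun a ha => h.per a (ha.mono hm), fun a ha => h.odd a (ha.mono hm),
    fun a ha => h.frob a (ha.mono hm),
    fun l hl hlm a ha => h.dist l hl (hlm.trans hm) a (ha.mono hm)⟩

lemma Dist.congr_int (h : Dist p m g) {a b : ℚ} (ha : Lv m a) (n : ℤ) (hb : b = a + n) :
    g b = g a := hb ▸ h.per a ha n

lemma Dist.frob_pow (h : Dist p m g) {a : ℚ} (ha : Lv m a) (n : ℕ) : g (p ^ n * a) = g a := by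
  induction n with
  | zero => simp
  | succ n ih =>
    have := h.frob _ (ha.nmul (p ^ n))
    push_cast at this
    rw [pow_succ', mul_assoc, this, ih]

lemma Dist.mod_congr (h : Dist p m g) {a : ℚ} {d : ℕ} (ha : Lv d a) (hd : d ∣ m) {s t : ℤ}
    (hst : (d : ℤ) ∣ s - t) : g (s * a) = g (t * a) := by
  obtain ⟨c, hc⟩ := hst
  obtain ⟨j, hj⟩ := id ha
  refine h.congr_int ((ha.mono hd).zmul t) (c * j) ?_
  have : (s : ℚ) = t + d * c := by
    have : (s : ℚ) - t = d * c := by exact_mod_cast hc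
    linarith
  rw [this]
  push_cast
  rw [← hj]
  ring

/-- reindexing of a sum over residues. -/
lemma sum_reindex {l : ℕ} (hl : 0 < l) (F : ℤ → B) (hF : ∀ a b : ℤ, (l : ℤ) ∣ a - b → F a = F b)
    {t : ℤ} (ht : IsCoprime t l) (c : ℤ) :
    ∑ k ∈ range l, F (t * k + c) = ∑ k ∈ range l, F k := by
  have : NeZero l := ⟨hl.ne'⟩
  have e : ∀ G : ℤ → B, ∑ k ∈ range l, G k = ∑ x : ZMod l, G x.val := by
    intro G
    refine sum_bij (fun k _ => (k : ZMod l)) (fun _ _ => mem_univ _) (fun a ha b hb h => ?_)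
      (fun x _ => ⟨x.val, mem_range.2 (ZMod.val_lt x), ZMod.natCast_zmod_val x⟩) fun a ha => ?_
    · have := congrArg ZMod.val h
      rwa [ZMod.val_natCast_of_lt (mem_range.1 ha), ZMod.val_natCast_of_lt (mem_range.1 hb)] at this
    · rw [ZMod.val_natCast_of_lt (mem_range.1 ha)]
  rw [e fun k => F (t * k + c), e F]
  have hu : IsUnit (t : ZMod l) := (ZMod.coe_int_isUnit_iff_isCoprime t l).2 ht.symm
  refine Fintype.sum_equiv ((hu.unit.mulLeft).trans (Equiv.addRight (c : ZMod l))) _ _ fun x => ?_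
  apply hF
  rw [← ZMod.intCast_zmod_eq_zero_iff_dvd]
  simp

lemma Dist.act (h : Dist p m g) {t : ℤ} (ht : IsCoprime t m) : Dist p m fun a => g (t * a) := by
  refine ⟨fun a ha n => h.congr_int (ha.zmul t) (t * n) (by push_cast; ring),
    fun a ha => by rw [mul_neg, h.odd _ (ha.zmul t)],
    fun a ha => by rw [mul_left_comm, h.frob _ (ha.zmul t)], fun l hl hlm a ha => ?_⟩
  have := sum_reindex hl.pos (fun k : ℤ => g (t * a + k / l)) (fun x y hxy => by
    obtain ⟨c, hc⟩ := hxy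
    refine h.congr_int ((ha.zmul t).add (lv_div hlm y)) c ?_
    have h0 : (l : ℚ) ≠ 0 := by have := hl.pos; positivity
    have : (x : ℚ) = y + l * c := by
      have : (x : ℚ) - y = l * c := by exact_mod_cast hc
      linarith
    rw [this]
    field_simp
    ring) (ht.of_isCoprime_of_dvd_right (Int.natCast_dvd_natCast.2 hlm)) 0
  rw [mul_left_comm, ← h.dist l hl hlm _ (ha.zmul t)]
  simp only [Int.cast_natCast] at this
  rw [← this]
  refine sum_congr rfl fun k _ => ?_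
  congr 1
  push_cast
  ring

lemma Dist.comp (h : Dist p m g) {C : Type} [AddCommGroup C] (φ : B →+ C) :
    Dist p m fun a => φ (g a) :=
  ⟨fun a ha n => by rw [h.per a ha], fun a ha => by rw [h.odd a ha, map_neg],
    fun a ha => by rw [h.frob a ha],
    fun l hl hlm a ha => by rw [← map_sum, h.dist l hl hlm a ha]⟩

/-- value on a formal sum. -/
def ev (g : ℚ → B) (x : Multiset ℚ) : B := (x.map g).sum

@[simp] lemma ev_zero : ev g 0 = 0 := by simp [ev]
@[simp] lemma ev_add (x y : Multiset ℚ) : ev g (x + y) = ev g x + ev g y := by simp [ev]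
@[simp] lemma ev_cons (a : ℚ) (x : Multiset ℚ) : ev g (a ::ₘ x) = g a + ev g x := by simp [ev]
@[simp] lemma ev_singleton (a : ℚ) : ev g {a} = g a := by simp [ev]
lemma ev_nsmul (n : ℕ) (x : Multiset ℚ) : ev g (n • x) = n • ev g x := by
  induction n with
  | zero => simp
  | succ n ih => rw [succ_nsmul, ev_add, ih, succ_nsmul]
lemma ev_map (f : ℚ → ℚ) (x : Multiset ℚ) : ev g (x.map f) = ev (fun a => g (f a)) x := by
  simp [ev]
lemma ev_congr {g' : ℚ → B} {x : Multiset ℚ} (h : ∀ a ∈ x, g a = g' a) : ev g x = ev g' x := by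
  unfold ev
  rw [Multiset.map_congr rfl h]
lemma map_ev {C : Type} [AddCommGroup C] (φ : B →+ C) (x : Multiset ℚ) :
    φ (ev g x) = ev (fun a => φ (g a)) x := by
  simp [ev, map_multiset_sum]
lemma ev_sub (g' : ℚ → B) (x : Multiset ℚ) : ev (fun a => g a - g' a) x = ev g x - ev g' x := by
  simp [ev, Multiset.sum_map_sub]
lemma ev_neg (x : Multiset ℚ) : ev (fun a => -g a) x = -ev g x := by
  simp [ev, Multiset.sum_map_neg]
lemma ev_smul (n : ℕ) (x : Multiset ℚ) : ev (fun a => n • g a) x = n • ev g x := by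
  induction x using Multiset.induction_on with
  | empty => simp
  | cons a x ih => simp [ih]

/-- `N • x` vanishes in the universal distribution of level `m`. -/
def Tors (p m N : ℕ) (x : Multiset ℚ) : Prop :=
  (∀ a ∈ x, Lv m a) ∧ ∀ (B : Type) [AddCommGroup B] (g : ℚ → B), Dist p m g → N • ev g x = 0

lemma Tors.mono {N m' : ℕ} {x : Multiset ℚ} (h : Tors p m N x) (hm : m ∣ m') : Tors p m' N x :=
  ⟨fun a ha => (h.1 a ha).mono hm, fun B _ g hg => h.2 B g (hg.mono hm)⟩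

lemma Tors.act {N : ℕ} {x : Multiset ℚ} (h : Tors p m N x) {t : ℤ} (ht : IsCoprime t m) :
    Tors p m N (x.map fun a => t * a) := by
  refine ⟨fun a ha => ?_, fun B _ g hg => ?_⟩
  · obtain ⟨b, hb, rfl⟩ := Multiset.mem_map.1 ha
    exact (h.1 b hb).zmul t
  · rw [ev_map]
    exact h.2 B _ (hg.act ht)

lemma Tors.add {N N' : ℕ} {x y : Multiset ℚ} (h : Tors p m N x) (h' : Tors p m N' y) :
    Tors p m (N * N') (x + y) := by
  refine ⟨fun a ha => (Multiset.mem_add.1 ha).elim (h.1 a) (h'.1 a), fun B _ g hg => ?_⟩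
  rw [ev_add, nsmul_add, mul_nsmul, h.2 B g hg, mul_nsmul', h'.2 B g hg]
  simp

/-- global distributions. -/
def GD (p : ℕ) (u : ℚ → B) : Prop := ∀ m : ℕ, 0 < m → m.Coprime p → Dist p m u

/-- the relations of level `m`. -/
def Rel (p m : ℕ) : Set (FreeAbelianGroup ℚ) :=
  {z | ∃ a, Lv m a ∧ ((∃ n : ℤ, z = .of (a + n) - .of a) ∨ z = .of (-a) + .of a ∨
    z = .of (p * a) - .of a ∨
    ∃ l : ℕ, l.Prime ∧ l ∣ m ∧ z = ∑ k ∈ range l, .of (a + k / l) - .of (l * a))}

lemma Dist.lift_rel (h : Dist p m g) {z : FreeAbelianGroup ℚ} (hz : z ∈ Rel p m) :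
    FreeAbelianGroup.lift g z = 0 := by
  obtain ⟨a, ha, ⟨n, rfl⟩ | rfl | rfl | ⟨l, hl, hlm, rfl⟩⟩ := hz
  · simp [h.per a ha]
  · simp [h.odd a ha]
  · simp [h.frob a ha]
  · simp [map_sum, h.dist l hl hlm a ha]

lemma dist_quot (R : AddSubgroup (FreeAbelianGroup ℚ)) (hR : Rel p m ⊆ R) :
    Dist p m fun a => (QuotientAddGroup.mk' R) (.of a) := by
  have key : ∀ z ∈ Rel p m, QuotientAddGroup.mk' R z = 0 := fun z hz =>
    (QuotientAddGroup.eq_zero_iff z).2 (hR hz)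
  refine ⟨fun a ha n => ?_, fun a ha => ?_, fun a ha => ?_, fun l hl hlm a ha => ?_⟩
  · have := key _ ⟨a, ha, Or.inl ⟨n, rfl⟩⟩
    rwa [map_sub, sub_eq_zero] at this
  · have := key _ ⟨a, ha, Or.inr (Or.inl rfl)⟩
    rwa [map_add, add_eq_zero_iff_eq_neg] at this
  · have := key _ ⟨a, ha, Or.inr (Or.inr (Or.inl rfl))⟩
    rwa [map_sub, sub_eq_zero] at this
  · have := key _ ⟨a, ha, Or.inr (Or.inr (Or.inr ⟨l, hl, hlm, rfl⟩))⟩
    rwa [map_sub, sub_eq_zero, map_sum] at this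

lemma lift_ev (x : Multiset ℚ) : FreeAbelianGroup.lift g (ev .of x) = ev g x := by
  rw [map_ev]
  simp

/-- from complex valued distributions to the universal one. -/
lemma tors_of_complex {x : Multiset ℚ} (hx : ∀ a ∈ x, Lv m a)
    (h : ∀ g : ℚ → ℂ, Dist p m g → ev g x = 0) : ∃ N, 0 < N ∧ Tors p m N x := by
  set R := AddSubgroup.closure (Rel p m)
  have hd := dist_quot (p := p) (m := m) R AddSubgroup.subset_closure
  set y := QuotientAddGroup.mk' R (ev .of x) with hy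
  by_cases ht : IsOfFinAddOrder y
  · obtain ⟨N, hN, hNy⟩ := isOfFinAddOrder_iff_nsmul_eq_zero.1 ht
    refine ⟨N, hN, hx, fun B _ g hg => ?_⟩
    rw [hy, ← map_nsmul] at hNy
    have h1 : N • ev FreeAbelianGroup.of x ∈ R := (QuotientAddGroup.eq_zero_iff _).1 hNy
    have h2 : R ≤ (FreeAbelianGroup.lift g).ker :=
      (AddSubgroup.closure_le _).2 fun z hz => hg.lift_rel hz
    have h3 := h2 h1
    rwa [AddMonoidHom.mem_ker, map_nsmul, lift_ev] at h3
  · exfalso
    have hi : Function.Injective (zmultiplesHom _ y) :=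
      injective_zsmul_iff_not_isOfFinAddOrder.2 ht
    obtain ⟨φ, hφ⟩ := (Module.Baer.of_divisible ℂ).extension_property_addMonoidHom _ hi
      (zmultiplesHom ℂ 1)
    have h1 : φ y = 1 := by simpa using DFunLike.congr_fun hφ 1
    have h2 := h _ (hd.comp φ)
    rw [← map_ev, ← map_ev, ← hy, h1] at h2
    exact one_ne_zero h2

end Pool.Agent.Lib.MP_40dc3c_ag.Fe
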