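import Pool.Agent.Lib.MP_40dc3c_ag.Fe.Two

/-! The distribution of a primitive odd character forces an even parity. -/

namespace Pool.Agent.Lib.MP_40dc3c_ag.Fe

open Finset

variable {n : ℕ} {χ : DirichletCharacter ℂ n}

/-- the character on integers, zero elsewhere. -/
noncomputable def cx (χ : DirichletCharacter ℂ n) (y : ℚ) : ℂ :=
  if y.den = 1 then χ y.num else 0

lemma cx_int (j : ℤ) : cx χ j = χ j := by simp [cx]

lemma lv_one {y : ℚ} : Lv 1 y ↔ ∃ j : ℤ, y = j := by simp [Lv]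

lemma cx_not {y : ℚ} (h : ¬Lv 1 y) : cx χ y = 0 := if_neg fun e : y.den = 1 => h (lv_iff.2 e.dvd)

lemma cx_add (y : ℚ) {j : ℤ} (h : (n : ℤ) ∣ j) : cx χ (y + j) = cx χ y := by
  by_cases c : Lv 1 y
  · obtain ⟨i, rfl⟩ := lv_one.1 c
    rw [← Int.cast_add, cx_int, cx_int, Int.cast_add,
      (ZMod.intCast_zmod_eq_zero_iff_dvd j n).2 h, add_zero]
  · rw [cx_not c, cx_not fun h => c (by simpa using h.add (lv_int 1 j).neg)]

lemma cx_mul0 {r : ℕ} (hr : r.Prime) (h : r ∣ n) (j : ℤ) : cx χ (r * j) = 0 := by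
  rw [← Int.cast_natCast, ← Int.cast_mul, cx_int, Int.cast_mul, map_mul, Int.cast_natCast,
    χ.map_nonunit, zero_mul]
  rw [ZMod.isUnit_iff_coprime, hr.coprime_iff_not_dvd]
  exact fun h' => h' h

lemma prim_sum (hχ : χ.IsPrimitive) {l c : ℕ} (hl : l.Prime) (hc : 0 < c) (hn : n = l * c)
    (y : ℤ) : ∑ k ∈ range l, χ ((y + c * k : ℤ) : ZMod n) = 0 := by
  have n0 : 0 < n := hn ▸ mul_pos hl.pos hc
  have : NeZero n := ⟨n0.ne'⟩
  have hd : c ∣ n := ⟨l, by rw [hn, mul_comm]⟩
  have h1 : ¬χ.FactorsThrough c := fun h => by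
    have h2 : χ.conductor ≤ c := Nat.sInf_le h
    rw [hχ, hn] at h2
    nlinarith [hl.two_le]
  rw [DirichletCharacter.factorsThrough_iff_ker_unitsMap hd] at h1
  obtain ⟨u, u1, u2⟩ := SetLike.not_le_iff_exists.1 h1
  obtain ⟨t, ht⟩ := ZMod.intCast_surjective (u : ZMod n)
  have t1 : IsCoprime t l := ((ZMod.coe_int_isUnit_iff_isCoprime t n).1
    (ht ▸ u.isUnit)).symm.of_isCoprime_of_dvd_right ⟨c, by exact_mod_cast hn⟩
  have t2 : (c : ℤ) ∣ t - 1 := by
    rw [← ZMod.intCast_eq_intCast_iff_dvd_sub]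
    have := congrArg Units.val (MonoidHom.mem_ker.1 u1)
    rw [ZMod.unitsMap_def, Units.coe_map, ← ht] at this
    simpa [ZMod.cast_intCast hd] using this.symm
  obtain ⟨s, hs⟩ := t2
  have h3 := sum_reindex hl.pos (fun k : ℤ => χ ((y + c * k : ℤ) : ZMod n)) (fun a b h => by
    congr 1
    rw [ZMod.intCast_eq_intCast_iff_dvd_sub, hn]
    obtain ⟨e, he⟩ := h
    exact ⟨-e, by push_cast; linear_combination (-c : ℤ) * he⟩) t1 (s * y)
  have h4 : χ u ≠ 1 := fun h => u2 (MonoidHom.mem_ker.2 (Units.ext (by simpa using h)))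
  refine mul_left_cancel₀ (sub_ne_zero.2 h4) ?_
  rw [mul_zero, sub_mul, one_mul, sub_eq_zero]
  conv_rhs => rw [← h3]
  rw [mul_sum]
  refine sum_congr rfl fun k _ => ?_
  rw [← map_mul, ← ht, ← Int.cast_mul]
  congr 2
  linear_combination y * hs

open Classical in
/-- the denominators. -/
noncomputable def dens' (n m : ℕ) : Finset ℕ :=
  {d ∈ m.divisors | n ∣ d ∧ ∀ r : ℕ, r.Prime → r ∣ d → r ∣ n}

/-- the distribution of a character. -/
noncomputable def psi (χ : DirichletCharacter ℂ n) (m : ℕ) (a : ℚ) : ℂ :=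
  ∑ d ∈ dens' n m, cx χ (d * a) / d

lemma mem_dens {m d : ℕ} (hm : 0 < m) :
    d ∈ dens' n m ↔ d ∣ m ∧ n ∣ d ∧ ∀ r : ℕ, r.Prime → r ∣ d → r ∣ n := by
  simp [dens', hm.ne']

lemma dist_psi {p m : ℕ} (hm : 0 < m) (hmp : m.Coprime p) (hn : Squarefree n)
    (hχ : χ.IsPrimitive) (ho : χ.Odd) (hp : χ p = 1)
    (h1 : ∀ l : ℕ, l.Prime → l ∣ m → ¬l ∣ n → χ l = 1) : Dist p m (psi χ m) := by
  classical
  refine ⟨fun a _ j => sum_congr rfl fun d hd => ?_, fun a _ => ?_,
    fun a ha => sum_congr rfl fun d hd => ?_, fun l hl hlm a ha => ?_⟩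
  · have := cx_add (χ := χ) (d * a) (j := d * j)
      ((Int.natCast_dvd_natCast.2 ((mem_dens hm).1 hd).2.1).mul_right _)
    rw [mul_add, ← this]
    simp
  · rw [psi, psi, ← sum_neg_distrib]
    refine sum_congr rfl fun d _ => ?_
    rw [mul_neg, ← neg_div]
    congr 1
    by_cases c : Lv 1 (d * a)
    · obtain ⟨i, hi⟩ := lv_one.1 c
      rw [hi, ← Int.cast_neg, cx_int, cx_int, Int.cast_neg, ho.eval_neg]
    · rw [cx_not c, cx_not fun h => c (by simpa using h.neg), neg_zero]
  · rw [mul_left_comm]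
    congr 1
    by_cases c : Lv 1 (d * a)
    · obtain ⟨i, hi⟩ := lv_one.1 c
      rw [hi, ← Int.cast_natCast, ← Int.cast_mul, cx_int, cx_int, Int.cast_mul, map_mul,
        Int.cast_natCast, hp, one_mul]
    · rw [cx_not c, cx_not fun h => c (lv_of_mul (ha.nmul d) hmp.symm h)]
  have l0 : (l : ℚ) ≠ 0 := by have := hl.pos; positivity
  simp only [psi]
  rw [sum_comm]
  by_cases hln : l ∣ n
  · obtain ⟨c, hc⟩ := id hln
    have c0 : 0 < c := Nat.pos_of_mul_pos_left (hc ▸ hn.ne_zero.bot_lt)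
    have e1 : ∀ d ∈ dens' n m, ∑ k ∈ range l, cx χ (d * (a + k / l)) / d =
        if n * l ∣ d then l * cx χ (d * a) / d else 0 := by
      intro d hd
      obtain ⟨e, rfl⟩ := ((mem_dens hm).1 hd).2.1
      have e2 : ∀ k : ℕ, ((n * e : ℕ) : ℚ) * (a + k / l) = (n * e : ℕ) * a + (c * (e * k) : ℤ) := by
        intro k
        rw [hc]
        push_cast
        field_simp
      simp only [e2]
      rw [← sum_div]
      split_ifs with h
      · obtain ⟨e', he⟩ := Nat.dvd_of_mul_dvd_mul_left hn.ne_zero.bot_lt h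
        rw [sum_congr rfl (g := fun _ => cx χ ((n * e : ℕ) * a)) fun (k : ℕ) _ =>
          cx_add _ ⟨e' * k, by rw [hc, he]; push_cast; ring⟩]
        simp
      · rw [div_eq_zero_iff]
        left
        by_cases c1 : Lv 1 ((n * e : ℕ) * a)
        · obtain ⟨y, hy⟩ := lv_one.1 c1
          simp only [hy, ← Int.cast_add, cx_int]
          rw [← prim_sum hχ hl c0 hc y, ← sum_reindex hl.pos
            (fun k : ℤ => χ ((y + c * k : ℤ) : ZMod n)) (fun a b h => ?_) (t := e)
            (Nat.isCoprime_iff_coprime.2 (hl.coprime_iff_not_dvd.2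
              fun h' => h (mul_dvd_mul_left _ h')).symm) 0]
          · simp
          · congr 1
            rw [ZMod.intCast_eq_intCast_iff_dvd_sub, hc]
            obtain ⟨e, he⟩ := h
            exact ⟨-e, by push_cast; linear_combination (-c : ℤ) * he⟩
        · exact sum_eq_zero fun k _ => cx_not fun h => c1
            (by simpa using h.add (lv_int 1 (c * (e * k))).neg)
    have e3 : ∀ d ∈ dens' n m, cx χ (d * (l * a)) / d =
        if d * l ∣ m then cx χ (d * (l * a)) / d else 0 := by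
      intro d hd
      split_ifs with h
      · rfl
      obtain ⟨e, he⟩ := ((mem_dens hm).1 hd).1
      rw [mul_left_comm, div_eq_zero_iff]
      left
      by_cases c : Lv 1 (l * (d * a))
      · have : Lv e (d * a) := by
          obtain ⟨j, hj⟩ := ha
          exact ⟨j, by rw [← hj, he]; push_cast; ring⟩
        obtain ⟨y, hy⟩ := lv_one.1 (lv_of_mul this
          (hl.coprime_iff_not_dvd.2 fun h' => h (he ▸ mul_dvd_mul_left _ h')) c)
        rw [hy, cx_mul0 hl hln]
      · exact cx_not c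
    rw [sum_congr rfl e1, sum_congr rfl e3, ← sum_filter, ← sum_filter]
    symm
    refine sum_bij (fun d _ => d * l) (fun d hd => ?_)
      (fun d _ d' _ h => Nat.eq_of_mul_eq_mul_right hl.pos h) (fun d hd => ?_) fun d hd => ?_
    · obtain ⟨a1, a2⟩ := mem_filter.1 hd
      obtain ⟨-, a3, a4⟩ := (mem_dens hm).1 a1
      exact mem_filter.2 ⟨(mem_dens hm).2 ⟨a2, a3.mul_right _, fun r hr h =>
        ((Nat.Prime.dvd_mul hr).1 h).elim (a4 r hr) fun h => h.trans hln⟩, mul_dvd_mul_right a3 _⟩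
    · obtain ⟨a1, e, rfl⟩ := mem_filter.1 hd
      obtain ⟨a2, -, a4⟩ := (mem_dens hm).1 a1
      have e4 : n * e * l = n * l * e := by ring
      exact ⟨n * e, mem_filter.2 ⟨(mem_dens hm).2 ⟨(Dvd.intro _ e4).trans a2, dvd_mul_right _ _,
        fun r hr h => a4 r hr (h.trans (Dvd.intro _ e4))⟩, e4 ▸ a2⟩, e4⟩
    · have : (l : ℂ) ≠ 0 := by exact_mod_cast hl.ne_zero
      push_cast
      rw [mul_assoc, mul_comm (d : ℂ), mul_div_mul_left _ _ this]
  · refine sum_congr rfl fun d hd => ?_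
    rw [← sum_div]
    congr 1
    obtain ⟨-, a3, a4⟩ := (mem_dens hm).1 hd
    by_cases c : Lv 1 (d * (l * a))
    · obtain ⟨y, hy⟩ := lv_one.1 c
      have e1 : ∀ k : ℕ, cx χ (d * (a + k / l)) = if (l : ℤ) ∣ d * k + y then χ y else 0 := by
        intro k
        have e2 : (l : ℚ) * (d * (a + k / l)) = (d * k + y : ℤ) := by
          push_cast
          rw [← hy]
          field_simp
          ring
        split_ifs with h
        · obtain ⟨z, hz⟩ := h
          have : (d : ℚ) * (a + k / l) = z :=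
            mul_left_cancel₀ l0 (by rw [e2, hz]; push_cast; ring)
          rw [this, cx_int, ← one_mul (χ z), ← h1 l hl hlm hln, ← map_mul]
          congr 1
          have h5 := congrArg (Int.cast : ℤ → ZMod n) hz
          push_cast at h5
          rw [← h5, (ZMod.natCast_eq_zero_iff d n).2 a3, zero_mul, zero_add]
        · refine cx_not fun h' => h ?_
          obtain ⟨z, hz⟩ := lv_one.1 h'
          rw [hz] at e2
          exact ⟨z, by exact_mod_cast e2.symm⟩
      simp only [e1]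
      rw [sum_reindex hl.pos (fun k : ℤ => if (l : ℤ) ∣ k then χ y else 0) (fun a b h => by
        simp only [(dvd_iff_dvd_of_dvd_sub h)]) (Nat.isCoprime_iff_coprime.2
          (hl.coprime_iff_not_dvd.2 fun h => hln (a4 l hl h)).symm) y, hy, cx_int,
        sum_eq_single 0 (fun k hk k0 => if_neg fun h => ?_) (by simp [hl.ne_zero])]
      · simp
      · have := Nat.le_of_dvd (Nat.pos_of_ne_zero k0) (Int.natCast_dvd_natCast.1 h)
        have := mem_range.1 hk
        omega
    · rw [cx_not c]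
      refine sum_eq_zero fun k _ => cx_not fun h => c ?_
      convert (h.nmul l).add (lv_nat 1 (d * k)).neg using 1
      push_cast
      field_simp
      ring

lemma psi_eq {m : ℕ} (hm : 0 < m) (hn : Squarefree n) {a : ℚ} (ha : Lv m a) :
    psi χ m a = if a.den.primeFactors = n.primeFactors then χ a.num / a.den else 0 := by
  have e1 : a.den ∈ dens' n m ↔ a.den.primeFactors = n.primeFactors := by
    rw [mem_dens hm, and_iff_right (lv_iff.1 ha)]
    refine ⟨fun h => (Nat.primeFactors_mono h.1 a.den_nz).antisymm' fun r hr => ?_, fun h => ⟨?_,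
      fun r hr hd => Nat.dvd_of_mem_primeFactors (h ▸ Nat.mem_primeFactors.2 ⟨hr, hd, a.den_nz⟩)⟩⟩
    · obtain ⟨b1, b2, -⟩ := Nat.mem_primeFactors.1 hr
      exact Nat.mem_primeFactors.2 ⟨b1, h.2 r b1 b2, hn.ne_zero⟩
    · rw [← Nat.prod_primeFactors_of_squarefree hn, ← h]
      exact Nat.prod_primeFactors_dvd _
  have e2 : ∀ d ∈ dens' n m, d ≠ a.den → cx χ (d * a) / d = 0 := by
    intro d hd ne
    rw [div_eq_zero_iff]
    left
    by_cases c : Lv 1 (d * a)
    · obtain ⟨e, rfl⟩ := lv_iff.1 (show Lv d a from lv_one.1 c)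
      obtain ⟨r, hr, e, rfl⟩ := Nat.exists_prime_and_dvd (n := e) fun h => ne (by simp [h])
      rw [← cx_mul0 (χ := χ) hr (((mem_dens hm).1 hd).2.2 r hr ⟨a.den * e, by ring⟩) (e * a.num)]
      congr 1
      push_cast
      rw [← Rat.den_mul_eq_num]
      ring
    · exact cx_not c
  rw [psi]
  split_ifs with h
  · rw [sum_eq_single_of_mem _ (e1.2 h) e2, Rat.den_mul_eq_num, cx_int]
  · exact sum_eq_zero fun d hd => e2 d hd fun e => h (e1.1 (e ▸ hd))

lemma even_of_roots {k : ℕ} (y : Multiset ℚ) (ζ : ℚ → ℂ) (c : ℚ → ℕ)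
    (hζ : ∀ a ∈ y, ζ a ^ 2 ^ k = 1) (hc : ∀ a ∈ y, Odd (c a))
    (h : ev (fun a => c a * ζ a) y = 0) : Even y.card := by
  classical
  have : Fact (Nat.Prime 2) := ⟨Nat.prime_two⟩
  have hm : (Ideal.span {((2 : ℕ) : ℤ)}).IsMaximal := Int.ideal_span_isMaximal_of_prime 2
  obtain ⟨Q, hQ, hQo⟩ := Ideal.exists_maximal_ideal_liesOver_of_isIntegral
    (Ideal.span {((2 : ℕ) : ℤ)}) (S := integralClosure ℤ ℂ)
  let := Ideal.Quotient.field Q
  set π := Ideal.Quotient.mk Q with hπ
  have l0 : ((2 : ℕ) : integralClosure ℤ ℂ ⧸ Q) = 0 := by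
    have : ((2 : ℕ) : ℤ) ∈ Q.under ℤ := hQo.over ▸ Ideal.mem_span_singleton_self _
    rw [← map_natCast π, Ideal.Quotient.eq_zero_iff_mem]
    simpa using this
  have ch : CharP (integralClosure ℤ ℂ ⧸ Q) 2 :=
    (CharP.charP_iff_prime_eq_zero Nat.prime_two).2 l0
  have ex : ∀ a : ℚ, ∃ z : integralClosure ℤ ℂ, a ∈ y → (z : ℂ) = ζ a := fun a => by
    by_cases ha : a ∈ y
    · exact ⟨⟨ζ a, IsIntegral.of_pow (n := 2 ^ k) (by positivity)
        (by rw [hζ a ha]; exact isIntegral_one)⟩, fun _ => rfl⟩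
    · exact ⟨0, fun h => absurd h ha⟩
  choose z hz using ex
  have h1 : ev (fun a => c a * z a) y = 0 := by
    apply Subtype.ext
    have := map_ev (g := fun a => c a * z a) (integralClosure ℤ ℂ).val.toRingHom.toAddMonoidHom y
    refine this.trans (Eq.trans (ev_congr fun a ha => ?_) h)
    simp [hz a ha]
  have h2 := map_ev (g := fun a => c a * z a) π.toAddMonoidHom y
  rw [h1, map_zero, ev_congr (g' := fun _ => 1) fun a ha => ?_] at h2
  · rw [even_iff_two_dvd, ← CharP.cast_eq_zero_iff (integralClosure ℤ ℂ ⧸ Q) 2]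
    simpa [ev] using h2.symm
  · have e1 : z a ^ 2 ^ k = 1 := Subtype.ext (by simp [hz a ha, hζ a ha])
    have e2 : (π (z a) - 1) ^ 2 ^ k = 0 := by
      rw [sub_pow_char_pow, ← map_pow, e1, map_one, one_pow, sub_self]
    obtain ⟨j, hj⟩ := hc a ha
    change π _ = 1
    rw [map_mul, sub_eq_zero.1 (pow_eq_zero_iff (by positivity) |>.1 e2), map_natCast, hj,
      Nat.cast_add, Nat.cast_mul, l0]
    simp

theorem char_even {p m N k : ℕ} (hm : 0 < m) (hmp : m.Coprime p) (hN : 0 < N) {x : Multiset ℚ}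
    (hx : Tors p m N x) (hn : Squarefree n) (hn' : Odd n) (hχ : χ.IsPrimitive) (ho : χ.Odd)
    (hk : χ ^ 2 ^ k = 1) (hp : χ p = 1) (h1 : ∀ l : ℕ, l.Prime → l ∣ m → ¬l ∣ n → χ l = 1) :
    Even (x.countP fun a => a.den.primeFactors = n.primeFactors) := by
  have h2 := hx.2 ℂ _ (dist_psi hm hmp hn hχ ho hp h1)
  rw [nsmul_eq_mul, mul_eq_zero, or_iff_right (by exact_mod_cast hN.ne'),
    ev_congr fun a ha => psi_eq hm hn (hx.1 a ha), ← Multiset.filter_add_not
      (fun a => a.den.primeFactors = n.primeFactors) x, ev_add,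
    ev_congr fun a ha => if_pos (Multiset.mem_filter.1 ha).2,
    ev_congr (g' := fun _ => 0) fun a ha => if_neg (Multiset.mem_filter.1 ha).2] at h2
  rw [Multiset.countP_eq_card_filter]
  have hy : ∀ a ∈ x.filter fun a => a.den.primeFactors = n.primeFactors,
    a.den.primeFactors = n.primeFactors := fun a ha => (Multiset.mem_filter.1 ha).2
  generalize x.filter (fun a => a.den.primeFactors = n.primeFactors) = y at h2 hy
  set W := (y.map Rat.den).prod with hW
  have hd : ∀ a ∈ y, a.den ∣ W := fun a ha => Multiset.dvd_prod (Multiset.mem_map_of_mem _ ha)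
  have hw : Odd W := by
    rw [← Nat.not_even_iff_odd, even_iff_two_dvd]
    intro h
    obtain ⟨d, hd, h⟩ := Nat.prime_two.prime.exists_mem_multiset_dvd h
    obtain ⟨a, ha, rfl⟩ := Multiset.mem_map.1 hd
    exact hn'.not_two_dvd_nat (Nat.dvd_of_mem_primeFactors
      (hy a ha ▸ Nat.mem_primeFactors.2 ⟨Nat.prime_two, h, a.den_nz⟩))
  refine even_of_roots (k := k) y (fun a => χ a.num) (fun a => W / a.den) (fun a ha => ?_)
    (fun a ha => hw.of_dvd_nat (Nat.div_dvd_of_dvd (hd a ha))) ?_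
  · rw [← χ.pow_apply' (by positivity), hk, MulChar.one_apply]
    rw [ZMod.coe_int_isUnit_iff_isCoprime, ← Nat.prod_primeFactors_of_squarefree hn, ← hy a ha]
    refine IsCoprime.of_isCoprime_of_dvd_left (y := (a.den : ℤ)) ?_
      (Int.natCast_dvd_natCast.2 (Nat.prod_primeFactors_dvd _))
    rw [Int.isCoprime_iff_gcd_eq_one, Int.gcd_comm]
    exact a.reduced
  · have h3 : ev (fun a => χ a.num / a.den) y = 0 := by simpa [ev] using h2
    have h4 := map_ev (g := fun a => χ a.num / a.den) (AddMonoidHom.mulLeft (W : ℂ)) y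
    rw [h3, map_zero] at h4
    refine (ev_congr fun a ha => ?_).trans h4.symm
    rw [Nat.cast_div (hd a ha) (by exact_mod_cast a.den_nz), AddMonoidHom.coe_mulLeft]
    ring

end Pool.Agent.Lib.MP_40dc3c_ag.Fe
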