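import Mathlib

/-! Non vanishing of character sums of cotangent values. -/

namespace Pool.Agent.Lib.MP_40dc3c_ag.Fe

open Finset Complex HurwitzZeta Filter Topology Real

lemma rpow_diff {c x y σ : ℝ} (hc : 0 < c) (hx : c ≤ x) (hy : c ≤ y) (hxy : |x - y| ≤ 1)
    (h1 : 1 ≤ σ) (h2 : σ ≤ 2) :
    |x ^ (-σ) - y ^ (-σ)| ≤ 2 * (1 / |c| ^ (2 : ℝ) + 1 / |c| ^ (3 : ℝ)) := by
  have key := Convex.norm_image_sub_le_of_norm_hasDerivWithin_le (f := fun t : ℝ => t ^ (-σ))
    (f' := fun t => -σ * t ^ (-σ - 1)) (s := Set.Ici c) (C := 2 * c ^ (-σ - 1))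
    (fun t ht => (Real.hasDerivAt_rpow_const
      (Or.inl (lt_of_lt_of_le hc ht).ne')).hasDerivWithinAt)
    (fun t ht => by
      have ht0 : 0 < t := lt_of_lt_of_le hc ht
      rw [Real.norm_eq_abs, abs_mul, abs_neg, abs_of_pos (by linarith),
        abs_of_pos (Real.rpow_pos_of_pos ht0 _)]
      exact mul_le_mul h2 (Real.rpow_le_rpow_of_nonpos hc ht (by linarith))
        (Real.rpow_pos_of_pos ht0 _).le (by norm_num)) (convex_Ici c) hy hx
  rw [Real.norm_eq_abs, Real.norm_eq_abs] at key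
  have h3 : c ^ (-σ - 1) ≤ 1 / |c| ^ (2 : ℝ) + 1 / |c| ^ (3 : ℝ) := by
    rw [abs_of_pos hc, one_div, one_div, ← Real.rpow_neg hc.le, ← Real.rpow_neg hc.le]
    have p2 := Real.rpow_pos_of_pos hc (-2)
    have p3 := Real.rpow_pos_of_pos hc (-3)
    rcases le_total c 1 with h | h
    · have := Real.rpow_le_rpow_of_exponent_ge hc h (show (-3 : ℝ) ≤ -σ - 1 by linarith)
      linarith
    · have := Real.rpow_le_rpow_of_exponent_le h (show -σ - 1 ≤ (-2 : ℝ) by linarith)
      linarith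
  have h4 := Real.rpow_pos_of_pos hc (-σ - 1)
  nlinarith

lemma hz_one {a : ℝ} (h0 : 0 < a) (h1 : a < 1) :
    hurwitzZetaOdd a 1 = π / 2 * Complex.cot (π * a) := by
  set δ := min a (1 - a) with hδ
  have hδ0 : 0 < δ := lt_min h0 (by linarith)
  have t1 : Tendsto (fun σ : ℝ => hurwitzZetaOdd a σ) (𝓝[>] 1) (𝓝 (hurwitzZetaOdd a 1)) := by
    have : Continuous fun σ : ℝ => hurwitzZetaOdd a σ :=
      (differentiable_hurwitzZetaOdd _).continuous.comp Complex.continuous_ofReal
    simpa using (this.tendsto 1).mono_left nhdsWithin_le_nhds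
  have t2 : Tendsto (fun σ : ℝ => ∑' n : ℕ,
      (1 / (n + a : ℂ) ^ (σ : ℂ) - 1 / (n + 1 - a : ℂ) ^ (σ : ℂ)) / 2) (𝓝[>] 1)
      (𝓝 (∑' n : ℕ, (1 / (n + a : ℂ) - 1 / (n + 1 - a : ℂ)) / 2)) := by
    refine tendsto_tsum_of_dominated_convergence
      (bound := fun n : ℕ => 1 / |(n : ℝ) + δ| ^ (2 : ℝ) + 1 / |(n : ℝ) + δ| ^ (3 : ℝ))
      (((Real.summable_one_div_nat_add_rpow δ 2).2 (by norm_num)).add
        ((Real.summable_one_div_nat_add_rpow δ 3).2 (by norm_num))) (fun n => ?_) ?_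
    · have c1 : ∀ z : ℂ, z ≠ 0 →
          Tendsto (fun σ : ℝ => 1 / z ^ (σ : ℂ)) (𝓝[>] 1) (𝓝 (1 / z)) := by
        intro z hz
        have : Continuous fun σ : ℝ => 1 / z ^ (σ : ℂ) :=
          continuous_const.div (Complex.continuous_ofReal.const_cpow (Or.inl hz))
            fun σ => by simp [hz]
        simpa using (this.tendsto 1).mono_left nhdsWithin_le_nhds
      refine ((c1 _ ?_).sub (c1 _ ?_)).div_const 2
      · have : (0 : ℝ) < n + a := by positivity
        exact_mod_cast this.ne'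
      · have : (0 : ℝ) < n + 1 - a := by have : (0 : ℝ) ≤ n := n.cast_nonneg; linarith
        exact_mod_cast this.ne'
    · filter_upwards [Ioo_mem_nhdsGT (show (1 : ℝ) < 2 by norm_num)] with σ hσ n
      have hn : (0 : ℝ) ≤ n := n.cast_nonneg
      have := rpow_diff (c := n + δ) (x := n + a) (y := n + 1 - a) (by linarith)
        (by linarith [min_le_left a (1 - a)]) (by linarith [min_le_right a (1 - a)])
        (by rw [abs_le]; constructor <;> linarith) hσ.1.le hσ.2.le
      have e : (1 / (n + a : ℂ) ^ (σ : ℂ) - 1 / (n + 1 - a : ℂ) ^ (σ : ℂ)) / 2 =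
          ((((n + a) ^ (-σ) - (n + 1 - a) ^ (-σ)) / 2 : ℝ) : ℂ) := by
        rw [Real.rpow_neg (by linarith), Real.rpow_neg (by linarith)]
        push_cast
        rw [Complex.ofReal_cpow (by linarith), Complex.ofReal_cpow (by linarith)]
        push_cast
        simp only [one_div]
      rw [e, Complex.norm_real, Real.norm_eq_abs, abs_div, abs_two]
      linarith
  have t3 : hurwitzZetaOdd a 1 = ∑' n : ℕ, (1 / (n + a : ℂ) - 1 / (n + 1 - a : ℂ)) / 2 := by
    refine tendsto_nhds_unique t1 (t2.congr' ?_)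
    filter_upwards [self_mem_nhdsWithin] with σ hσ
    exact (hasSum_nat_hurwitzZetaOdd_of_mem_Icc ⟨h0.le, h1.le⟩ (by simpa using hσ)).tsum_eq
  have hz : (a : ℂ) ∈ integerComplement := by
    rw [Complex.mem_integerComplement_iff]
    rintro ⟨n, hn⟩
    have hn' : (n : ℝ) = a := by exact_mod_cast hn
    have a1 : (0 : ℤ) < n := by exact_mod_cast hn' ▸ h0
    have a2 : n < (1 : ℤ) := by exact_mod_cast hn' ▸ h1
    omega
  have s1 := (summable_cotTerm hz).hasSum
  have s0 : Tendsto (fun n : ℕ => 1 / (n + a : ℂ)) atTop (𝓝 0) := by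
    have : Tendsto (fun n : ℕ => ((n : ℝ) + a)⁻¹) atTop (𝓝 0) :=
      (tendsto_atTop_add_const_right _ _ tendsto_natCast_atTop_atTop).inv_tendsto_atTop
    simpa [Function.comp_def] using (Complex.continuous_ofReal.tendsto 0).comp this
  have s2 : Summable fun n : ℕ => (1 / (n + a : ℂ) - 1 / (n + 1 - a : ℂ)) / 2 := by
    refine Summable.of_norm_bounded
      (((Real.summable_one_div_nat_add_rpow δ 2).2 (by norm_num)).add
        ((Real.summable_one_div_nat_add_rpow δ 3).2 (by norm_num))) fun n => ?_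
    have hn : (0 : ℝ) ≤ n := n.cast_nonneg
    have := rpow_diff (c := n + δ) (x := n + a) (y := n + 1 - a) (by linarith)
      (by linarith [min_le_left a (1 - a)]) (by linarith [min_le_right a (1 - a)])
      (by rw [abs_le]; constructor <;> linarith) le_rfl one_le_two
    have e : (1 / (n + a : ℂ) - 1 / (n + 1 - a : ℂ)) / 2 =
        ((((n + a) ^ (-1 : ℝ) - (n + 1 - a) ^ (-1 : ℝ)) / 2 : ℝ) : ℂ) := by
      rw [Real.rpow_neg_one, Real.rpow_neg_one]
      push_cast
      simp only [one_div]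
    rw [e, Complex.norm_real, Real.norm_eq_abs, abs_div, abs_two]
    linarith
  have s3 : ∀ N : ℕ, ∑ n ∈ range N, (1 / (n + a : ℂ) - 1 / (n + 1 - a : ℂ)) / 2 =
      (∑ n ∈ range N, cotTerm a n + 1 / a - 1 / (N + a)) / 2 := by
    intro N
    induction N with
    | zero => simp
    | succ N ih =>
      rw [sum_range_succ, sum_range_succ, ih, cotTerm]
      have : (1 : ℂ) / (a - (N + 1)) = -(1 / (N + 1 - a)) := by
        rw [← neg_sub, div_neg]
      rw [this]
      push_cast
      rw [add_comm (a : ℂ) (N + 1)]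
      ring
  have s4 := s2.hasSum.tendsto_sum_nat
  simp only [s3] at s4
  have s5 := ((s1.tendsto_sum_nat.add_const (1 / (a : ℂ))).sub s0).div_const 2
  rw [t3, tendsto_nhds_unique s4 s5]
  have := cot_series_rep' hz
  simp only [cotTerm]
  rw [← this]
  ring

theorem cot_ne {m : ℕ} [NeZero m] (χ : DirichletCharacter ℂ m) (hχ : χ.Odd) :
    ∑ s : ZMod m, χ s * Complex.cot (π * ((s.val : ℝ) / m : ℝ)) ≠ 0 := by
  have h0 : χ 0 = 0 := by
    have := hχ.eval_neg χ 0
    rw [neg_zero] at this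
    linear_combination this / 2
  have h1 : χ ≠ 1 := by
    rintro rfl
    have := hχ.eval_neg _ 1
    rw [MulChar.one_apply (isUnit_one.neg), map_one] at this
    norm_num at this
  intro h
  apply χ.LFunction_apply_one_ne_zero h1
  rw [DirichletCharacter.LFunction, ZMod.LFunction_def_odd fun x => hχ.eval_neg χ x]
  refine mul_eq_zero_of_right _ ?_
  have : ∀ s : ZMod m, χ s * hurwitzZetaOdd (ZMod.toAddCircle s) 1 =
      π / 2 * (χ s * Complex.cot (π * ((s.val : ℝ) / m : ℝ))) := by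
    intro s
    by_cases hs : s = 0
    · simp [hs, h0]
    · have hm : (0 : ℝ) < m := by exact_mod_cast Nat.pos_of_ne_zero (NeZero.ne m)
      rw [ZMod.toAddCircle_apply, hz_one
        (div_pos (by exact_mod_cast Nat.pos_of_ne_zero (by simpa using hs)) hm)
        ((div_lt_one hm).2 (by exact_mod_cast ZMod.val_lt s))]
      ring
  rw [sum_congr rfl fun s _ => this s, ← mul_sum, h, mul_zero]

end Pool.Agent.Lib.MP_40dc3c_ag.Fe
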