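import Mathlib

/-! Symbols of Gauss sum motives, Tate tuples and the standard relations. -/

namespace Pool.Agent.Lib.MP_40dc3c_ag.Fe

open Finset

/-- the symbol of the class of `a` in `ℚ / ℤ`. -/
def sym (a : ℚ) : FreeAbelianGroup (Option ℚ) := .of (some (Int.fract a))

/-- the symbol of the Lefschetz motive. -/
def Lef : FreeAbelianGroup (Option ℚ) := .of none

/-- the Stickelberger condition in characteristic `p`. -/
def Tate (p : ℕ) (a : Multiset ℚ) : Prop :=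
  (∀ x ∈ a, x.den ≠ 1) ∧ ∃ f : ℕ, 0 < f ∧ (∀ x ∈ a, x.den ∣ p ^ f - 1) ∧
    ∀ t : ℕ, (∀ x ∈ a, t.Coprime x.den) →
      (a.map fun x => ∑ h ∈ range f, Int.fract ((t : ℚ) * p ^ h * x)).sum = f * a.card / 2

/-- the subgroup spanned by reflection, Frobenius, multiplication and Fermat surface relations. -/
def Std (p : ℕ) : AddSubgroup (FreeAbelianGroup (Option ℚ)) := AddSubgroup.closure
  {z | (∃ a : ℚ, a.den ≠ 1 ∧ a.den.Coprime p ∧
      (z = sym a + sym (-a) - Lef ∨ z = sym (p * a) - sym a ∨ ∃ l : ℕ, l.Prime ∧ l ≠ p ∧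
        z = ∑ k ∈ range l, sym ((a + k) / l) - sym a - ∑ k ∈ Ico 1 l, sym (k / l))) ∨
    ∃ a : Multiset ℚ, a.card = 4 ∧ Tate p a ∧ a.sum.den = 1 ∧ z = (a.map sym).sum - 2 • Lef}

end Pool.Agent.Lib.MP_40dc3c_ag.Fe
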