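import Pool.Agent.Lib.MP_61a4e3_al.WDSieve

/-! Primes of a residue class cannot all have many prime ideals of degree one above them. -/

namespace Pool.Agent.Lib.MP_40dc3c_ag.Fe

open Finset NumberField Filter Topology Pool.Agent.Lib.MP_61a4e3_al ArithmeticFunction

variable {F : Type} [Field F] [NumberField F]

open Classical in
lemma hasSum_dvd {s : ℝ} (hs : 1 < s) {P : Ideal (𝓞 F)} (hP : P ≠ ⊥) :
    HasSum (fun I => if P ∣ I then nw s I else 0) (nw s P * ∑' I : Ideal (𝓞 F), nw s I) := by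
  have hinj : Function.Injective fun J : Ideal (𝓞 F) => P * J :=
    fun J J' hJ => mul_left_cancel₀ hP hJ
  rw [← hinj.hasSum_iff]
  · have := (summable_nw (F := F) hs).hasSum.mul_left (nw s P)
    refine this.congr_fun ?_
    intro J
    simp [nw_mul]
  · intro I hI
    rw [if_neg]
    rintro ⟨J, rfl⟩
    exact hI ⟨J, rfl⟩

lemma log_le_diff {N s t : ℝ} (hN : 1 ≤ N) (h : t < s) :
    Real.log N * N ^ (-s) ≤ (N ^ (-t) - N ^ (-s)) / (s - t) := by
  have h0 : 0 < N := by linarith
  rw [le_div_iff₀ (by linarith)]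
  have e : N ^ (-t) = N ^ (-s) * Real.exp (Real.log N * (s - t)) := by
    rw [← Real.rpow_def_of_pos h0, ← Real.rpow_add h0]
    congr 1
    ring
  have := Real.add_one_le_exp (Real.log N * (s - t))
  have h1 : 0 < N ^ (-s) := Real.rpow_pos_of_pos h0 _
  rw [e]
  nlinarith

lemma ideal_bound (T : Finset (Ideal (𝓞 F))) (hT : ∀ P ∈ T, Prime P) {s t : ℝ} (ht : 1 < t)
    (h : t < s) : (∑ P ∈ T, Real.log (Ideal.absNorm P) * nw s P) * ∑' I : Ideal (𝓞 F), nw s I ≤
      (∑' I : Ideal (𝓞 F), nw t I - ∑' I : Ideal (𝓞 F), nw s I) / (s - t) := by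
  classical
  have hs : 1 < s := ht.trans h
  have h1 := hasSum_sum fun P (hP : P ∈ T) =>
    (hasSum_dvd hs (hT P hP).ne_zero).mul_left (Real.log (Ideal.absNorm P))
  have h2 := ((summable_nw (F := F) ht).hasSum.sub (summable_nw (F := F) hs).hasSum).div_const
    (s - t)
  rw [sum_mul]
  simp only [mul_assoc]
  refine hasSum_le (fun I => ?_) h1 h2
  by_cases hI : I = ⊥
  · subst hI
    simp [nw_bot (show 0 < s by linarith), nw_bot (show 0 < t by linarith)]
  have a3 : (1 : ℝ) ≤ Ideal.absNorm I := by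
    exact_mod_cast Nat.one_le_iff_ne_zero.mpr (Ideal.absNorm_eq_zero_iff.not.mpr hI)
  refine le_trans ?_ (log_le_diff a3 h)
  simp only [mul_ite, mul_zero]
  rw [← sum_filter, ← sum_mul]
  refine mul_le_mul_of_nonneg_right ?_ (nw_nonneg s I)
  have a4 : ∀ P ∈ T.filter (· ∣ I), (0 : ℝ) < Ideal.absNorm P := fun P hP => by
    exact_mod_cast Nat.pos_of_ne_zero
      (Ideal.absNorm_eq_zero_iff.not.mpr (hT P (mem_filter.1 hP).1).ne_zero)
  rw [← Real.log_prod fun P hP => (a4 P hP).ne']
  refine Real.log_le_log (prod_pos a4) ?_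
  rw [← Nat.cast_prod, ← map_prod, Nat.cast_le]
  exact Nat.le_of_dvd (by exact_mod_cast a3) (map_dvd Ideal.absNorm (prod_primes_dvd I
    (fun P hP => hT P (mem_filter.1 hP).1) fun P hP => (mem_filter.1 hP).2))

variable (F) in
lemma zeta_lim : ∃ κ : ℝ, 0 < κ ∧
    Tendsto (fun e : ℝ => e * ∑' I : Ideal (𝓞 F), nw (1 + e) I) (𝓝[>] 0) (𝓝 κ) := by
  refine ⟨_, dedekindZeta_residue_pos F, ?_⟩
  have t0 : Tendsto (fun e : ℝ => 1 + e) (𝓝[>] 0) (𝓝[>] 1) := by
    refine tendsto_nhdsWithin_iff.2 ⟨?_, ?_⟩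
    · have : Tendsto (fun e : ℝ => 1 + e) (𝓝 0) (𝓝 (1 + 0)) :=
        (continuous_const.add continuous_id).tendsto 0
      simpa using this.mono_left nhdsWithin_le_nhds
    · filter_upwards [self_mem_nhdsWithin] with e he
      simpa using he
  have t := (Complex.continuous_re.tendsto _).comp
    ((tendsto_sub_one_mul_dedekindZeta_nhdsGT F).comp t0)
  rw [Complex.ofReal_re] at t
  refine t.congr' ?_
  filter_upwards [self_mem_nhdsWithin] with e he
  have he' : (1 : ℝ) < 1 + e := by simpa using he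
  simp only [Function.comp]
  rw [← tsum_nw he']
  simp [-Complex.ofReal_tsum]

variable (F) in
lemma prime_bound : ∀ᶠ e : ℝ in 𝓝[>] 0, ∀ T : Finset (Ideal (𝓞 F)), (∀ P ∈ T, Prime P) →
    e * ∑ P ∈ T, Real.log (Ideal.absNorm P) * nw (1 + e) P ≤ 4 := by
  obtain ⟨κ, hκ, t⟩ := zeta_lim F
  have t0 : Tendsto (fun e : ℝ => e / 2) (𝓝[>] 0) (𝓝[>] 0) := by
    refine tendsto_nhdsWithin_iff.2 ⟨?_, ?_⟩
    · have : Tendsto (fun e : ℝ => e / 2) (𝓝 0) (𝓝 (0 / 2)) :=
        (continuous_id.div_const 2).tendsto 0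
      simpa using this.mono_left nhdsWithin_le_nhds
    · filter_upwards [self_mem_nhdsWithin] with e he
      simpa using he
  filter_upwards [t.eventually (lt_mem_nhds (show 3 * κ / 4 < κ by linarith)),
    (t.comp t0).eventually (gt_mem_nhds (show κ < 9 * κ / 8 by linarith)),
    self_mem_nhdsWithin] with e h1 h2 he T hT
  have he' : 0 < e := he
  have h3 := ideal_bound T hT (s := 1 + e) (t := 1 + e / 2) (by linarith) (by linarith)
  simp only [Function.comp] at h2
  rw [le_div_iff₀ (by linarith)] at h3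
  generalize ∑ P ∈ T, Real.log (Ideal.absNorm P) * nw (1 + e) P = S at h3 ⊢
  generalize ∑' I : Ideal (𝓞 F), nw (1 + e) I = Z at h1 h3
  generalize ∑' I : Ideal (𝓞 F), nw (1 + e / 2) I = Y at h2 h3
  by_contra hc
  have h4 : 4 < e * S := not_le.1 hc
  have h5 : 0 < e * Z := by linarith
  have h6 : e * (S * Z * (1 + e - (1 + e / 2))) ≤ e * (Y - Z) := by gcongr
  nlinarith

/-- the density bound. -/
theorem dens {Q D M : ℕ} [NeZero Q] {a : ZMod Q} (ha : IsUnit a)
    (h : ∀ l : ℕ, l.Prime → M < l → (l : ZMod Q) = a →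
      ∃ T : Finset (Ideal (𝓞 F)), D ≤ T.card ∧ ∀ P ∈ T, Prime P ∧ Ideal.absNorm P = l) :
    D ≤ 4 * Q.totient := by
  classical
  choose! T hT using h
  obtain ⟨C, hC⟩ := vonMangoldt.LSeries_residueClass_lower_bound ha
  set r : ℕ → ℝ := fun n => (if n.Prime then 0 else vonMangoldt.residueClass a n) / n +
    if n ∈ range (M + 1) then vonMangoldt n else 0 with hr
  have r0 : ∀ n, 0 ≤ r n := fun n => by
    have := vonMangoldt.residueClass_nonneg a n
    have := @vonMangoldt_nonneg n
    simp only [hr]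
    positivity
  have rs : Summable r := (vonMangoldt.summable_residueClass_non_primes_div a).add
    (summable_of_ne_finset_zero (s := range (M + 1)) fun b hb => if_neg hb)
  rcases Nat.eq_zero_or_pos D with rfl | hD
  · exact Nat.zero_le _
  have hD' : (0 : ℝ) < D := by exact_mod_cast hD
  have hφ : (0 : ℝ) < Q.totient := by exact_mod_cast Nat.totient_pos.2 (NeZero.pos Q)
  have key : ∀ᶠ e : ℝ in 𝓝[>] 0, (Q.totient : ℝ)⁻¹ ≤ 4 / D + e * (C + ∑' n, r n) := by
    filter_upwards [prime_bound F, Ioc_mem_nhdsGT (zero_lt_one' ℝ)] with e h1 he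
    have h2 := hC (x := 1 + e) ⟨by linarith [he.1], by linarith [he.2]⟩
    have e0 := he.1
    have h3 : ∑' n, vonMangoldt.residueClass a n / (n : ℝ) ^ (1 + e) ≤
        4 / (D * e) + ∑' n, r n := by
      refine tsum_le_of_sum_le' (add_nonneg (by positivity) (tsum_nonneg r0)) fun u => ?_
      set A := u.filter fun l => l.Prime ∧ M < l ∧ (l : ZMod Q) = a with hA
      have mA : ∀ l ∈ A, D ≤ (T l).card ∧ ∀ P ∈ T l, Prime P ∧ Ideal.absNorm P = l :=
        fun l hl => hT l (mem_filter.1 hl).2.1 (mem_filter.1 hl).2.2.1 (mem_filter.1 hl).2.2.2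
      have h4 := h1 (A.biUnion T) fun P hP => by
        obtain ⟨l, hl, hP⟩ := mem_biUnion.1 hP
        exact ((mA l hl).2 P hP).1
      rw [sum_biUnion fun l hl l' hl' ne => disjoint_left.2 fun P h h' =>
        ne (((mA l hl).2 P h).2.symm.trans ((mA l' hl').2 P h').2)] at h4
      have h5 : D * ∑ l ∈ A, Real.log l * (l : ℝ) ^ (-(1 + e)) ≤
          ∑ l ∈ A, ∑ P ∈ T l, Real.log (Ideal.absNorm P) * nw (1 + e) P := by
        rw [mul_sum]
        refine sum_le_sum fun l hl => ?_
        rw [sum_congr rfl fun P hP => (show Real.log (Ideal.absNorm P) * nw (1 + e) P =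
          Real.log l * (l : ℝ) ^ (-(1 + e)) by rw [nw, ((mA l hl).2 P hP).2]), sum_const,
          nsmul_eq_mul]
        have := Real.log_natCast_nonneg l
        gcongr
        exact (mA l hl).1
      have h6 : ∑ l ∈ A, Real.log l * (l : ℝ) ^ (-(1 + e)) ≤ 4 / (D * e) := by
        rw [le_div_iff₀ (by positivity)]
        nlinarith
      refine le_trans ?_ (add_le_add h6 (rs.sum_le_tsum u fun n _ => r0 n))
      rw [hA, sum_filter, ← sum_add_distrib]
      refine sum_le_sum fun n _ => ?_
      have v0 := vonMangoldt.residueClass_nonneg a n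
      have v1 := vonMangoldt.residueClass_le a n
      rcases Nat.eq_zero_or_pos n with rfl | hn
      · simpa using r0 0
      have n1 : (1 : ℝ) ≤ n := by exact_mod_cast hn
      have n2 : (n : ℝ) ≤ n ^ (1 + e) := by
        conv_lhs => rw [← Real.rpow_one n]
        exact Real.rpow_le_rpow_of_exponent_le n1 (by linarith)
      have v2 := @vonMangoldt_nonneg n
      split_ifs with c
      · rw [Real.rpow_neg (by linarith), ← div_eq_mul_inv, ← vonMangoldt_apply_prime c.1]
        refine le_add_of_le_of_nonneg ?_ (r0 n)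
        gcongr
      · rw [zero_add]
        simp only [hr]
        by_cases c1 : n.Prime
        · by_cases c2 : M < n
          · have : (n : ZMod Q) ≠ a := fun c3 => c ⟨c1, c2, c3⟩
            have : vonMangoldt.residueClass a n = 0 :=
              Set.indicator_of_notMem (s := {n : ℕ | (n : ZMod Q) = a}) this _
            have r1 := r0 n
            simp only [hr] at r1
            rw [this] at r1 ⊢
            rwa [zero_div]
          · rw [if_pos c1, if_pos (mem_range.2 (by omega)), zero_div, zero_add]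
            exact (div_le_self v0 (n1.trans n2)).trans v1
        · rw [if_neg c1]
          refine le_add_of_le_of_nonneg ?_ (by positivity)
          gcongr
    rw [add_sub_cancel_left, sub_le_iff_le_add, div_le_iff₀ e0] at h2
    refine h2.trans ?_
    have : (4 / (D * e) + ∑' n, r n + C) * e = 4 / D + e * (C + ∑' n, r n) := by
      field_simp
      ring
    rw [← this]
    gcongr
  have t : Tendsto (fun e : ℝ => 4 / D + e * (C + ∑' n, r n)) (𝓝[>] 0)
      (𝓝 (4 / D + 0 * (C + ∑' n, r n))) :=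
    ((continuous_const.add (continuous_id.mul continuous_const)).tendsto 0).mono_left
      nhdsWithin_le_nhds
  have := ge_of_tendsto t key
  rw [zero_mul, add_zero, le_div_iff₀ hD', inv_mul_le_iff₀ hφ] at this
  exact_mod_cast (by linarith : (D : ℝ) ≤ 4 * Q.totient)

end Pool.Agent.Lib.MP_40dc3c_ag.Fe
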