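import Pool.Agent.Lib.MP_40dc3c_ag.Fe.Zm

/-! A complex distribution is determined by its Fourier transform on the units. -/

namespace Pool.Agent.Lib.MP_40dc3c_ag.Fe

open Finset ZMod

variable {m : ℕ} [NeZero m] {G : ZMod m → ℂ}

lemma dft_rel (h : ZD G) {l : ℕ} (hl : l.Prime) (hlm : l ∣ m) (k : ZMod m) :
    l * 𝓕 G (l * k) = ∑ y with (l : ZMod m) * y = l * k, 𝓕 G y := by
  obtain ⟨c, hc⟩ := id hlm
  have hm : 0 < m := Nat.pos_of_ne_zero (NeZero.ne m)
  have hc0 : 0 < c := Nat.pos_of_mul_pos_left (hc ▸ hm)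
  have hlc : (l : ZMod m) * c = 0 := by rw [← Nat.cast_mul, ← hc, ZMod.natCast_self]
  rw [sum_fiber hc]
  simp only [dft_apply, smul_eq_mul]
  rw [sum_comm, ← sum_fiberwise (s := univ) (g := fun x : ZMod m => (l : ZMod m) * x), mul_sum]
  refine sum_congr rfl fun j _ => ?_
  have e1 : ∑ i ∈ range l, stdAddChar (-(j * (k + (i : ZMod m) * (c : ZMod m)))) * G j =
      stdAddChar (-(j * k)) * G j * ∑ i ∈ range l, stdAddChar (-(j * (c : ZMod m))) ^ i := by
    rw [mul_sum]
    refine sum_congr rfl fun i _ => ?_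
    rw [← AddChar.map_nsmul_eq_pow, mul_right_comm, ← AddChar.map_add_eq_mul]
    congr 2
    rw [nsmul_eq_mul]
    ring
  have e2 : ∑ x with (l : ZMod m) * x = j, stdAddChar (-(x * ((l : ZMod m) * k))) * G x =
      stdAddChar (-(j * k)) * ∑ x with (l : ZMod m) * x = j, G x := by
    rw [mul_sum]
    refine sum_congr rfl fun x hx => ?_
    rw [← (mem_filter.1 hx).2]
    congr 3
    ring
  rw [e1, e2]
  by_cases hj : j * c = 0
  · have h1 : ((j.val * c : ℕ) : ZMod m) = 0 := by push_cast; rwa [ZMod.natCast_zmod_val]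
    rw [ZMod.natCast_eq_zero_iff] at h1
    have h2 : l * c ∣ j.val * c := hc ▸ h1
    obtain ⟨x, hx⟩ := Nat.dvd_of_mul_dvd_mul_right hc0 h2
    have h3 : j = l * (x : ZMod m) := by rw [← Nat.cast_mul, ← hx, ZMod.natCast_zmod_val]
    have h4 := h.dist l hl hlm x
    rw [← h3] at h4
    rw [h4, hj]
    simp
    ring
  · have h1 : ∑ i ∈ range l, stdAddChar (-(j * (c : ZMod m))) ^ i = 0 := by
      have h2 : stdAddChar (-(j * (c : ZMod m))) ≠ 1 := by
        intro e
        apply hj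
        have := injective_stdAddChar (N := m) (e.trans (AddChar.map_zero_eq_one _).symm)
        rwa [neg_eq_zero] at this
      rw [geom_sum_eq h2, ← AddChar.map_nsmul_eq_pow, nsmul_eq_mul,
        show (l : ZMod m) * -(j * c) = 0 by linear_combination (-j) * hlc]
      simp
    have h2 : (univ.filter fun x : ZMod m => (l : ZMod m) * x = j) = ∅ := by
      refine filter_eq_empty_iff.2 fun x _ e => hj ?_
      rw [← e]
      linear_combination x * hlc
    rw [h1, h2]
    simp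

lemma dft_zero (h : ZD G) (hu : ∀ k, IsUnit k → 𝓕 G k = 0) : G = 0 := by
  have hm : 0 < m := Nat.pos_of_ne_zero (NeZero.ne m)
  have hdv : ∀ k : ZMod m, addOrderOf k ∣ m := fun k => by
    simpa using addOrderOf_dvd_card (x := k)
  suffices H : ∀ n : ℕ, ∀ k : ZMod m, m - addOrderOf k = n → 𝓕 G k = 0 by
    have : 𝓕 G = 0 := funext fun k => H _ k rfl
    exact (LinearEquiv.map_eq_zero_iff _).1 this
  intro n
  induction n using Nat.strong_induction_on with
  | _ n ih =>
  intro k0 hk0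
  obtain ⟨k, hk, hmax⟩ := exists_max_image (univ.filter fun k : ZMod m => m - addOrderOf k = n)
    (fun k => ‖𝓕 G k‖) ⟨k0, by simpa using hk0⟩
  have hk' := (mem_filter.1 hk).2
  suffices 𝓕 G k = 0 by
    have h1 := hmax k0 (by simpa using hk0)
    rw [this, norm_zero] at h1
    exact norm_le_zero_iff.1 h1
  obtain ⟨e, he⟩ := hdv k
  set d := addOrderOf k with hd
  have hd0 : 0 < d := Nat.pos_of_mul_pos_right (he ▸ hm)
  by_cases he1 : e = 1
  · apply hu
    rw [he1, mul_one] at he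
    have h1 := ZMod.addOrderOf_coe k.val hm.ne'
    rw [ZMod.natCast_zmod_val, ← hd, ← he] at h1
    rw [← ZMod.natCast_zmod_val k, ZMod.isUnit_iff_coprime]
    have h2 := Nat.div_mul_cancel (Nat.gcd_dvd_left m k.val)
    rw [← h1] at h2
    rw [Nat.coprime_comm]
    exact Nat.eq_of_mul_eq_mul_left hm (by rw [h2, mul_one])
  obtain ⟨l, hl, f, hf⟩ := Nat.exists_prime_and_dvd he1
  have hlm : l ∣ m := ⟨d * f, by rw [he, hf]; ring⟩
  have h1 : ((d * k.val : ℕ) : ZMod m) = 0 := by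
    push_cast
    rw [ZMod.natCast_zmod_val, ← nsmul_eq_mul, hd, addOrderOf_nsmul_eq_zero]
  rw [ZMod.natCast_eq_zero_iff] at h1
  have h2 : d * e ∣ d * k.val := he ▸ h1
  obtain ⟨x, hx⟩ := (Dvd.intro _ hf.symm).trans (Nat.dvd_of_mul_dvd_mul_left hd0 h2)
  have h3 : k = l * (x : ZMod m) := by rw [← Nat.cast_mul, ← hx, ZMod.natCast_zmod_val]
  have h4 := dft_rel h hl hlm x
  rw [← h3] at h4
  have h5 : ∑ y with (l : ZMod m) * y = k, 𝓕 G y =
      ∑ y with (l : ZMod m) * y = k ∧ addOrderOf y = d, 𝓕 G y := by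
    symm
    refine sum_subset (fun y hy => by simp only [mem_filter] at hy ⊢; tauto) fun y hy hy' => ?_
    simp only [mem_filter, mem_univ, true_and] at hy hy'
    have a1 : d ∣ addOrderOf y := by
      rw [hd, addOrderOf_dvd_iff_nsmul_eq_zero, ← hy, ← nsmul_eq_mul, smul_comm,
        addOrderOf_nsmul_eq_zero, smul_zero]
    have a2 := Nat.le_of_dvd hm (hdv y)
    have a3 := Nat.le_of_dvd (addOrderOf_pos y) a1
    have a4 : addOrderOf y ≠ d := fun e => hy' ⟨hy, e⟩
    exact ih (m - addOrderOf y) (by omega) y rfl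
  have h6 : #{y : ZMod m | (l : ZMod m) * y = k ∧ addOrderOf y = d} ≤ 1 := by
    refine card_le_one.2 fun y hy y' hy' => ?_
    simp only [mem_filter, mem_univ, true_and] at hy hy'
    have b1 : d • y = 0 := by rw [← hy.2, addOrderOf_nsmul_eq_zero]
    have b2 : d • y' = 0 := by rw [← hy'.2, addOrderOf_nsmul_eq_zero]
    by_cases hld : l ∣ d
    · exfalso
      obtain ⟨d', hd'⟩ := hld
      have b3 : d ∣ d' := by
        rw [hd, addOrderOf_dvd_iff_nsmul_eq_zero, ← hy.1, ← nsmul_eq_mul, ← mul_nsmul, ← hd', b1]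
      have b4 : 0 < d' := Nat.pos_of_mul_pos_left (hd' ▸ hd0)
      have b5 := Nat.le_of_dvd b4 b3
      have b6 := hl.two_le
      nlinarith
    · have b3 : addOrderOf (y - y') ∣ Nat.gcd l d := by
        refine Nat.dvd_gcd ?_ ?_
        · rw [addOrderOf_dvd_iff_nsmul_eq_zero, nsmul_eq_mul, mul_sub, hy.1, hy'.1, sub_self]
        · rw [addOrderOf_dvd_iff_nsmul_eq_zero, nsmul_sub, b1, b2, sub_self]
      rw [(hl.coprime_iff_not_dvd.2 hld : Nat.gcd l d = 1), Nat.dvd_one,
        AddMonoid.addOrderOf_eq_one_iff] at b3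
      exact sub_eq_zero.1 b3
  have h7 : ‖(l : ℂ) * 𝓕 G k‖ ≤ ‖𝓕 G k‖ := by
    rw [h4, h5]
    refine (norm_sum_le _ _).trans ((sum_le_card_nsmul _ _ ‖𝓕 G k‖ fun y hy => ?_).trans ?_)
    · refine hmax y ?_
      simp only [mem_filter, mem_univ, true_and] at hy ⊢
      rw [hy.2, hk']
    · rw [nsmul_eq_mul]
      exact mul_le_of_le_one_left (norm_nonneg _) (by exact_mod_cast h6)
  rw [norm_mul, Complex.norm_natCast] at h7
  have h8 : (2 : ℝ) ≤ l := by exact_mod_cast hl.two_le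
  have h9 := norm_nonneg (𝓕 G k)
  exact norm_le_zero_iff.1 (by nlinarith)

end Pool.Agent.Lib.MP_40dc3c_ag.Fe
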