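import Pool.Agent.Lib.MP_40dc3c_ag.Fe.Defs

/-! Tate tuples through Gauss sums. -/

namespace Pool.Agent.Lib.MP_40dc3c_ag.Fe

open Finset

/-- a power of the product of the Gauss sums attached to `a` is the matching power of `q`. -/
def GTate (p : ℕ) (a : Multiset ℚ) : Prop :=
  ∃ (F : Type) (_ : Field F) (_ : Fintype F) (_ : CharP F p) (χ : MulChar F ℂ) (ψ : AddChar F ℂ)
    (n : Multiset ℤ) (N : ℕ), ψ ≠ 1 ∧ 0 < N ∧ (∀ i ∈ n, χ ^ i ≠ 1) ∧
    a = n.map (fun i : ℤ => (i : ℚ) / orderOf χ) ∧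
    (n.map fun i => gaussSum (χ ^ i) ψ).prod ^ (2 * N) = (Fintype.card F : ℂ) ^ (N * n.card)

/-- the subgroup spanned by reflection, Frobenius, multiplication and Fermat surface relations. -/
def GStd (p : ℕ) : AddSubgroup (FreeAbelianGroup (Option ℚ)) := AddSubgroup.closure
  {z | (∃ a : ℚ, a.den ≠ 1 ∧ a.den.Coprime p ∧
      (z = sym a + sym (-a) - Lef ∨ z = sym (p * a) - sym a ∨ ∃ l : ℕ, l.Prime ∧ l ≠ p ∧
        z = ∑ k ∈ range l, sym ((a + k) / l) - sym a - ∑ k ∈ Ico 1 l, sym (k / l))) ∨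
    ∃ a : Multiset ℚ, a.card = 4 ∧ GTate p a ∧ a.sum.den = 1 ∧ z = (a.map sym).sum - 2 • Lef}

end Pool.Agent.Lib.MP_40dc3c_ag.Fe
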