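import Pool.Agent.Lib.MP_40dc3c_ag.Fe.GDefs
import Pool.Agent.Lib.MP_40dc3c_ag.S1c

/-! The Gauss sum form of the Tate condition is equivalent to the fractional part form. -/

namespace Pool.Agent.Lib.MP_40dc3c_ag.Fe

open Finset Stick

lemma exists_fam {α : Type} (a : Multiset α) :
    ∃ (ι : Type) (_ : Fintype ι) (x : ι → α), a = (univ : Finset ι).val.map x := by
  classical
  exact ⟨a, inferInstance, fun x => x, (Multiset.map_univ_coe a).symm⟩

lemma fract_congr {m : ℕ} (hm : 0 < m) (i : ℤ) (s s' : ℕ) (h : s ≡ s' [MOD ((i : ℚ) / m).den]) :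
    Int.fract ((s : ℚ) * ((i : ℚ) / m)) = Int.fract (((s' * (i % m).toNat : ℕ) : ℚ) / m) := by
  have hm' : (m : ℚ) ≠ 0 := by exact_mod_cast hm.ne'
  have h0 : (((i % m).toNat : ℕ) : ℚ) = (i : ℚ) - m * (i / m : ℤ) := by
    have h1 : (((i % m).toNat : ℕ) : ℤ) = i - m * (i / m) := by
      rw [Int.toNat_of_nonneg (Int.emod_nonneg _ (by exact_mod_cast hm.ne')), Int.emod_def]
    exact_mod_cast h1
  obtain ⟨c, hc⟩ := (Nat.modEq_iff_dvd.1 h.symm)
  rw [Int.fract_eq_fract]
  refine ⟨c * ((i : ℚ) / m).num + s' * (i / m), ?_⟩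
  have h2 : (s : ℚ) = s' + ((i : ℚ) / m).den * c := by
    have : (s : ℤ) = s' + ((i : ℚ) / m).den * c := by linarith
    exact_mod_cast this
  have h3 := Rat.den_mul_eq_num ((i : ℚ) / m)
  rw [Nat.cast_mul, h0, Int.cast_add, Int.cast_mul, Int.cast_mul, ← h3, h2]
  push_cast
  field_simp
  ring

lemma den_dvd_nat (i : ℤ) (m : ℕ) : ((i : ℚ) / m).den ∣ m := by
  have := Rat.den_dvd i m
  rw [Rat.divInt_eq_div] at this
  exact_mod_cast this

theorem gtate_iff {p : ℕ} (hp : p.Prime) (a : Multiset ℚ) : GTate p a ↔ Tate p a := by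
  classical
  have : Fact p.Prime := ⟨hp⟩
  constructor
  · rintro ⟨F, _, _, _, χ, ψ, n, N, hψ, hN, hn, rfl, h⟩
    obtain ⟨f, -, hf⟩ := FiniteField.card F p
    obtain ⟨ι, _, x, rfl⟩ := exists_fam n
    set m := orderOf χ with hm
    have hmQ : m ∣ p ^ (f : ℕ) - 1 := by rw [← hf]; exact MulChar.orderOf_dvd_card_sub_one F χ
    have hm0 : 0 < m := orderOf_pos χ
    have : NeZero m := ⟨hm0.ne'⟩
    have hx : ∀ i, χ ^ x i ≠ 1 := fun i => hn _ (Multiset.mem_map_of_mem _ (mem_univ i))
    have hpow : ∀ i, χ ^ (x i % m).toNat = χ ^ x i := fun i => by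
      rw [← zpow_natCast, Int.toNat_of_nonneg (Int.emod_nonneg _ (by exact_mod_cast hm0.ne')),
        zpow_mod_orderOf]
    simp only [Tate, Multiset.map_map, Multiset.forall_mem_map_iff, Function.comp,
      Multiset.card_map, sum_map_val, prod_map_val, card_val, card_univ, mem_val, mem_univ,
      true_imp_iff] at h ⊢
    refine ⟨fun i h1 => hx i ?_, f, f.pos, fun i => (den_dvd_nat _ _).trans hmQ, fun t ht => ?_⟩
    · rw [← orderOf_dvd_iff_zpow_eq_one]
      refine ⟨((x i : ℚ) / m).num, ?_⟩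
      have h2 := Rat.coe_int_num_of_den_eq_one h1
      have hm' : (m : ℚ) ≠ 0 := by exact_mod_cast hm0.ne'
      have h3 : (x i : ℚ) = m * (((x i : ℚ) / m).num : ℚ) := by rw [h2]; field_simp
      exact_mod_cast h3
    · set D := univ.lcm fun i => ((x i : ℚ) / m).den with hD
      have hDm : D ∣ m := Finset.lcm_dvd fun i _ => den_dvd_nat _ _
      have htD : t.Coprime D := Nat.Coprime.coprime_dvd_right (Finset.lcm_dvd_prod _ _)
        (Nat.Coprime.prod_right fun i _ => ht i)
      obtain ⟨U, hU⟩ := ZMod.unitsMap_surjective hDm (ZMod.unitOfCoprime t htD)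
      have huc : (U : ZMod m).val.Coprime m := ZMod.val_coe_unit_coprime U
      have huu : t ≡ (U : ZMod m).val [MOD D] := by
        rw [← ZMod.natCast_eq_natCast_iff]
        have := congrArg Units.val hU
        rw [ZMod.unitsMap_val] at this
        simpa using this.symm
      rw [← stick p F f hf χ m rfl ψ hψ ι (fun i => (x i % m).toNat)
        (fun i => by rw [hpow]; exact hx i) N hN (by simpa only [hpow] using h) _ huc]
      refine sum_congr rfl fun i _ => sum_congr rfl fun j _ => ?_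
      rw [← fract_congr hm0 (x i) (t * p ^ j) _
        ((huu.of_dvd (Finset.dvd_lcm (mem_univ i))).mul_right _)]
      push_cast
      rfl
  · rintro ⟨h1, f, hf0, h2, h3⟩
    obtain ⟨ι, _, x, rfl⟩ := exists_fam a
    simp only [Multiset.map_map, Multiset.forall_mem_map_iff, Function.comp,
      Multiset.card_map, sum_map_val, card_val, card_univ, mem_val, mem_univ,
      true_imp_iff] at h1 h2 h3
    let F := GaloisField p f
    let _ : Fintype F := Fintype.ofFinite F
    have hf : Fintype.card F = p ^ f := by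
      rw [← Nat.card_eq_fintype_card]; exact GaloisField.card p f hf0.ne'
    set Q := p ^ f - 1 with hQ
    have hQ0 : 0 < Q := by have := Fintype.one_lt_card (α := F); omega
    have hQ' : (Q : ℚ) ≠ 0 := by exact_mod_cast hQ0.ne'
    have hex : ∀ i, ∃ y : ℤ, x i = (y : ℚ) / Q := fun i => by
      obtain ⟨c, hc⟩ := h2 i
      refine ⟨(x i).num * c, ?_⟩
      rw [eq_div_iff hQ', hc]
      push_cast
      rw [← mul_assoc, Rat.mul_den_eq_num]
    choose y hy using hex
    have hnd : ∀ i, ¬(Q : ℤ) ∣ y i := by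
      rintro i ⟨c, hc⟩
      apply h1 i
      rw [hy, hc]
      push_cast
      rw [mul_div_cancel_left₀ _ hQ', Rat.den_intCast]
    have hcast : ∀ i, (((y i % Q).toNat : ℕ) : ℤ) = y i % Q := fun i =>
      Int.toNat_of_nonneg (Int.emod_nonneg _ (by exact_mod_cast hQ0.ne'))
    obtain ⟨χ, ψ, N, hχ, hψ, hN, h⟩ := stick_conv p F f hf ι (fun i => (y i % Q).toNat)
      (fun i h4 => hnd i (by
        have h5 := Int.natCast_dvd_natCast.2 h4
        rw [hcast] at h5
        exact Int.dvd_of_emod_eq_zero (Int.eq_zero_of_dvd_of_nonneg_of_lt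
          (Int.emod_nonneg _ (by exact_mod_cast hQ0.ne'))
          (Int.emod_lt_of_pos _ (by exact_mod_cast hQ0)) h5)))
      (fun t ht => by
        rw [← h3 t fun i => ht.coprime_dvd_right (h2 i)]
        refine sum_congr rfl fun i _ => sum_congr rfl fun j _ => ?_
        rw [← fract_congr hQ0 (y i) (t * p ^ j) _ rfl, hy i]
        push_cast
        rfl)
    have hpow : ∀ i, χ ^ (y i % Q).toNat = χ ^ y i := fun i => by
      rw [← zpow_natCast, hcast, hQ, ← hχ, zpow_mod_orderOf]
    refine ⟨F, inferInstance, inferInstance, inferInstance, χ, ψ, univ.val.map y, N, hψ, hN,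
      ?_, ?_, ?_⟩
    · simp only [Multiset.forall_mem_map_iff]
      intro i _ h4
      exact hnd i (by rw [hQ, ← hχ]; exact orderOf_dvd_iff_zpow_eq_one.2 h4)
    · rw [Multiset.map_map, hχ]
      exact Multiset.map_congr rfl fun i _ => hy i
    · simpa only [Multiset.map_map, Function.comp, Multiset.card_map, prod_map_val, card_val,
        card_univ, hpow] using h

end Pool.Agent.Lib.MP_40dc3c_ag.Fe
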