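import Pool.Agent.Lib.MP_40dc3c_ag.Fe.Half

/-! Tate tuples with harmless parities are standard. -/

namespace Pool.Agent.Lib.MP_40dc3c_ag.Fe

open Finset

variable {p : ℕ}

/-- torsion tuples whose symbol vanishes. -/
def Good (p : ℕ) (x : Multiset ℚ) : Prop :=
  (∃ m N, 0 < m ∧ m.Coprime p ∧ 0 < N ∧ Tors p m N x) ∧ ev (us p) x = 0

lemma tors_add {x y : Multiset ℚ} (hx : ∃ m N, 0 < m ∧ m.Coprime p ∧ 0 < N ∧ Tors p m N x)
    (hy : ∃ m N, 0 < m ∧ m.Coprime p ∧ 0 < N ∧ Tors p m N y) :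
    ∃ m N, 0 < m ∧ m.Coprime p ∧ 0 < N ∧ Tors p m N (x + y) := by
  obtain ⟨m, N, a1, a2, a3, a4⟩ := hx
  obtain ⟨m', N', b1, b2, b3, b4⟩ := hy
  exact ⟨m * m', N * N', mul_pos a1 b1, Nat.Coprime.mul_left a2 b2, mul_pos a3 b3,
    (a4.mono (dvd_mul_right _ _)).add (b4.mono (dvd_mul_left _ _))⟩

lemma pf_eq {n n' : ℕ} (h : Squarefree n) (h' : Squarefree n') :
    n.primeFactors = n'.primeFactors ↔ n' = n :=
  ⟨fun e => by rw [← Nat.prod_primeFactors_of_squarefree h, e,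
    Nat.prod_primeFactors_of_squarefree h'], fun e => e ▸ rfl⟩

lemma bern_mod {m s s' : ℕ} {a : ℚ} (ha : a.den ∣ m) (h : s ≡ s' [MOD m]) :
    bern (s * a) = bern (s' * a) := by
  obtain ⟨j, hj⟩ := lv_iff.2 ha
  obtain ⟨c, hc⟩ := h.dvd
  have : (s' : ℚ) - s = m * c := by exact_mod_cast hc
  rw [← bern_per (s * a) (c * j)]
  congr 1
  push_cast
  rw [← hj]
  linear_combination (-a) * this

lemma good_four (hp : p.Prime) {x : Multiset ℚ} (h0 : x.card = 4) (ht : Tate p x)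
    (h4 : x.sum.den = 1) : Good p x := by
  obtain ⟨a1, a2, N, a3, a4⟩ := ht.tors hp
  refine ⟨⟨_, N, a1, a2, a3, a4⟩, ?_⟩
  rw [ev_us ht.1, gs_four h0 ht h4, h0, ← two_ss hp, ← mul_nsmul, sub_self]

lemma tate_hodge (hp : p.Prime) {m : ℕ} (hm : 0 < m) (hmp : m.Coprime p) {x : Multiset ℚ}
    (h1 : ∀ a ∈ x, a.den ≠ 1) (h2 : ∀ a ∈ x, a.den ∣ m) (h3 : ∃ a ∈ x, a.den = m)
    (h5 : ∀ r < m, r.Coprime m → ev (fun a => bern (r * a)) x = 0) : Tate p x :=
  tate_of hp h1 (fun a ha => hmp.coprime_dvd_left (h2 a ha))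
    fun f t _ ht => sum_eq_zero fun h _ => by
      obtain ⟨b, hb, rfl⟩ := h3
      have co : (t * p ^ h).Coprime b.den := Nat.Coprime.mul_left (ht b hb) (hmp.symm.pow_left _)
      rw [← h5 _ (Nat.mod_lt (t * p ^ h) hm)
        (by rw [Nat.Coprime, ← Nat.gcd_rec, Nat.gcd_comm]; exact co)]
      refine ev_congr fun a ha => ?_
      rw [bern_mod (h2 a ha) (Nat.mod_modEq _ _)]
      simp

lemma tate_class (hp : p.Prime) {c : ℕ} (hc : p % 60 = c) {x : Multiset ℚ}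
    (h : c ^ 4 % 60 = 1 ∧ (∀ a ∈ x, a.den ≠ 1 ∧ a.den ∣ 60) ∧ 60 ∣ (x.map Rat.den).prod ∧
      ∀ r < 60, r.Coprime 60 → ∑ h ∈ range 4, ev (fun a => bern ((r * c ^ h : ℕ) * a)) x = 0) :
    Tate p x := by
  obtain ⟨h0, h1, h2, h3⟩ := h
  have e : p ≡ c [MOD 60] := hc ▸ (Nat.mod_modEq _ _).symm
  have h4 : ∀ a ∈ x, a.den ∣ p ^ 4 - 1 := fun a ha => (h1 a ha).2.trans
    ((Nat.modEq_iff_dvd' (Nat.one_le_pow _ p hp.pos)).1 ((e.pow 4).trans (show c ^ 4 ≡ 1 [MOD 60] from h0)).symm)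
  refine ⟨fun a ha => (h1 a ha).1, 4, by norm_num, h4, fun t ht => ?_⟩
  have co : t.Coprime 60 := (Nat.coprime_multiset_prod_left_iff.2 fun d hd => by
    obtain ⟨a, ha, rfl⟩ := Multiset.mem_map.1 hd
    exact (ht a ha).symm).symm.coprime_dvd_right h2
  rw [tate_sum hp (fun a ha => (h1 a ha).1) (by norm_num) h4 ht, add_eq_right,
    ← h3 _ (Nat.mod_lt t (by norm_num))
      (by rw [Nat.Coprime, ← Nat.gcd_rec, Nat.gcd_comm]; exact co)]
  refine sum_congr rfl fun h _ => ev_congr fun a ha => ?_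
  rw [bern_mod (h1 a ha).2 ((Nat.mod_modEq t 60).mul (e.pow h).symm)]
  simp

lemma count_one {n n' : ℕ} (hn : Squarefree n) (h1 : Odd n') (h2 : Squarefree n') {x : Multiset ℚ}
    {b : ℚ} (h : b.den = n ∧ ∀ a ∈ x, 2 ∣ a.den) :
    ((b ::ₘ x).countP fun a => a.den.primeFactors = n'.primeFactors) =
      if n' = n then 1 else 0 := by
  rw [Multiset.countP_cons, Multiset.countP_eq_zero.2 fun a ha => pf_ne a.den_nz (h.2 a ha) h1,
    h.1]
  simp [pf_eq hn h2]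

lemma kill (hp : p.Prime) {n : ℕ} (ho : Odd n) (hn : Squarefree n) (hnp : n.Coprime p)
    (h : (∃ v, n ∣ p ^ v + 1) ∨ n = 3 ∨ n = 5 ∨ n = 15 ∧ p % 15 ∈ ({7, 11, 13} : Set ℕ)) :
    ∃ ρ, Good p ρ ∧ ∀ n' : ℕ, Odd n' →
      Squarefree n' → (ρ.countP fun a => a.den.primeFactors = n'.primeFactors) =
        if n' = n then 1 else 0 := by
  have key : (∃ v, n ∣ p ^ v + 1) → ∃ ρ, Good p ρ ∧ ∀ n' : ℕ, Odd n' →
      Squarefree n' → (ρ.countP fun a => a.den.primeFactors = n'.primeFactors) =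
        if n' = n then 1 else 0 := by
    rintro ⟨v, hv⟩
    have hd : (1 / n : ℚ).den = n := by rw [one_div, Rat.inv_natCast_den_of_pos ho.pos]
    have lv := lv_one_div n
    refine ⟨{(1 / n : ℚ)}, ⟨⟨n, 2, ho.pos, hnp, two_pos, by simpa using lv, fun B _ g hg => ?_⟩, ?_⟩,
      fun n' h1 h' => ?_⟩
    · obtain ⟨j, hj⟩ := lv.mono hv
      rw [ev_singleton, two_nsmul, add_eq_zero_iff_eq_neg, ← hg.odd _ lv, ← hg.frob_pow lv v]
      refine hg.congr_int lv.neg j ?_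
      rw [← hj]
      push_cast
      ring
    · rw [ev_singleton, us_ss hp (hd.symm ▸ hnp) (lv.mono hv)]
    · exact count_one (x := 0) hn h1 h' ⟨hd, by simp⟩
  by_cases h2 : p = 2
  · subst h2
    exact key (h.elim id fun h => h.elim (fun e => ⟨1, by simp [e]⟩) fun h =>
      h.elim (fun e => ⟨2, by simp [e]⟩) fun e => absurd e.2 (by simp))
  have c2 : Nat.Coprime 4 p :=
    ((Nat.coprime_primes Nat.prime_two hp).2 (Ne.symm h2)).pow_left 2
  rcases h with h | rfl | rfl | ⟨rfl, h⟩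
  · exact key h
  · exact ⟨2 / 3 ::ₘ {1 / 12, 3 / 4, 1 / 2}, good_four hp rfl (tate_hodge hp (m := 12) (by norm_num)
      (Nat.Coprime.mul_left c2 hnp) (by decide +kernel) (by decide +kernel)
      ⟨1 / 12, by simp, by decide +kernel⟩ (by decide +kernel)) (by decide +kernel),
      fun n' h1 h' => count_one hn h1 h' (by decide +kernel)⟩
  · exact ⟨4 / 5 ::ₘ {1 / 20, 13 / 20, 1 / 2}, good_four hp rfl (tate_hodge hp (m := 20)
      (by norm_num) (Nat.Coprime.mul_left c2 hnp) (by decide +kernel) (by decide +kernel)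
      ⟨1 / 20, by simp, by decide +kernel⟩ (by decide +kernel)) (by decide +kernel),
      fun n' h1 h' => count_one hn h1 h' (by decide +kernel)⟩
  have po := hp.eq_two_or_odd.resolve_left h2
  simp only [Set.mem_insert_iff, Set.mem_singleton_iff] at h
  have : (p % 60 = 7 ∨ p % 60 = 43) ∨ (p % 60 = 13 ∨ p % 60 = 37) ∨ p % 60 = 11 ∨ p % 60 = 41 := by
    omega
  rcases this with h | h | h | h
  · exact ⟨8 / 15 ::ₘ {1 / 60, 1 / 30, 5 / 12}, good_four hp rfl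
      (h.elim (tate_class hp · (by decide +kernel)) (tate_class hp · (by decide +kernel)))
      (by decide +kernel), fun n' h1 h' => count_one hn h1 h' (by decide +kernel)⟩
  · exact ⟨1 / 15 ::ₘ {1 / 60, 3 / 20, 23 / 30}, good_four hp rfl
      (h.elim (tate_class hp · (by decide +kernel)) (tate_class hp · (by decide +kernel)))
      (by decide +kernel), fun n' h1 h' => count_one hn h1 h' (by decide +kernel)⟩
  · exact ⟨8 / 15 ::ₘ {1 / 30, 1 / 12, 7 / 20}, good_four hp rfl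
      (tate_class hp h (by decide +kernel)) (by decide +kernel),
      fun n' h1 h' => count_one hn h1 h' (by decide +kernel)⟩
  · exact ⟨1 / 15 ::ₘ {1 / 60, 13 / 60, 7 / 10}, good_four hp rfl
      (tate_class hp h (by decide +kernel)) (by decide +kernel),
      fun n' h1 h' => count_one hn h1 h' (by decide +kernel)⟩

theorem main (p : ℕ) (hp : p.Prime) (a : Multiset ℚ) (r : ℕ) (hr : a.card = 2 * r)
    (ha : Tate p a) (h : ∀ n : ℕ, Odd n → Squarefree n →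
      Even (a.countP fun x => x.den.primeFactors = n.primeFactors) ∨ (∃ v, n ∣ p ^ v + 1) ∨
      n = 3 ∨ n = 5 ∨ (n = 15 ∧ p % 15 ∈ ({7, 11, 13} : Set ℕ)) ∨
      ∃ χ : DirichletCharacter ℂ n, χ.IsPrimitive ∧ χ.Odd ∧ (∃ k, χ ^ 2 ^ k = 1) ∧ χ p = 1 ∧
        (χ 2 = 1 ∨ ∀ x ∈ a, ¬4 ∣ x.den) ∧
        ∀ x ∈ a, ∀ l : ℕ, l.Prime → l ∣ x.den → ¬l ∣ 2 * n → χ l = 1) :
    (a.map sym).sum - r • Lef ∈ Std p := by
  classical
  obtain ⟨a1, a2, N, a3, a4⟩ := ha.tors hp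
  set c : ℕ → ℕ := fun n => a.countP fun x => x.den.primeFactors = n.primeFactors with hc
  have dv : ∀ n, Squarefree n → ¬Even (c n) → n ∣ (a.map Rat.den).prod := by
    intro n hn he
    obtain ⟨x, hx, e⟩ := Multiset.countP_pos.1 (Nat.not_even_iff_odd.1 he).pos
    rw [← Nat.prod_primeFactors_of_squarefree hn, ← e]
    exact (Nat.prod_primeFactors_dvd _).trans (Multiset.dvd_prod (Multiset.mem_map_of_mem _ hx))
  have ex : ∀ n, Odd n ∧ Squarefree n ∧ ¬Even (c n) → ∃ ρ, Good p ρ ∧ ∀ n' : ℕ, Odd n' →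
      Squarefree n' → (ρ.countP fun a => a.den.primeFactors = n'.primeFactors) =
        if n' = n then 1 else 0 := by
    rintro n ⟨h1, h2, h3⟩
    refine kill hp h1 h2 (a2.coprime_dvd_left (dv n h2 h3)) ?_
    rcases h n h1 h2 with h | h | h | h | h | ⟨χ, b1, b2, ⟨k, b3⟩, b4, b5, b6⟩
    · exact absurd h h3
    · exact Or.inl h
    · exact Or.inr (Or.inl h)
    · exact Or.inr (Or.inr (Or.inl h))
    · exact Or.inr (Or.inr (Or.inr h))
    have b7 : ∀ x ∈ a, ∀ l : ℕ, l.Prime → l ∣ x.den → ¬l ∣ n → l ≠ 2 → χ l = 1 :=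
      fun x hx l hl c1 c2 c3 => b6 x hx l hl c1 fun c4 => (hl.dvd_mul.1 c4).elim
        (fun c5 => c3 ((Nat.prime_dvd_prime_iff_eq hl Nat.prime_two).1 c5)) c2
    rcases b5 with b5 | b5
    · refine absurd (char_even a1 a2 a3 a4 h2 h1 b1 b2 b3 b4 fun l hl hd hln => ?_) h3
      obtain ⟨d, hd, h⟩ := hl.prime.exists_mem_multiset_dvd hd
      obtain ⟨x, hx, rfl⟩ := Multiset.mem_map.1 hd
      by_cases c : l = 2
      · rw [c]
        exact_mod_cast b5
      · exact b7 x hx l hl h hln c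
    · exact absurd (char_even' hp ha b5 h2 h1 b1 b2 b3 b4 b7) h3
  choose! ρ hρ using ex
  set O := (a.map Rat.den).prod.divisors.filter fun n => Odd n ∧ Squarefree n ∧ ¬Even (c n)
    with hO
  have g : Good p (∑ n ∈ O, ρ n) := sum_induction _ _
    (fun x y hx hy => ⟨tors_add hx.1 hy.1, by rw [ev_add, hx.2, hy.2, add_zero]⟩)
    ⟨⟨1, 1, one_pos, by simp, one_pos, by simp, fun B _ g _ => by simp⟩, by simp⟩
    fun n hn => (hρ n (mem_filter.1 hn).2).1
  obtain ⟨m, M, b1, b2, b3, b4⟩ := tors_add ⟨_, N, a1, a2, a3, a4⟩ g.1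
  have v := vanish hp (gd_us hp) b1 b2 b3 b4 fun n h1 h2 => by
    have e := map_sum (Multiset.countPAddMonoidHom
      fun x : ℚ => x.den.primeFactors = n.primeFactors) ρ O
    simp only [Multiset.coe_countPAddMonoidHom] at e
    rw [Multiset.countP_add, e, sum_congr rfl fun n' hn => (hρ n' (mem_filter.1 hn).2).2 n h1 h2,
      sum_ite_eq]
    split_ifs with hn
    · exact (Nat.not_even_iff_odd.1 (mem_filter.1 hn).2.2.2).add_one
    · by_contra he
      exact hn (mem_filter.2 ⟨Nat.mem_divisors.2 ⟨dv n h2 he, a1.ne'⟩, h1, h2, he⟩)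
  rw [ev_add, g.2, add_zero, ev_us ha.1, hr, mul_nsmul, two_ss hp] at v
  rw [← QuotientAddGroup.eq_zero_iff, ← v]
  exact (map_sub (QuotientAddGroup.mk' (Std p)) _ _).trans
    (congrArg₂ _ (map_ev (g := sym) _ a) (map_nsmul _ _ _))

end Pool.Agent.Lib.MP_40dc3c_ag.Fe
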