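import Pool.Agent.Lib.MP_40dc3c_ag.Fe.GIff
import Pool.Agent.Lib.MP_40dc3c_ag.Fe.Main

/-! The theorem on Tate tuples with the Gauss sum form of the Tate condition. -/

namespace Pool.Agent.Lib.MP_40dc3c_ag.Fe

theorem gstd_eq {p : ℕ} (hp : p.Prime) : GStd p = Std p := by
  simp only [GStd, Std, gtate_iff hp]

theorem gmain (p : ℕ) (hp : p.Prime) (a : Multiset ℚ) (r : ℕ) (hr : a.card = 2 * r)
    (ha : GTate p a) (h : ∀ n : ℕ, Odd n → Squarefree n →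
      Even (a.countP fun x => x.den.primeFactors = n.primeFactors) ∨ (∃ v, n ∣ p ^ v + 1) ∨
      n = 3 ∨ n = 5 ∨ (n = 15 ∧ p % 15 ∈ ({7, 11, 13} : Set ℕ)) ∨
      ∃ χ : DirichletCharacter ℂ n, χ.IsPrimitive ∧ χ.Odd ∧ (∃ k, χ ^ 2 ^ k = 1) ∧ χ p = 1 ∧
        (χ 2 = 1 ∨ ∀ x ∈ a, ¬4 ∣ x.den) ∧
        ∀ x ∈ a, ∀ l : ℕ, l.Prime → l ∣ x.den → ¬l ∣ 2 * n → χ l = 1) :
    (a.map sym).sum - r • Lef ∈ GStd p := by
  rw [gstd_eq hp]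
  exact main p hp a r hr ((gtate_iff hp a).1 ha) h

end Pool.Agent.Lib.MP_40dc3c_ag.Fe
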