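import Pool.Agent.Lib.MP_40dc3c_ag.Fe.Sym
import Pool.Agent.Lib.MP_40dc3c_ag.Fe.Char

/-! Denominators that are twice an odd number can be made odd. -/

namespace Pool.Agent.Lib.MP_40dc3c_ag.Fe

open Finset

variable {p : ℕ}

lemma den_mul_eq {s : ℕ} {a : ℚ} (hs : s.Coprime a.den) : ((s : ℚ) * a).den = a.den :=
  Nat.dvd_antisymm (lv_iff.1 ((lv_iff.2 dvd_rfl).nmul s))
    (lv_iff.1 (lv_of_mul (lv_iff.2 dvd_rfl) hs (lv_iff.2 dvd_rfl)))

lemma half_odd {a : ℚ} (h2 : 2 ∣ a.den) (h4 : ¬4 ∣ a.den) : ¬2 ∣ (a + 1 / 2).den := by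
  obtain ⟨d, hd⟩ := id h2
  have od : Odd d := Nat.not_even_iff_odd.1 fun ⟨e, he⟩ => h4 ⟨e, by omega⟩
  have on : Odd a.num := Int.not_even_iff_odd.1 fun h => by
    have := Nat.eq_one_of_dvd_coprimes a.reduced (Int.natAbs_even.2 h).two_dvd h2
    omega
  obtain ⟨j, hj⟩ := on.add_odd (Int.odd_coe_nat d |>.2 od)
  have : Lv d (a + 1 / 2) := ⟨j, by
    have e := Rat.den_mul_eq_num a
    have e2 : (a.num : ℚ) + d = j + j := by exact_mod_cast hj
    rw [hd] at e
    push_cast at e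
    linarith⟩
  exact fun h => od.not_two_dvd_nat (h.trans (lv_iff.1 this))

/-- the replacement of an element of even order. -/
def hf (a : ℚ) : Multiset ℚ := if 2 ∣ a.den then {2 * a, -(a + 1 / 2)} else {a}

lemma hf_den {a : ℚ} (h2 : 2 ∣ a.den) (h4 : ¬4 ∣ a.den) : (2 * a).den = (a + 1 / 2).den := by
  have := den_mul_eq (s := 2) (a := a + 1 / 2)
    (Nat.prime_two.coprime_iff_not_dvd.2 (half_odd h2 h4))
  rw [← this, ← Rat.add_intCast_den (2 * a) 1]
  congr 1
  push_cast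
  ring

lemma hf_mem {a b : ℚ} (h4 : ¬4 ∣ a.den) (hb : b ∈ hf a) : ¬2 ∣ b.den ∧ b.den ∣ a.den := by
  unfold hf at hb
  split_ifs at hb with h2
  · have : b.den = (a + 1 / 2).den := by
      rcases Multiset.mem_cons.1 hb with rfl | hb
      · exact hf_den h2 h4
      · rw [Multiset.mem_singleton.1 hb, Rat.neg_den]
    rw [this]
    exact ⟨half_odd h2 h4, lv_iff.1 ((lv_iff.2 dvd_rfl).add (by simpa using lv_ndiv h2 1))⟩
  · rw [Multiset.mem_singleton.1 hb]
    exact ⟨h2, dvd_rfl⟩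

lemma pf_ne {d n : ℕ} (h0 : d ≠ 0) (h : 2 ∣ d) (hn : Odd n) : d.primeFactors ≠ n.primeFactors :=
  fun e => hn.not_two_dvd_nat
    (Nat.dvd_of_mem_primeFactors (e ▸ Nat.mem_primeFactors.2 ⟨Nat.prime_two, h, h0⟩))

lemma hf_count {n : ℕ} (hn : Odd n) {x : Multiset ℚ} (h4 : ∀ a ∈ x, ¬4 ∣ a.den) :
    ∃ j, ((x.bind hf).countP fun a => a.den.primeFactors = n.primeFactors) =
      (x.countP fun a => a.den.primeFactors = n.primeFactors) + 2 * j := by
  induction x using Multiset.induction_on with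
  | empty => exact ⟨0, by simp⟩
  | cons a x ih =>
    obtain ⟨j, hj⟩ := ih fun b hb => h4 b (Multiset.mem_cons_of_mem hb)
    rw [Multiset.cons_bind, Multiset.countP_add, hj, Multiset.countP_cons, hf]
    by_cases h2 : 2 ∣ a.den
    · rw [if_pos h2, if_neg (pf_ne a.den_nz h2 hn), Multiset.insert_eq_cons,
        ← Multiset.cons_zero, Multiset.countP_cons, Multiset.countP_cons,
        hf_den h2 (h4 a (Multiset.mem_cons_self _ _)), Rat.neg_den, Multiset.countP_zero]
      exact ⟨j + if (a + 1 / 2).den.primeFactors = n.primeFactors then 1 else 0, by ring⟩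
    · rw [if_neg h2, ← Multiset.cons_zero, Multiset.countP_cons, Multiset.countP_zero]
      exact ⟨j, by ring⟩

theorem char_even' (hp : p.Prime) {x : Multiset ℚ} (hx : Tate p x) (h4 : ∀ a ∈ x, ¬4 ∣ a.den)
    {n k : ℕ} {χ : DirichletCharacter ℂ n} (hn : Squarefree n) (hn' : Odd n) (hχ : χ.IsPrimitive)
    (ho : χ.Odd) (hk : χ ^ 2 ^ k = 1) (h0 : χ p = 1)
    (h1 : ∀ a ∈ x, ∀ l : ℕ, l.Prime → l ∣ a.den → ¬l ∣ n → l ≠ 2 → χ l = 1) :
    Even (x.countP fun a => a.den.primeFactors = n.primeFactors) := by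
  have mb : ∀ b ∈ x.bind hf, ∃ a ∈ x, ¬2 ∣ b.den ∧ b.den ∣ a.den := fun b hb => by
    obtain ⟨a, ha, hb⟩ := Multiset.mem_bind.1 hb
    exact ⟨a, ha, hf_mem (h4 a ha) hb⟩
  set m := ((x.bind hf).map Rat.den).prod with hm
  have pr : ∀ l : ℕ, l.Prime → l ∣ m → l ≠ 2 ∧ ∃ a ∈ x, l ∣ a.den := fun l hl h => by
    obtain ⟨d, hd, h⟩ := hl.prime.exists_mem_multiset_dvd h
    obtain ⟨b, hb, rfl⟩ := Multiset.mem_map.1 hd
    obtain ⟨a, ha, b1, b2⟩ := mb b hb
    exact ⟨fun e => b1 (e ▸ h), a, ha, h.trans b2⟩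
  have m0 : 0 < m := Multiset.prod_pos fun d hd => by
    obtain ⟨a, -, rfl⟩ := Multiset.mem_map.1 hd
    exact a.den_pos
  have mp : m.Coprime p := (hp.coprime_iff_not_dvd.2 fun h => by
    obtain ⟨-, a, ha, h⟩ := pr p hp h
    exact hp.coprime_iff_not_dvd.1 (hx.cop hp a ha).symm h).symm
  have mo : Odd m := Nat.odd_iff.2 (Nat.two_dvd_ne_zero.1 fun h => (pr 2 Nat.prime_two h).1 rfl)
  have lv : ∀ b ∈ x.bind hf, Lv m b :=
    fun b hb => lv_iff.2 (Multiset.dvd_prod (Multiset.mem_map_of_mem _ hb))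
  have : NeZero m := ⟨m0.ne'⟩
  have cop := hx.cop hp
  obtain ⟨a1, f, f0, a2, a3⟩ := hx
  obtain ⟨N, N0, hN⟩ := kubert mp lv ⟨f, f0, fun t ht => by
    obtain ⟨s, c, hs, so⟩ : ∃ s c : ℕ, s = t + c * m ∧ Odd s := by
      rcases Nat.even_or_odd t with h | h
      · exact ⟨_, 1, rfl, h.add_odd (by simpa using mo)⟩
      · exact ⟨_, 0, rfl, by simpa using h⟩
    have sc : s.Coprime (2 * m) := Nat.Coprime.mul_right so.coprime_two_right (by simpa [hs])
    have h5 : ∀ a ∈ x, s.Coprime a.den := fun a ha => sc.coprime_dvd_right (lv_iff.1 (by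
      by_cases h2 : 2 ∣ a.den
      · have := ((lv _ (Multiset.mem_bind.2 ⟨a, ha, show -(a + 1 / 2) ∈ hf a by
          simp [hf, h2]⟩)).mono (dvd_mul_left m 2)).neg.add
          (lv_ndiv (dvd_mul_right 2 m) 1).neg
        simpa using this
      · exact (lv _ (Multiset.mem_bind.2 ⟨a, ha, by simp [hf, h2]⟩)).mono (dvd_mul_left m 2)))
    have h6 := a3 s h5
    rw [tate_sum hp a1 f0 a2 h5, add_eq_right] at h6
    rw [← h6]
    refine sum_congr rfl fun h _ => ?_
    rw [ev_congr (g' := fun b => bern (s * p ^ h * b)) fun b hb => ?_]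
    · simp only [ev, Multiset.map_bind, Multiset.sum_bind]
      refine congrArg _ (Multiset.map_congr rfl fun a ha => ?_)
      unfold hf
      split_ifs with h2
      · have po : Odd p := ((cop a ha).coprime_dvd_left h2).symm.odd_of_right
        obtain ⟨j, hj⟩ := so.mul (po.pow (n := h))
        have e := bern_dist (l := 2) two_pos (s * p ^ h * a)
        have e1 : (s : ℚ) * p ^ h = 2 * j + 1 := by exact_mod_cast hj
        have e2 : bern (s * p ^ h * (a + 1 / 2)) = bern (s * p ^ h * a + 1 / 2) := by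
          rw [← bern_per (s * p ^ h * a + 1 / 2) j]
          congr 1
          push_cast
          linear_combination e1 / 2
        simp only [sum_range_succ, sum_range_zero, Nat.cast_zero, zero_div, add_zero, zero_add,
          Nat.cast_one, Nat.cast_ofNat] at e
        simp only [Multiset.insert_eq_cons, Multiset.map_cons, Multiset.map_singleton,
          Multiset.sum_cons, Multiset.sum_singleton, mul_neg, bern_neg, e2]
        rw [mul_left_comm, ← e]
        ring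
      · simp
    · obtain ⟨j, hj⟩ := lv b hb
      rw [← bern_per (t * p ^ h * b) (c * p ^ h * j), hs]
      congr 1
      push_cast
      rw [← hj]
      ring⟩
  have h7 := char_even m0 mp N0 hN hn hn' hχ ho hk h0 fun l hl h hln => by
    obtain ⟨b1, a, ha, b2⟩ := pr l hl h
    exact h1 a ha l hl b2 hln b1
  obtain ⟨j, hj⟩ := hf_count hn' h4
  rw [hj] at h7
  exact (Nat.even_add.1 h7).2 (even_two_mul j)

end Pool.Agent.Lib.MP_40dc3c_ag.Fe
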