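import Pool.Agent.Lib.MP_40dc3c_ag.Fe.Four
import Pool.Agent.Lib.MP_40dc3c_ag.Fe.Cot

/-! The first Bernoulli distribution is universal over the complex numbers. -/

namespace Pool.Agent.Lib.MP_40dc3c_ag.Fe

open Finset ZMod Complex

/-- the first Bernoulli function. -/
def bern (a : ℚ) : ℚ := if Int.fract a = 0 then 0 else Int.fract a - 1 / 2

lemma bern_per (a : ℚ) (n : ℤ) : bern (a + n) = bern a := by simp [bern]

lemma bern_neg (a : ℚ) : bern (-a) = -bern a := by
  unfold bern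
  by_cases h : Int.fract a = 0
  · rw [if_pos h, if_pos (Int.fract_neg_eq_zero.2 h), neg_zero]
  · rw [if_neg h, if_neg (mt Int.fract_neg_eq_zero.1 h), Int.fract_neg h]
    ring

lemma bern_dist {l : ℕ} (hl : 0 < l) (a : ℚ) : ∑ k ∈ range l, bern (a + k / l) = bern (l * a) := by
  have h0 : (0 : ℚ) < l := by exact_mod_cast hl
  set r := Int.fract ((l : ℚ) * a) with hr
  have r0 : 0 ≤ r := Int.fract_nonneg _
  have r1 : r < 1 := Int.fract_lt_one _
  have key := sum_reindex hl (fun k : ℤ => bern ((r + k) / l)) (fun x y hxy => by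
    obtain ⟨c, hc⟩ := hxy
    have : (x : ℚ) = y + l * c := by
      have : (x : ℚ) - y = l * c := by exact_mod_cast hc
      linarith
    rw [← bern_per ((r + y) / l) c, this]
    congr 1
    field_simp
    ring) (isCoprime_one_left) ⌊(l : ℚ) * a⌋
  have e1 : ∀ k ∈ range l, bern (a + k / l) =
      bern ((r + ((1 * (k : ℤ) + ⌊(l : ℚ) * a⌋ : ℤ) : ℚ)) / l) := by
    intro k _
    congr 1
    rw [hr, Int.fract]
    push_cast
    field_simp
    ring
  rw [sum_congr rfl e1, key]
  have e2 : ∀ k ∈ range l, bern ((r + ((k : ℤ) : ℚ)) / l) =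
      (r + k) / l - 1 / 2 + if k = 0 then (if r = 0 then 1 / 2 else 0) else 0 := by
    intro k hk
    have k1 : (k : ℚ) + 1 ≤ l := by exact_mod_cast mem_range.1 hk
    have k0 : (0 : ℚ) ≤ k := k.cast_nonneg
    have : Int.fract ((r + k) / l) = (r + k) / l :=
      Int.fract_eq_self.2 ⟨by positivity, by rw [div_lt_one h0]; linarith⟩
    rw [Int.cast_natCast, bern, this]
    by_cases hk0 : k = 0
    · by_cases hr0 : r = 0
      · simp [hk0, hr0]
      · simp [hk0, hr0, h0.ne']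
    · have : (0 : ℚ) < k := by positivity
      rw [if_neg (by positivity), if_neg hk0, add_zero]
  rw [sum_congr rfl e2, sum_add_distrib, sum_ite_eq' (range l) 0, if_pos (mem_range.2 hl),
    sum_sub_distrib, ← sum_div, sum_add_distrib]
  have e3 : ∀ l : ℕ, ∑ k ∈ range l, (k : ℚ) = l * (l - 1) / 2 := by
    intro l
    induction l with
    | zero => simp
    | succ l ih => rw [sum_range_succ, ih]; push_cast; ring
  rw [e3, bern, ← hr]
  simp only [sum_const, card_range, nsmul_eq_mul]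
  split_ifs with h
  · rw [h]; field_simp; ring
  · field_simp; ring

lemma dist_bern (m : ℕ) : Dist 1 m fun a => (bern a : ℂ) :=
  ⟨fun a _ n => by rw [bern_per], fun a _ => by rw [bern_neg]; push_cast; ring,
    fun a _ => by simp, fun l hl _ a _ => by rw [← bern_dist hl.pos]; push_cast; rfl⟩

variable {m : ℕ} [NeZero m]

/-- the Bernoulli distribution on residues. -/
noncomputable def bz (x : ZMod m) : ℂ := (bern (rat x) : ℂ)

lemma zd_bz : ZD (bz (m := m)) := (dist_bern m).toZ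

lemma dft_bz {s : ZMod m} (hs : s ≠ 0) :
    𝓕 bz s = I / 2 * Complex.cot (Real.pi * ((s.val : ℝ) / m : ℝ)) := by
  have hm : 0 < m := Nat.pos_of_ne_zero (NeZero.ne m)
  have hm' : (m : ℂ) ≠ 0 := by exact_mod_cast hm.ne'
  set w : ℂ := stdAddChar (-s) with hw
  have w1 : w ≠ 1 := fun e => hs (neg_eq_zero.1
    (injective_stdAddChar (N := m) (e.trans (AddChar.map_zero_eq_one _).symm)))
  have wm : w ^ m = 1 := by
    rw [hw, ← AddChar.map_nsmul_eq_pow, nsmul_eq_mul, ZMod.natCast_self, zero_mul,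
      AddChar.map_zero_eq_one]
  have e0 := sum_fiber (m := m) (l := m) (c := 1) (mul_one m).symm
    (fun j => stdAddChar (-(j * s)) * bz j) 0
  rw [filter_true_of_mem fun y _ => by simp] at e0
  have e1 : ∀ k ∈ range m, stdAddChar (-((0 + (k : ZMod m) * ((1 : ℕ) : ZMod m)) * s)) *
      bz (0 + (k : ZMod m) * ((1 : ℕ) : ZMod m)) =
      (k * w ^ k) / m - w ^ k / 2 + if k = 0 then 1 / 2 else 0 := by
    intro k hk
    have k1 := mem_range.1 hk
    have hq : (0 : ℚ) < m := by exact_mod_cast hm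
    have : Int.fract ((k : ℚ) / m) = k / m :=
      Int.fract_eq_self.2 ⟨by positivity, by rw [div_lt_one hq]; exact_mod_cast k1⟩
    rw [Nat.cast_one, mul_one, zero_add, bz, rat, ZMod.val_natCast_of_lt k1, bern, this,
      ← mul_neg, ← nsmul_eq_mul, AddChar.map_nsmul_eq_pow, ← hw]
    by_cases hk0 : k = 0
    · simp [hk0]
    · have : (0 : ℚ) < k := by positivity
      rw [if_neg (by positivity), if_neg hk0]
      push_cast
      ring
  have e2 : ∑ k ∈ range m, w ^ k = 0 := by rw [geom_sum_eq w1, wm]; simp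
  have e3 : ∀ n : ℕ, (w - 1) * ∑ k ∈ range n, (k : ℂ) * w ^ k =
      n * w ^ n - w * ∑ k ∈ range n, w ^ k := by
    intro n
    induction n with
    | zero => simp
    | succ n ih => rw [sum_range_succ, sum_range_succ, mul_add, ih]; push_cast; ring
  have e4 := e3 m
  rw [wm, e2] at e4
  have w2 : w - 1 ≠ 0 := sub_ne_zero.2 w1
  have e5 : ∑ k ∈ range m, (k : ℂ) * w ^ k = m / (w - 1) := by
    rw [eq_div_iff w2]; linear_combination e4
  simp only [dft_apply, smul_eq_mul]
  rw [e0, sum_congr rfl e1, sum_add_distrib, sum_ite_eq' (range m) 0, if_pos (mem_range.2 hm),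
    sum_sub_distrib, ← sum_div, ← sum_div, e2, e5, Complex.cot_pi_eq_exp_ratio]
  have e6 : Complex.exp (2 * Real.pi * I * ((s.val : ℝ) / m : ℝ)) = w⁻¹ := by
    rw [hw, AddChar.map_neg_eq_inv, inv_inv, stdAddChar_apply, toCircle_apply]
    push_cast
    ring_nf
  have w0 : w ≠ 0 := by rintro h; rw [h, zero_pow hm.ne'] at wm; exact zero_ne_one wm
  rw [e6]
  field_simp
  ring

/-- projection to an eigenspace. -/
noncomputable def pr (χ : DirichletCharacter ℂ m) (G : ZMod m → ℂ) (x : ZMod m) : ℂ :=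
  ∑ t : (ZMod m)ˣ, χ t * G (t * x)

lemma ZD.pr {G : ZMod m → ℂ} (h : ZD G) (χ : DirichletCharacter ℂ m) : ZD (pr χ G) := by
  refine ⟨fun x => ?_, fun l hl hlm x => ?_⟩
  · simp only [Fe.pr, mul_neg, h.odd, sum_neg_distrib]
  · simp only [Fe.pr]
    rw [sum_comm]
    refine sum_congr rfl fun t _ => ?_
    rw [← mul_sum, (h.unit t.isUnit).dist l hl hlm x]

lemma pr_unit (χ : DirichletCharacter ℂ m) (G : ZMod m → ℂ) (u : (ZMod m)ˣ) (x : ZMod m) :
    χ u * pr χ G (u * x) = pr χ G x := by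
  simp only [pr, mul_sum]
  refine Fintype.sum_equiv (Equiv.mulRight u) _ _ fun t => ?_
  simp only [Equiv.coe_mulRight, Units.val_mul, map_mul]
  rw [mul_assoc (t : ZMod m)]
  ring

lemma sum_pr (G : ZMod m → ℂ) (x : ZMod m) :
    ∑ χ : DirichletCharacter ℂ m, pr χ G x = m.totient * G x := by
  simp only [pr]
  rw [sum_comm]
  simp only [← sum_mul, DirichletCharacter.sum_characters_eq, Units.val_eq_one]
  rw [sum_eq_single 1 (fun t _ ht => by simp [ht]) (by simp)]
  simp

lemma dft_pr (χ : DirichletCharacter ℂ m) (G : ZMod m → ℂ) (u : (ZMod m)ˣ) :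
    𝓕 (pr χ G) u = χ u * 𝓕 (pr χ G) 1 := by
  have := dft_comp_unitMul (pr χ G) u u
  rw [Units.inv_mul] at this
  have h := congr_fun (dft_const_mul (χ u) fun j => pr χ G ((u : ZMod m) * j)) u
  simp only [pr_unit] at h
  rw [← this]
  exact h

lemma dft_pr_bz {χ : DirichletCharacter ℂ m} (hχ : χ.Odd) : 𝓕 (pr χ bz) 1 ≠ 0 := by
  have hχ' : (χ⁻¹).Odd := by
    rw [DirichletCharacter.Odd, MulChar.inv_apply_eq_inv', hχ]
    norm_num
  have e1 : 𝓕 (pr χ bz) 1 = ∑ t : (ZMod m)ˣ, χ t * 𝓕 bz ((t⁻¹ : (ZMod m)ˣ) : ZMod m) := by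
    have : pr χ bz = ∑ t : (ZMod m)ˣ, fun x : ZMod m => χ t * bz ((t : ZMod m) * x) := by
      ext x
      simp [pr]
    rw [this, map_sum, Finset.sum_apply]
    refine sum_congr rfl fun t _ => ?_
    rw [dft_const_mul]
    simp only [dft_comp_unitMul, mul_one]
  have h1 : (1 : ZMod m) ≠ 0 := by
    intro e
    have := hχ.eval_neg χ 1
    rw [show (-1 : ZMod m) = 1 by rw [e, neg_zero], map_one] at this
    norm_num at this
  have e2 : ∑ t : (ZMod m)ˣ, χ t * 𝓕 bz ((t⁻¹ : (ZMod m)ˣ) : ZMod m) = I / 2 *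
      ∑ t : (ZMod m)ˣ, χ⁻¹ t * Complex.cot (Real.pi * (((t : ZMod m).val : ℝ) / m : ℝ)) := by
    rw [mul_sum]
    refine Fintype.sum_equiv (Equiv.inv _) _ _ fun t => ?_
    have : ((t⁻¹ : (ZMod m)ˣ) : ZMod m) ≠ 0 := fun e => h1 (by rw [← t.mul_inv, e, mul_zero])
    rw [dft_bz this, Equiv.inv_apply, MulChar.inv_apply_eq_inv', ← MulChar.coe_toUnitHom,
      ← MulChar.coe_toUnitHom, map_inv, Units.val_inv_eq_inv_val, inv_inv]
    ring
  have e3 : ∑ t : (ZMod m)ˣ, χ⁻¹ t * Complex.cot (Real.pi * (((t : ZMod m).val : ℝ) / m : ℝ)) =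
      ∑ s : ZMod m, χ⁻¹ s * Complex.cot (Real.pi * ((s.val : ℝ) / m : ℝ)) := by
    refine sum_bij_ne_zero (fun t _ _ => (t : ZMod m)) (fun _ _ _ => mem_univ _)
      (fun _ _ _ _ _ _ h => Units.ext h) (fun s _ hs => ?_) fun _ _ _ => rfl
    have : IsUnit s := by
      by_contra hn
      exact hs (by rw [MulChar.map_nonunit _ hn, zero_mul])
    exact ⟨this.unit, mem_univ _, hs, rfl⟩
  rw [e1, e2, e3]
  exact mul_ne_zero (by simp) (cot_ne _ hχ')

lemma pr_prop {G : ZMod m → ℂ} (h : ZD G) {χ : DirichletCharacter ℂ m} (hχ : χ.Odd) (x : ZMod m) :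
    𝓕 (pr χ bz) 1 * pr χ G x = 𝓕 (pr χ G) 1 * pr χ bz x := by
  have h1 := h.pr χ
  have h2 := (zd_bz (m := m)).pr χ
  have : (fun x => 𝓕 (pr χ bz) 1 * pr χ G x - 𝓕 (pr χ G) 1 * pr χ bz x) = 0 := by
    refine dft_zero ⟨fun x => by rw [h1.odd, h2.odd]; ring, fun l hl hlm x => ?_⟩ fun k hk => ?_
    · rw [sum_sub_distrib, ← mul_sum, ← mul_sum, h1.dist l hl hlm, h2.dist l hl hlm]
    · obtain ⟨u, rfl⟩ := hk
      have : (fun x => 𝓕 (pr χ bz) 1 * pr χ G x - 𝓕 (pr χ G) 1 * pr χ bz x) =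
          𝓕 (pr χ bz) 1 • pr χ G - 𝓕 (pr χ G) 1 • pr χ bz := rfl
      rw [this, map_sub, _root_.map_smul, _root_.map_smul]
      simp only [Pi.sub_apply, Pi.smul_apply, smul_eq_mul]
      rw [dft_pr χ G, dft_pr χ bz]
      ring
  exact sub_eq_zero.1 (congr_fun this x)

lemma ev_mul (c : ℂ) (g : ℚ → ℂ) (x : Multiset ℚ) : ev (fun a => c * g a) x = c * ev g x := by
  simp [ev, Multiset.sum_map_mul_left]

lemma ev_sum {ι B : Type} [AddCommGroup B] (s : Finset ι) (g : ι → ℚ → B) (x : Multiset ℚ) :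
    ev (fun a => ∑ i ∈ s, g i a) x = ∑ i ∈ s, ev (g i) x := by
  induction x using Multiset.induction_on with
  | empty => simp
  | cons a x ih => simp [ih, sum_add_distrib]

/-- the Stickelberger condition at level `m`. -/
def Stick (p m : ℕ) (x : Multiset ℚ) : Prop := ∃ f, 0 < f ∧ ∀ t : ℕ, t.Coprime m →
  ∑ h ∈ range f, ev (fun a => bern (t * p ^ h * a)) x = 0

lemma ev_pr_bz {p : ℕ} (hp : m.Coprime p) {x : Multiset ℚ} (hx : ∀ a ∈ x, Lv m a)
    (hS : Stick p m x) {χ : DirichletCharacter ℂ m} (hχ : χ p = 1) :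
    ev (fun a => pr χ bz (cls m a)) x = 0 := by
  obtain ⟨f, hf, hS⟩ := hS
  have hu : ∀ h : ℕ, ∀ y : ZMod m, pr χ bz (p ^ h * y) = pr χ bz y := by
    intro h y
    have := pr_unit χ bz (ZMod.unitOfCoprime p hp.symm ^ h) y
    rwa [Units.val_pow_eq_pow_val, ZMod.coe_unitOfCoprime, map_pow, hχ, one_pow, one_mul] at this
  have e1 : (f : ℂ) * ev (fun a => pr χ bz (cls m a)) x =
      ∑ h ∈ range f, ev (fun a => pr χ bz (p ^ h * cls m a)) x := by
    simp only [hu, sum_const, card_range, nsmul_eq_mul]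
  have e2 : ∑ h ∈ range f, ev (fun a => pr χ bz (p ^ h * cls m a)) x = 0 := by
    simp only [pr, ev_sum, ev_mul]
    rw [sum_comm]
    refine sum_eq_zero fun t _ => ?_
    rw [← mul_sum]
    refine mul_eq_zero_of_right _ ?_
    have h1 := congrArg (Rat.castHom ℂ) (hS _ (ZMod.val_coe_unit_coprime t))
    rw [map_sum, map_zero] at h1
    rw [← h1]
    refine sum_congr rfl fun h _ => ?_
    have := map_ev (g := fun a => bern (((t : ZMod m).val : ℕ) * p ^ h * a))
      (Rat.castHom ℂ).toAddMonoidHom x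
    refine (ev_congr fun a ha => ?_).trans this.symm
    have h2 := (hx a ha).nmul ((t : ZMod m).val * p ^ h)
    have h3 := (dist_bern m).rat_cls h2
    rw [cls_nmul (hx a ha)] at h3
    push_cast at h3
    rw [ZMod.natCast_zmod_val, mul_assoc] at h3
    exact h3
  have hf' : (f : ℂ) ≠ 0 := by exact_mod_cast hf.ne'
  exact (mul_eq_zero.1 (e1.trans e2)).resolve_left hf'

theorem kubert {p : ℕ} (hp : m.Coprime p) {x : Multiset ℚ} (hx : ∀ a ∈ x, Lv m a)
    (hS : Stick p m x) : ∃ N, 0 < N ∧ Tors p m N x := by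
  refine tors_of_complex hx fun g hg => ?_
  set G : ZMod m → ℂ := fun y => g (rat y) with hG
  have key : ∀ χ : DirichletCharacter ℂ m, ev (fun a => pr χ G (cls m a)) x = 0 := by
    intro χ
    by_cases h1 : χ p = 1
    · rcases χ.even_or_odd with h2 | h2
      · have : ∀ y, pr χ G y = 0 := by
          intro y
          have a1 := pr_unit χ G (-1) y
          rw [Units.val_neg, Units.val_one, h2, one_mul, neg_one_mul, (hg.toZ.pr χ).odd] at a1
          linear_combination (-1 / 2 : ℂ) * a1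
        simp [this, ev]
      · refine (mul_eq_zero.1 ?_).resolve_left (dft_pr_bz h2)
        rw [← ev_mul]
        rw [ev_congr fun a _ => pr_prop hg.toZ h2 (cls m a), ev_mul,
          ev_pr_bz hp hx hS h1, mul_zero]
    · have : ∀ y, pr χ G y = 0 := by
        intro y
        have a1 := pr_unit χ G (ZMod.unitOfCoprime p hp.symm) y
        have a2 : pr χ G (p * y) = pr χ G y := by
          refine sum_congr rfl fun t _ => ?_
          rw [mul_left_comm]
          exact congrArg _ (hg.toZ_frob _)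
        rw [ZMod.coe_unitOfCoprime, a2] at a1
        refine (mul_eq_zero.1 ?_).resolve_left (sub_ne_zero.2 h1)
        linear_combination a1
      simp [this, ev]
  have e1 := sum_eq_zero (s := univ) fun χ _ => key χ
  rw [← ev_sum] at e1
  simp only [sum_pr] at e1
  rw [ev_mul] at e1
  have h0 : (m.totient : ℂ) ≠ 0 := by
    exact_mod_cast (Nat.totient_pos.2 (Nat.pos_of_ne_zero (NeZero.ne m))).ne'
  rw [← (mul_eq_zero.1 e1).resolve_left h0]
  exact ev_congr fun a ha => (hg.rat_cls (hx a ha)).symm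

end Pool.Agent.Lib.MP_40dc3c_ag.Fe
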