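import Mathlib

/-! The splitting field of `(X ^ N - 1) (X ^ n - p)`: its degree and its split primes. -/

namespace Pool.Agent.Lib.MP_40dc3c_ag.Fe

open Finset NumberField Polynomial

lemma inj_root {O E : Type} [CommRing O] [IsDomain O] [Field E] (π : O →+* E) {x y : O} {k : ℕ}
    (h : x ^ k = y ^ k) (e : π x = π y) (hk : (k : E) ≠ 0) (hy : π y ≠ 0) : x = y := by
  by_contra ne
  have h1 := (Commute.all x y).geom_sum₂_mul k
  rw [h, sub_self, mul_eq_zero, sub_eq_zero] at h1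
  have h2 := congrArg π (h1.resolve_right ne)
  simp only [map_sum, map_mul, map_pow, e, geom_sum₂_self, map_zero] at h2
  exact mul_ne_zero hk (pow_ne_zero _ hy) h2

lemma irr_pow {n p : ℕ} (hn : 0 < n) (hp : p.Prime) : Irreducible (X ^ n - C (p : ℚ)) := by
  have hm : (X ^ n - C (p : ℤ)).Monic := monic_X_pow_sub_C _ hn.ne'
  have hp' := Nat.prime_iff_prime_int.1 hp
  have hd := degree_X_pow_sub_C hn (p : ℤ)
  have h := irreducible_of_eisenstein_criterion (P := Ideal.span {(p : ℤ)})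
    ((Ideal.span_singleton_prime hp'.ne_zero).2 hp')
    (by rw [hm.leadingCoeff, Ideal.mem_span_singleton]; exact hp'.not_dvd_one)
    (fun i hi => by
      rw [hd, Nat.cast_lt] at hi
      rw [Ideal.mem_span_singleton, coeff_sub, coeff_X_pow, if_neg hi.ne, coeff_C]
      split_ifs <;> simp)
    (by rw [hd]; exact_mod_cast hn)
    (by
      rw [Ideal.span_singleton_pow, Ideal.mem_span_singleton, coeff_sub, coeff_X_pow,
        if_neg hn.ne, coeff_C_zero, zero_sub, dvd_neg]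
      intro h
      have := Int.le_of_dvd (by exact_mod_cast hp.pos) h
      have : (2 : ℤ) ≤ p := by exact_mod_cast hp.two_le
      nlinarith) hm.isPrimitive
  simpa using (IsPrimitive.Int.irreducible_iff_irreducible_map_cast hm.isPrimitive).1 h

variable {L : Type} [Field L] [NumberField L] [IsGalois ℚ L] {N n p : ℕ}

lemma card_ge (hN : 0 < N) (hn : n ∣ N) (hp : p.Prime) {ζ α : L} (hζ : IsPrimitiveRoot ζ N)
    (hα : α ^ n = p) (τ : L ≃ₐ[ℚ] L) (h1 : τ α = α) (h2 : τ ζ * ζ = 1) :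
    N.totient * n ≤ 2 * Nat.card (L ≃ₐ[ℚ] L) := by
  have : NeZero N := ⟨hN.ne'⟩
  have hn0 : 0 < n := Nat.pos_of_dvd_of_pos hn hN
  obtain ⟨c, hc⟩ := hn
  set H := MulAction.stabilizer (L ≃ₐ[ℚ] L) ζ with hH
  have α0 : α ≠ 0 := by
    rintro rfl
    rw [zero_pow hn0.ne'] at hα
    exact hp.ne_zero (by exact_mod_cast hα.symm)
  have i1 : N.totient ≤ H.index := by
    rw [MulAction.index_stabilizer, ← hζ.card_primitiveRoots, ← Set.ncard_coe_finset]
    refine Set.ncard_le_ncard (fun x hx => ?_) (Set.finite_range _)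
    have hx' := (mem_primitiveRoots hN).1 hx
    obtain ⟨σ, hσ⟩ := IsConjRoot.exists_algEquiv (K := ℚ) (x := x) (y := ζ)
      ((cyclotomic_eq_minpoly_rat hx' hN).symm.trans (cyclotomic_eq_minpoly_rat hζ hN))
    exact ⟨σ, hσ⟩
  have pw : ∀ σ : L ≃ₐ[ℚ] L, ∃ i, σ ζ = ζ ^ i := fun σ => by
    obtain ⟨i, _, hi⟩ := hζ.eq_pow_of_pow_eq_one (ξ := σ ζ)
      (by rw [← map_pow, hζ.pow_eq_one, map_one])
    exact ⟨i, hi.symm⟩
  have fx : ∀ σ ∈ H, σ (α ^ Nat.card H) = α ^ Nat.card H := by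
    intro σ hσ
    have e0 : σ ζ = ζ := hσ
    have e1 : (σ α / α) ^ N = 1 := by
      rw [hc, pow_mul, div_pow, ← map_pow, hα, map_natCast, div_self, one_pow]
      exact_mod_cast hp.ne_zero
    obtain ⟨i, _, hi⟩ := hζ.eq_pow_of_pow_eq_one e1
    have e2 : σ α = ζ ^ i * α := by rw [hi]; field_simp
    have e3 : ∀ k : ℕ, (σ ^ k) α = (ζ ^ i) ^ k * α := by
      intro k
      induction k with
      | zero => simp
      | succ k ih =>
        rw [pow_succ', AlgEquiv.mul_apply, ih, map_mul, map_pow, map_pow, e0, e2]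
        ring
    have e4 : σ ^ Nat.card H = 1 := congrArg Subtype.val (pow_card_eq_one' (x := (⟨σ, hσ⟩ : H)))
    have e5 := e3 (Nat.card H)
    rw [e4, AlgEquiv.one_apply] at e5
    have e6 : (ζ ^ i) ^ Nat.card H = 1 := mul_right_cancel₀ α0 (by rw [← e5, one_mul])
    rw [map_pow, e2, mul_pow, e6, one_mul]
  have hω : IsPrimitiveRoot (ζ ^ c) n := hζ.pow hN (hc.trans (mul_comm _ _))
  have mp : ∀ x : L, x ^ n = p → X ^ n - C (p : ℚ) = minpoly ℚ x := fun x hx =>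
    minpoly.eq_of_irreducible_of_monic (irr_pow hn0 hp) (by simp [hx])
      (monic_X_pow_sub_C _ hn0.ne')
  obtain ⟨ρ, hρ⟩ := IsConjRoot.exists_algEquiv (K := ℚ) (x := ζ ^ c * α) (y := α)
    ((mp _ (by rw [mul_pow, hω.pow_eq_one, one_mul, hα])).symm.trans (mp _ hα))
  have cm : (τ * ρ)⁻¹ * (ρ * τ) ∈ H := by
    obtain ⟨i, hi⟩ := pw ρ
    obtain ⟨j, hj⟩ := pw τ
    have : (ρ * τ) ζ = (τ * ρ) ζ := by
      rw [AlgEquiv.mul_apply, AlgEquiv.mul_apply, hi, hj, map_pow, map_pow, hi, hj, ← pow_mul,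
        ← pow_mul, mul_comm]
    change ((τ * ρ)⁻¹ * (ρ * τ)) ζ = ζ
    rw [AlgEquiv.mul_apply, this, ← AlgEquiv.mul_apply, inv_mul_cancel, AlgEquiv.one_apply]
  have e1 := congrArg (τ * ρ) (fx _ cm)
  rw [← AlgEquiv.mul_apply, mul_inv_cancel_left] at e1
  simp only [AlgEquiv.mul_apply, map_pow, map_mul, h1, hρ, mul_pow] at e1
  have e2 := mul_right_cancel₀ (pow_ne_zero _ α0) e1
  have e3 : (ζ ^ c) ^ (2 * Nat.card H) = 1 := by
    rw [two_mul, pow_add]
    nth_rewrite 1 [e2]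
    rw [← mul_pow, ← mul_pow, h2, one_pow, one_pow]
  have e4 := Nat.le_of_dvd (by have := Nat.card_pos (α := H); omega) (hω.dvd_of_pow_eq_one _ e3)
  rw [← H.card_mul_index, ← mul_assoc, mul_comm]
  exact Nat.mul_le_mul e4 i1

omit [IsGalois ℚ L] in
lemma gal_inj (hN : 0 < N) (hn : n ∣ N)
    (hgen : ∀ σ τ : L ≃ₐ[ℚ] L, (∀ x : L, x ^ N = 1 ∨ x ^ n = p → σ x = τ x) → σ = τ)
    {E : Type} [Field E] (π : 𝓞 L →+* E) (h1 : (N : E) ≠ 0) (h2 : (p : E) ≠ 0) (σ τ : L ≃ₐ[ℚ] L)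
    (h : ∀ x : 𝓞 L, x ^ N = 1 ∨ x ^ n = p → π (σ • x) = π (τ • x)) : σ = τ := by
  have hn0 : 0 < n := Nat.pos_of_dvd_of_pos hn hN
  have inj : Function.Injective (algebraMap (𝓞 L) L) := RingOfIntegers.coe_injective
  have key : ∀ k c : ℕ, 0 < k → (k : E) ≠ 0 → (c : E) ≠ 0 → ∀ x : L, x ^ k = c →
      (∀ y : 𝓞 L, y ^ k = c → π (σ • y) = π (τ • y)) → σ x = τ x := by
    intro k c hk k0 c0 x hx H
    have hi : IsIntegral ℤ x := IsIntegral.of_pow hk (hx ▸ isIntegral_natCast c)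
    obtain ⟨y, rfl⟩ : ∃ y : 𝓞 L, algebraMap (𝓞 L) L y = x := ⟨⟨x, hi⟩, rfl⟩
    have hy : y ^ k = c := inj (by rw [map_pow, map_natCast]; exact hx)
    have e : ∀ ρ : L ≃ₐ[ℚ] L, (ρ • y) ^ k = c := fun ρ => by
      rw [← smul_pow', hy]
      exact map_natCast (MulSemiringAction.toRingHom _ (𝓞 L) ρ) c
    have := inj_root π ((e σ).trans (e τ).symm) (H _ hy) k0 fun h0 => c0 (by
      have := congrArg π (e τ)
      rwa [map_pow, h0, zero_pow hk.ne', map_natCast, eq_comm] at this)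
    exact congrArg (algebraMap (𝓞 L) L) this
  refine hgen σ τ fun x hx => ?_
  rcases hx with hx | hx
  · exact key N 1 hN h1 (by simp) x (by simpa using hx) fun y hy => h y (Or.inl (by simpa using hy))
  · refine key n p hn0 (fun h0 => h1 ?_) h2 x hx fun y hy => h y (Or.inr hy)
    obtain ⟨c, rfl⟩ := hn
    rw [Nat.cast_mul, h0, zero_mul]

lemma split (hN : 0 < N) (hn : n ∣ N)
    (hgen : ∀ σ τ : L ≃ₐ[ℚ] L, (∀ x : L, x ^ N = 1 ∨ x ^ n = p → σ x = τ x) → σ = τ)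
    {l w v : ℕ} (hl : l.Prime) (hlp : ¬l ∣ p) (hw : l = 1 + N * w) (hv : l = 1 + n * v)
    (hpv : (p : ZMod l) ^ v = 1) : ∃ T : Finset (Ideal (𝓞 L)), Nat.card (L ≃ₐ[ℚ] L) ≤ T.card ∧
      ∀ P ∈ T, Prime P ∧ Ideal.absNorm P = l := by
  classical
  have : Fact l.Prime := ⟨hl⟩
  have hlN : ¬l ∣ N := fun h => hl.not_dvd_one
    ((Nat.dvd_add_left (h.mul_right w)).1 (hw ▸ dvd_rfl))
  have hm : (Ideal.span {(l : ℤ)}).IsMaximal := Int.ideal_span_isMaximal_of_prime l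
  obtain ⟨Q, hQ, hQo⟩ :=
    Ideal.exists_maximal_ideal_liesOver_of_isIntegral (Ideal.span {(l : ℤ)}) (S := 𝓞 L)
  obtain ⟨σ, hσ⟩ := IsArithFrobAt.exists_of_isInvariant ℤ (L ≃ₐ[ℚ] L) Q
  have hc : Nat.card (ℤ ⧸ Q.under ℤ) = l := by
    rw [← hQo.over, Nat.card_congr (Int.quotientSpanNatEquivZMod l).toEquiv, Nat.card_zmod]
  let := Ideal.Quotient.field Q
  set π := Ideal.Quotient.mk Q with hπ
  have l0 : (l : 𝓞 L ⧸ Q) = 0 := by
    have : (l : ℤ) ∈ Q.under ℤ := hQo.over ▸ Ideal.mem_span_singleton_self _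
    rw [← map_natCast π, Ideal.Quotient.eq_zero_iff_mem]
    simpa using this
  have ch : CharP (𝓞 L ⧸ Q) l := (CharP.charP_iff_prime_eq_zero hl).2 l0
  have fr : ∀ x : 𝓞 L, π (σ • x) = π x ^ l := fun x => by
    have := hσ.mk_apply x
    rwa [hc] at this
  have s1 : σ = 1 := by
    refine gal_inj hN hn hgen π (by rwa [Ne, CharP.cast_eq_zero_iff _ l])
      (by rwa [Ne, CharP.cast_eq_zero_iff _ l]) σ 1 fun x hx => ?_
    rw [fr, one_smul, ← map_pow]
    rcases hx with hx | hx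
    · rw [hw, pow_add, pow_mul, hx, one_pow, pow_one, mul_one]
    · have := congrArg (ZMod.castHom dvd_rfl (𝓞 L ⧸ Q)) hpv
      rw [map_pow, map_natCast, map_one] at this
      rw [hv, pow_add, pow_mul, hx, map_mul, map_pow, map_pow, map_natCast, this, pow_one, mul_one]
  have := Fintype.ofFinite (𝓞 L ⧸ Q)
  have cd : Fintype.card (𝓞 L ⧸ Q) = l := by
    have c1 := (FiniteField.forall_pow_eq_one_iff (𝓞 L ⧸ Q) (l - 1)).1 fun x => by
      obtain ⟨y, hy⟩ := Ideal.Quotient.mk_surjective (x : 𝓞 L ⧸ Q)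
      have := fr y
      rw [s1, one_smul, hπ, hy] at this
      ext
      apply mul_right_cancel₀ x.ne_zero
      rw [Units.val_pow_eq_pow_val, ← pow_succ, Nat.sub_add_cancel hl.pos, ← this, Units.val_one,
        one_mul]
    have c2 := Nat.le_of_dvd (by have := hl.two_le; omega) c1
    obtain ⟨k, _, hk⟩ := FiniteField.card (𝓞 L ⧸ Q) l
    have c3 : l ≤ l ^ (k : ℕ) := Nat.le_self_pow k.ne_zero l
    have := hl.two_le
    omega
  set ψ : 𝓞 L →+* ZMod l := (ZMod.ringEquivOfPrime _ hl cd).symm.toRingHom.comp π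
  have := Fintype.ofFinite (L ≃ₐ[ℚ] L)
  refine ⟨univ.image fun ρ : L ≃ₐ[ℚ] L =>
    RingHom.ker (ψ.comp (MulSemiringAction.toRingHom _ (𝓞 L) ρ)), ?_, fun P hP => ?_⟩
  · rw [card_image_of_injective _ fun ρ ρ' h => ?_, card_univ, Nat.card_eq_fintype_card]
    exact gal_inj hN hn hgen ψ (by rwa [Ne, ZMod.natCast_eq_zero_iff])
      (by rwa [Ne, ZMod.natCast_eq_zero_iff]) ρ ρ' fun x _ =>
        DFunLike.congr_fun (ZMod.ringHom_eq_of_ker_eq _ _ h) x
  · obtain ⟨ρ, _, rfl⟩ := mem_image.1 hP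
    generalize ψ.comp (MulSemiringAction.toRingHom _ (𝓞 L) ρ) = φ
    have e : Ideal.absNorm (RingHom.ker φ) = l := by
      rw [Ideal.absNorm_apply, Submodule.cardQuot_apply, Nat.card_congr
        (RingHom.quotientKerEquivOfSurjective (ZMod.ringHom_surjective φ)).toEquiv, Nat.card_zmod]
    refine ⟨Ideal.prime_of_isPrime (fun h => ?_) (RingHom.ker_isPrime φ), e⟩
    rw [h, Ideal.absNorm_bot] at e
    exact hl.ne_zero e.symm

theorem kummer (hN : 0 < N) (hn : n ∣ N) (hp : p.Prime) :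
    ∃ (F : Type) (_ : Field F) (_ : NumberField F) (D : ℕ), N.totient * n ≤ 2 * D ∧
      ∀ l w v : ℕ, l.Prime → ¬l ∣ p → l = 1 + N * w → l = 1 + n * v → (p : ZMod l) ^ v = 1 →
        ∃ T : Finset (Ideal (𝓞 F)), D ≤ T.card ∧ ∀ P ∈ T, Prime P ∧ Ideal.absNorm P = l := by
  have hn0 : 0 < n := Nat.pos_of_dvd_of_pos hn hN
  set f : ℚ[X] := (X ^ N - C 1) * (X ^ n - C (p : ℚ)) with hf
  have f0 : f ≠ 0 := mul_ne_zero (monic_X_pow_sub_C _ hN.ne').ne_zero
    (monic_X_pow_sub_C _ hn0.ne').ne_zero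
  have mem : ∀ x : ℂ, x ∈ f.rootSet ℂ ↔ x ^ N = 1 ∨ x ^ n = p := fun x => by
    rw [mem_rootSet, and_iff_right f0]
    simp [hf, sub_eq_zero]
  set K := IntermediateField.adjoin ℚ (f.rootSet ℂ) with hK
  have sp : IsSplittingField ℚ K f :=
    IntermediateField.adjoin_rootSet_isSplittingField (IsAlgClosed.splits _)
  have := IsSplittingField.finiteDimensional K f
  have := Normal.of_isSplittingField (E := K) f
  have nf : NumberField K := {}
  have ga : IsGalois ℚ K := {}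
  have hζ := Complex.isPrimitiveRoot_exp N hN.ne'
  generalize Complex.exp (2 * Real.pi * Complex.I / N) = ζ at hζ
  have hα : ((((p : ℝ) ^ ((n : ℝ)⁻¹) : ℝ) : ℂ)) ^ n = p := by
    rw [← Complex.ofReal_pow, Real.rpow_inv_natCast_pow (Nat.cast_nonneg _) hn0.ne']
    simp
  generalize ((p : ℝ) ^ ((n : ℝ)⁻¹) : ℝ) = α at hα
  refine ⟨K, inferInstance, nf, _, card_ge hN hn hp
    (ζ := ⟨ζ, IntermediateField.subset_adjoin _ _ ((mem _).2 (Or.inl hζ.pow_eq_one))⟩)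
    (α := ⟨α, IntermediateField.subset_adjoin _ _ ((mem _).2 (Or.inr hα))⟩)
    (IsPrimitiveRoot.coe_submonoidClass_iff.1 hζ) (Subtype.ext (by simpa using hα))
    ((Complex.conjAe.restrictScalars ℚ).restrictNormal K) (Subtype.ext ?_) (Subtype.ext ?_),
    fun l w v hl hlp hw hv hpv => split hN hn (fun σ τ h => ?_) hl hlp hw hv hpv⟩
  · refine (AlgEquiv.restrictNormal_commutes _ K _).trans ?_
    exact Complex.conj_ofReal α
  · refine (congrArg (· * ζ) (AlgEquiv.restrictNormal_commutes _ K _)).trans ?_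
    change (starRingEnd ℂ) ζ * ζ = 1
    simp [Complex.conj_mul', hζ.norm'_eq_one hN.ne']
  · apply AlgEquiv.coe_toAlgHom_injective
    refine IntermediateField.adjoin_algHom_ext ℚ fun x hx => h _ ?_
    exact ((mem x).1 hx).imp (fun e => Subtype.ext (by simpa using e))
      fun e => Subtype.ext (by simpa using e)

end Pool.Agent.Lib.MP_40dc3c_ag.Fe
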