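import Pool.Agent.Lib.MP_40dc3c_ag.Fe.Two

/-! Parities: a torsion element with even parities vanishes after raising the level. -/

namespace Pool.Agent.Lib.MP_40dc3c_ag.Fe

open Finset

variable {B : Type} [AddCommGroup B] {p : ℕ} {v : ℚ → B}

lemma lv_one_div (d : ℕ) : Lv d (1 / d) := by simpa using lv_ndiv (dvd_refl d) 1

lemma ev_two (h2 : ∀ a : ℚ, a.den.Coprime p → 2 • v a = 0) {w : Multiset ℚ}
    (hw : ∀ b ∈ w, b.den.Coprime p) : 2 • ev v w = 0 := by
  rw [← ev_smul, ev_congr (g' := fun _ => 0) fun b hb => h2 b (hw b hb)]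
  simp [ev]

lemma par_even (hp : p.Prime) (hv : GD p v) (h2 : ∀ a : ℚ, a.den.Coprime p → 2 • v a = 0) {a : ℚ}
    (ha : a.den.Coprime p) (he : 2 ∣ a.den) : v a = 0 := by
  have c2 : Nat.Coprime 2 p := ha.coprime_dvd_left he
  obtain ⟨e, m', w, f, he', h1, h3, h4, -, h5, h6, h7⟩ := raise hp Nat.prime_two
    (fun h => by simp [← h] at c2) a.den_pos ha
  have : NeZero (2 ^ e * m') := ⟨by positivity⟩
  have co : (2 ^ e * m' * 2 ^ 1).Coprime p := Nat.Coprime.mul_left h5 (by simpa using c2)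
  obtain ⟨lam, -, -, a3, a4⟩ := trickB (k := 1) Nat.prime_two he' rfl h5 h6 h7
    (hv _ (by positivity) co)
  obtain ⟨y, b1, b2⟩ := a3 a
  rw [← a4 a (lv_iff.2 h1) fun h => h4 (he.trans (lv_iff.1 h)), b2, pow_one]
  exact ev_two h2 fun b hb => co.coprime_dvd_left (lv_iff.1 (b1 b hb))

lemma par_unit (hp : p.Prime) (hv : GD p v) (h2 : ∀ a : ℚ, a.den.Coprime p → 2 • v a = 0)
    {d t : ℕ} (hd : 0 < d) (hdp : d.Coprime p) (ho : ¬2 ∣ d) (ht : t.Coprime d) :
    v (t / d) = v (1 / d) := by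
  obtain ⟨l, -, h1, Ψ, E, -, a2, a3⟩ := aux_prime hp Nat.prime_two hv hd hdp hd
    ((Nat.Prime.coprime_iff_not_dvd Nat.prime_two).2 ho) ht 1
  have lv := lv_one_div d
  obtain ⟨w, b1, b2⟩ := a2 _ lv
  have e := a3 _ lv
  rw [b2, pow_one, mul_nsmul, ev_two h2 b1, nsmul_zero, eq_comm, sub_eq_zero] at e
  have := (hv d hd hdp).mod_congr lv dvd_rfl (s := t) (t := l) h1.dvd
  rw [← e]
  simpa [div_eq_mul_inv] using this

lemma par_den (hp : p.Prime) (hv : GD p v) (h2 : ∀ a : ℚ, a.den.Coprime p → 2 • v a = 0)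
    {a : ℚ} (ha : a.den.Coprime p) (ho : ¬2 ∣ a.den) : v a = v (1 / a.den) := by
  rw [← par_unit hp hv h2 a.den_pos ha ho a.reduced]
  have e := Rat.num_div_den a
  rcases Int.natAbs_eq a.num with h | h
  · rw [h, Int.cast_natCast] at e
    rw [e]
  · rw [h, Int.cast_neg, Int.cast_natCast, neg_div, neg_eq_iff_eq_neg] at e
    have := h2 a ha
    rw [two_nsmul, add_eq_zero_iff_eq_neg] at this
    rw [e, (hv _ a.den_pos ha).odd a (lv_iff.2 dvd_rfl), ← this]

lemma par_rad (hp : p.Prime) (hv : GD p v) (h2 : ∀ a : ℚ, a.den.Coprime p → 2 • v a = 0)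
    {d : ℕ} (hd : 0 < d) (hdp : d.Coprime p) (ho : ¬2 ∣ d) :
    v (1 / d) = v (1 / (∏ l ∈ d.primeFactors, l : ℕ)) := by
  induction d using Nat.strong_induction_on with
  | _ d ih =>
  by_cases hs : Squarefree d
  · rw [Nat.prod_primeFactors_of_squarefree hs]
  rw [Nat.squarefree_iff_prime_squarefree] at hs
  push Not at hs
  obtain ⟨l, hl, c, rfl⟩ := hs
  have c0 : 0 < c := Nat.pos_of_mul_pos_left hd
  have l0 := hl.pos
  have l1 : (l : ℚ) ≠ 0 := by positivity
  have c1 : (c : ℚ) ≠ 0 := by positivity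
  have hd' : l * c ∣ l * l * c := ⟨l, by ring⟩
  have pf : (l * l * c).primeFactors = (l * c).primeFactors := by
    simp only [Nat.primeFactors_mul (mul_pos l0 l0).ne' c0.ne', Nat.primeFactors_mul l0.ne' l0.ne',
      Nat.primeFactors_mul l0.ne' c0.ne', union_idempotent]
  rw [pf, ← ih (l * c) (by have := hl.one_lt; nlinarith [mul_pos l0 c0]) (mul_pos l0 c0)
    (hdp.coprime_dvd_left hd') fun h => ho (h.trans hd')]
  have lv := lv_one_div (l * l * c)
  have h1 := (hv _ hd hdp).dist l hl ⟨l * c, by ring⟩ _ lv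
  rw [sum_congr rfl (g := fun _ => v (1 / (l * l * c : ℕ))) fun k _ => ?_, sum_const,
    card_range] at h1
  · obtain ⟨j, hj⟩ := hl.odd_of_ne_two fun h => ho (h ▸ ⟨l * c, by ring⟩)
    nth_rewrite 1 [hj] at h1
    rw [succ_nsmul, mul_nsmul, h2 _ (hdp.coprime_dvd_left (lv_iff.1 lv)), nsmul_zero,
      zero_add] at h1
    rw [h1]
    congr 1
    push_cast
    field_simp
  · rw [← par_unit hp hv h2 hd hdp ho (t := 1 + l * c * k)]
    · congr 1
      push_cast
      field_simp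
    · have : (1 + l * c * k).Coprime (l * c) := by simp
      exact (this.pow_right 2).coprime_dvd_right ⟨c, by ring⟩

lemma par_zero (hp : p.Prime) (hv : GD p v) (h2 : ∀ a : ℚ, a.den.Coprime p → 2 • v a = 0)
    {x : Multiset ℚ} (hx : ∀ a ∈ x, a.den.Coprime p) (h : ∀ n : ℕ, Odd n → Squarefree n →
      Even (x.countP fun a => a.den.primeFactors = n.primeFactors)) : ev v x = 0 := by
  set c : Finset ℕ → B := fun S => if 2 ∈ S then 0 else v (1 / (∏ l ∈ S, l : ℕ)) with hc
  have e : ev v x = ((x.map fun a => a.den.primeFactors).map c).sum := by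
    rw [Multiset.map_map]
    refine ev_congr fun a ha => ?_
    simp only [hc, Function.comp]
    by_cases he : 2 ∣ a.den
    · rw [if_pos (Nat.mem_primeFactors.2 ⟨Nat.prime_two, he, a.den_nz⟩),
        par_even hp hv h2 (hx a ha) he]
    · rw [if_neg fun h => he (Nat.dvd_of_mem_primeFactors h), par_den hp hv h2 (hx a ha) he,
        par_rad hp hv h2 a.den_pos (hx a ha) he]
  rw [e, sum_multiset_map_count]
  refine sum_eq_zero fun S hS => ?_
  obtain ⟨a, ha, rfl⟩ := Multiset.mem_map.1 (Multiset.mem_toFinset.1 hS)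
  simp only [hc]
  split_ifs with he
  · simp
  have hd := Nat.prod_primeFactors_dvd a.den
  have pf : (∏ l ∈ a.den.primeFactors, l).primeFactors = a.den.primeFactors :=
    Nat.primeFactors_prod fun l hl => Nat.prime_of_mem_primeFactors hl
  obtain ⟨j, hj⟩ := h (∏ l ∈ a.den.primeFactors, l) (Nat.odd_iff.2 (Nat.two_dvd_ne_zero.1
    fun h => he (Nat.mem_primeFactors.2 ⟨Nat.prime_two, h.trans hd, a.den_nz⟩)))
    (Finset.squarefree_prod_of_pairwise_isCoprime (fun i hi j hj ne => Nat.coprime_iff_isRelPrime.1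
      ((Nat.coprime_primes (Nat.prime_of_mem_primeFactors hi)
        (Nat.prime_of_mem_primeFactors hj)).2 ne))
      fun i hi => (Nat.prime_of_mem_primeFactors hi).squarefree)
  rw [pf] at hj
  have hj' : (x.countP fun b => a.den.primeFactors = b.den.primeFactors) = j + j :=
    (Multiset.countP_congr rfl fun b _ => propext eq_comm).trans hj
  rw [Multiset.count, Multiset.countP_map, ← Multiset.countP_eq_card_filter, hj', ← two_mul,
    mul_nsmul, h2 _ (((hx a ha).coprime_dvd_left hd).coprime_dvd_left (lv_iff.1 (lv_one_div _))),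
    nsmul_zero]

/-- the main theorem on the universal distribution. -/
theorem vanish {u : ℚ → B} {m N : ℕ} (hp : p.Prime) (hu : GD p u) (hm : 0 < m)
    (hmp : m.Coprime p) (hN : 0 < N) {x : Multiset ℚ} (hx : Tors p m N x)
    (h : ∀ n : ℕ, Odd n → Squarefree n →
      Even (x.countP fun a => a.den.primeFactors = n.primeFactors)) : ev u x = 0 := by
  set R := AddSubgroup.closure {z : FreeAbelianGroup ℚ | (∃ m, 0 < m ∧ m.Coprime p ∧ z ∈ Rel p m) ∨
    ∃ a : ℚ, a.den.Coprime p ∧ z = 2 • .of a} with hR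
  have h1 := par_zero (v := fun a => QuotientAddGroup.mk' R (.of a)) hp
    (fun m h1 h2 => dist_quot R fun z hz => AddSubgroup.subset_closure (Or.inl ⟨m, h1, h2, hz⟩))
    (fun a ha => by
      rw [← map_nsmul]
      exact (QuotientAddGroup.eq_zero_iff _).2 (AddSubgroup.subset_closure (Or.inr ⟨a, ha, rfl⟩)))
    (fun a ha => hmp.coprime_dvd_left (lv_iff.1 (hx.1 a ha))) h
  rw [← map_ev] at h1
  have h2 : ∀ z ∈ R, ∃ m, 0 < m ∧ m.Coprime p ∧ ∃ w : Multiset ℚ, (∀ b ∈ w, Lv m b) ∧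
      ∀ (B : Type) [AddCommGroup B] (g : ℚ → B), Dist p m g →
        FreeAbelianGroup.lift g z = 2 • ev g w := by
    intro z hz
    induction hz using AddSubgroup.closure_induction with
    | mem z hz =>
      obtain ⟨m, h1, h2, hz⟩ | ⟨a, ha, rfl⟩ := hz
      · exact ⟨m, h1, h2, 0, by simp, fun B _ g hg => by simp [hg.lift_rel hz]⟩
      · exact ⟨a.den, a.den_pos, ha, {a}, by simp [lv_iff], fun B _ g _ => by
          rw [map_nsmul, FreeAbelianGroup.lift_apply_of, ev_singleton]⟩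
    | zero => exact ⟨1, one_pos, by simp, 0, by simp, fun B _ g _ => by simp⟩
    | add y z _ _ hy hz =>
      obtain ⟨m, a1, a2, w, a3, a4⟩ := hy
      obtain ⟨m', b1, b2, w', b3, b4⟩ := hz
      refine ⟨m * m', mul_pos a1 b1, Nat.Coprime.mul_left a2 b2, w + w', fun b hb => ?_,
        fun B _ g hg => ?_⟩
      · exact (Multiset.mem_add.1 hb).elim (fun h => (a3 b h).mono (dvd_mul_right _ _))
          fun h => (b3 b h).mono (dvd_mul_left _ _)
      · rw [map_add, a4 B g (hg.mono (dvd_mul_right _ _)), b4 B g (hg.mono (dvd_mul_left _ _)),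
          ev_add, nsmul_add]
    | neg z _ hz =>
      obtain ⟨m, a1, a2, w, a3, a4⟩ := hz
      refine ⟨m, a1, a2, w.map fun b => -b, fun b hb => ?_, fun B _ g hg => ?_⟩
      · obtain ⟨c, hc, rfl⟩ := Multiset.mem_map.1 hb
        exact (a3 c hc).neg
      · rw [map_neg, a4 B g hg, ev_map, ev_congr fun b hb => hg.odd b (a3 b hb), ev_neg, smul_neg]
  obtain ⟨m', a1, a2, w, a3, a4⟩ := h2 _ ((QuotientAddGroup.eq_zero_iff _).1 h1)
  have co : (m * m').Coprime p := Nat.Coprime.mul_left hmp a2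
  rw [← lift_ev, a4 B u (hu m' a1 a2)]
  refine two_tors (N := N * 2) hp hu (mul_pos hm a1) co (by omega)
    ⟨fun b hb => (a3 b hb).mono (dvd_mul_left _ _), fun B _ g hg => ?_⟩
  rw [mul_nsmul', ← a4 B g (hg.mono (dvd_mul_left _ _)), lift_ev,
    hx.2 B g (hg.mono (dvd_mul_right _ _))]

end Pool.Agent.Lib.MP_40dc3c_ag.Fe
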