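import Pool.Agent.Lib.MP_40dc3c_ag.Fe.Dens
import Pool.Agent.Lib.MP_40dc3c_ag.Fe.Kum

/-! Primes in a residue class modulo which `p` has order divisible by a given prime power. -/

namespace Pool.Agent.Lib.MP_40dc3c_ag.Fe

theorem good_prime {p q m r : ℕ} (hp : p.Prime) (hq : q.Prime) (hm : 0 < m) (hqm : q.Coprime m)
    (hr : r.Coprime m) (c M : ℕ) :
    ∃ l : ℕ, l.Prime ∧ M < l ∧ l ≡ r [MOD m] ∧ q ^ c ∣ orderOf (p : ZMod l) := by
  by_contra hc
  push Not at hc
  set j := 8 * m with hj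
  have hN : 0 < q ^ (j + c) := pow_pos hq.pos _
  obtain ⟨F, _, _, D, hD, H⟩ := kummer hN (pow_dvd_pow q (Nat.le_add_right j c)) hp
  have co : (q ^ (j + c)).Coprime m := hqm.pow_left _
  obtain ⟨a, a1, a2⟩ := Nat.chineseRemainder co 1 r
  have : NeZero (q ^ (j + c) * m) := ⟨by positivity⟩
  have ha : IsUnit (a : ZMod (q ^ (j + c) * m)) := by
    rw [ZMod.isUnit_iff_coprime]
    refine Nat.Coprime.mul_right ?_ ?_
    · rw [Nat.Coprime, a1.gcd_eq, Nat.gcd_one_left]
    · rw [Nat.Coprime, a2.gcd_eq, hr]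
  have h1 := dens (F := F) (D := D) (M := max M p) ha fun l hl hM e => by
    have : Fact l.Prime := ⟨hl⟩
    have e1 := (ZMod.natCast_eq_natCast_iff _ _ _).1 e
    have e2 := (e1.of_mul_right m).trans a1
    have e3 := (e1.of_mul_left _).trans a2
    obtain ⟨w, hw⟩ := (Nat.modEq_iff_dvd' hl.pos).1 e2.symm
    have lp : ¬l ∣ p := fun h => by
      have := Nat.le_of_dvd hp.pos h
      omega
    have l1 := hl.pos
    refine H l w (q ^ c * w) hl lp (by omega) (by rw [← mul_assoc, ← pow_add]; omega) ?_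
    rw [← orderOf_dvd_iff_pow_eq_one]
    have o1 : orderOf (p : ZMod l) ∣ q ^ (j + c) * w := by
      rw [← hw, orderOf_dvd_iff_pow_eq_one]
      exact ZMod.pow_card_sub_one_eq_one (by rwa [Ne, ZMod.natCast_eq_zero_iff])
    have o2 := hc l hl (by omega) e3
    generalize orderOf (p : ZMod l) = o at o1 o2
    obtain ⟨y, z, hy, hz, rfl⟩ := exists_dvd_and_dvd_of_dvd_mul o1
    obtain ⟨i, _, rfl⟩ := (Nat.dvd_prime_pow hq).1 hy
    refine mul_dvd_mul (pow_dvd_pow q ?_) hz
    by_contra h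
    exact o2 ((pow_dvd_pow q (by omega)).mul_right _)
  rw [Nat.totient_mul co] at h1
  have h2 := Nat.totient_pos.2 hN
  have h3 := Nat.totient_le m
  have h4 : j < q ^ j := Nat.lt_pow_self hq.one_lt
  have h5 : (q ^ (j + c)).totient * q ^ j ≤ (q ^ (j + c)).totient * j := by
    refine hD.trans ?_
    rw [hj] at h1 ⊢
    nlinarith
  exact absurd (Nat.le_of_mul_le_mul_left h5 h2) (by omega)

end Pool.Agent.Lib.MP_40dc3c_ag.Fe
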