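import Pool.Agent.Lib.MP_40dc3c_ag.Fe.Defs
import Pool.Agent.Lib.MP_40dc3c_ag.Fe.Kub
import Pool.Agent.Lib.MP_40dc3c_ag.Fe.Par

/-! The distribution of symbols modulo the standard relations. -/

namespace Pool.Agent.Lib.MP_40dc3c_ag.Fe

open Finset

variable {p : ℕ}

lemma cop_of_dvd (hp : p.Prime) {d f : ℕ} (hf : 0 < f) (h : d ∣ p ^ f - 1) : d.Coprime p := by
  refine (hp.coprime_iff_not_dvd.2 fun h1 => hp.not_dvd_one ?_).symm
  have h2 : p ∣ p ^ f := dvd_pow_self p hf.ne'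
  rw [← Nat.sub_add_cancel (Nat.one_le_pow f p hp.pos)] at h2
  exact (Nat.dvd_add_right (h1.trans h)).1 h2

lemma den_mul {s : ℕ} {a : ℚ} (hs : s.Coprime a.den) (h : a.den ≠ 1) : ((s : ℚ) * a).den ≠ 1 :=
  fun e => h (Nat.dvd_one.1 (lv_iff.1 (lv_of_mul (lv_iff.2 dvd_rfl) hs (lv_iff.2 e.dvd))))

lemma tate_sum (hp : p.Prime) {x : Multiset ℚ} {f t : ℕ} (h1 : ∀ a ∈ x, a.den ≠ 1) (hf : 0 < f)
    (h2 : ∀ a ∈ x, a.den ∣ p ^ f - 1) (ht : ∀ a ∈ x, t.Coprime a.den) :
    (x.map fun a => ∑ h ∈ range f, Int.fract ((t : ℚ) * p ^ h * a)).sum =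
      ∑ h ∈ range f, ev (fun a => bern (t * p ^ h * a)) x + f * x.card / 2 := by
  rw [← ev_sum]
  have e : ∀ a ∈ x, ∑ h ∈ range f, Int.fract ((t : ℚ) * p ^ h * a) =
      ∑ h ∈ range f, bern (t * p ^ h * a) + f / 2 := by
    intro a ha
    rw [sum_congr rfl (g := fun h => bern (t * p ^ h * a) + 1 / 2) fun h _ => ?_, sum_add_distrib]
    · simp [div_eq_mul_inv]
    have := den_mul (Nat.Coprime.mul_left (ht a ha)
      ((cop_of_dvd hp hf (h2 a ha)).symm.pow_left h)) (h1 a ha)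
    push_cast at this
    rw [bern, if_neg, sub_add_cancel]
    intro c
    obtain ⟨z, hz⟩ := Int.fract_eq_zero_iff.1 c
    exact this (by rw [← hz, Rat.den_intCast])
  rw [Multiset.map_congr rfl e, Multiset.sum_map_add]
  simp only [ev, Multiset.map_const', Multiset.sum_replicate, nsmul_eq_mul]
  ring

lemma Tate.cop (hp : p.Prime) {x : Multiset ℚ} (h : Tate p x) : ∀ a ∈ x, a.den.Coprime p := by
  obtain ⟨-, f, hf, h2, -⟩ := h
  exact fun a ha => cop_of_dvd hp hf (h2 a ha)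

lemma Tate.tors (hp : p.Prime) {x : Multiset ℚ} (h : Tate p x) :
    0 < (x.map Rat.den).prod ∧ (x.map Rat.den).prod.Coprime p ∧
      ∃ N, 0 < N ∧ Tors p (x.map Rat.den).prod N x := by
  have h0 : 0 < (x.map Rat.den).prod := Multiset.prod_pos fun d hd => by
    obtain ⟨a, -, rfl⟩ := Multiset.mem_map.1 hd
    exact a.den_pos
  have hc : (x.map Rat.den).prod.Coprime p := Nat.coprime_multiset_prod_left_iff.2 fun d hd => by
    obtain ⟨a, ha, rfl⟩ := Multiset.mem_map.1 hd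
    exact h.cop hp a ha
  have hd : ∀ a ∈ x, a.den ∣ (x.map Rat.den).prod :=
    fun a ha => Multiset.dvd_prod (Multiset.mem_map_of_mem _ ha)
  have : NeZero (x.map Rat.den).prod := ⟨h0.ne'⟩
  obtain ⟨h1, f, hf, h2, h3⟩ := h
  refine ⟨h0, hc, kubert hc (fun a ha => lv_iff.2 (hd a ha)) ⟨f, hf, fun t ht => ?_⟩⟩
  have h4 := fun a ha => ht.coprime_dvd_right (hd a ha)
  have := h3 t h4
  rwa [tate_sum hp h1 hf h2 h4, add_eq_right] at this

lemma tate_of (hp : p.Prime) {x : Multiset ℚ} (h1 : ∀ a ∈ x, a.den ≠ 1)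
    (h2 : ∀ a ∈ x, a.den.Coprime p) (h3 : ∀ f t : ℕ, (∀ a ∈ x, a.den ∣ p ^ f - 1) →
      (∀ a ∈ x, t.Coprime a.den) → ∑ h ∈ range f, ev (fun a => bern (t * p ^ h * a)) x = 0) :
    Tate p x := by
  have h0 : 0 < (x.map Rat.den).prod := Multiset.prod_pos fun d hd => by
    obtain ⟨a, -, rfl⟩ := Multiset.mem_map.1 hd
    exact a.den_pos
  have hc : (x.map Rat.den).prod.Coprime p := Nat.coprime_multiset_prod_left_iff.2 fun d hd => by
    obtain ⟨a, ha, rfl⟩ := Multiset.mem_map.1 hd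
    exact h2 a ha
  have hf := Nat.totient_pos.2 h0
  have h4 : ∀ a ∈ x, a.den ∣ p ^ (x.map Rat.den).prod.totient - 1 := fun a ha =>
    (Multiset.dvd_prod (Multiset.mem_map_of_mem _ ha)).trans
      ((Nat.modEq_iff_dvd' (Nat.one_le_pow _ p hp.pos)).1 (Nat.ModEq.pow_totient hc.symm).symm)
  exact ⟨h1, _, hf, h4, fun t ht => by rw [tate_sum hp h1 hf h4 ht, h3 _ t h4 ht, zero_add]⟩

/-- the trace of the Bernoulli function. -/
def nb (p f t : ℕ) (a : ℚ) : ℚ := ∑ h ∈ range f, bern (t * p ^ h * a)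

lemma nb_neg (f t : ℕ) (a : ℚ) : nb p f t (-a) = -nb p f t a := by
  simp only [nb, mul_neg, bern_neg, sum_neg_distrib]

lemma nb_per (f t : ℕ) (a : ℚ) (n : ℤ) : nb p f t (a + n) = nb p f t a :=
  sum_congr rfl fun h _ => by
    rw [← bern_per (t * p ^ h * a) (t * p ^ h * n)]
    congr 1
    push_cast
    ring

lemma nb_frob (hp : p.Prime) {f : ℕ} (t : ℕ) {a : ℚ} (h : Lv (p ^ f - 1) a) :
    nb p f t (p * a) = nb p f t a := by
  obtain ⟨j, hj⟩ := h
  rw [Nat.cast_sub (Nat.one_le_pow f p hp.pos)] at hj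
  push_cast at hj
  have h1 := (sum_range_succ (fun h => bern (t * p ^ h * a)) f).symm.trans
    (sum_range_succ' (fun h => bern (t * p ^ h * a)) f)
  have h2 : bern (t * p ^ f * a) = bern (t * p ^ 0 * a) := by
    rw [← bern_per (t * p ^ 0 * a) (t * j)]
    congr 1
    push_cast
    linear_combination (t : ℚ) * hj
  rw [h2, add_left_inj] at h1
  rw [nb, nb, h1]
  refine sum_congr rfl fun h _ => ?_
  congr 1
  ring

lemma nb_ss (hp : p.Prime) {f v : ℕ} (t : ℕ) {a : ℚ} (h : Lv (p ^ f - 1) a)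
    (hv : Lv (p ^ v + 1) a) : nb p f t a = 0 := by
  have h1 : ∀ k : ℕ, nb p f t (p ^ k * a) = nb p f t a := fun k => by
    induction k with
    | zero => simp
    | succ k ih =>
      rw [pow_succ', mul_assoc, nb_frob hp t (by exact_mod_cast h.nmul (p ^ k)), ih]
  obtain ⟨j, hj⟩ := hv
  have h2 := h1 v
  rw [show (p : ℚ) ^ v * a = -a + j by rw [← hj]; push_cast; ring, nb_per, nb_neg] at h2
  linarith

/-- the class of a symbol. -/
def gs (p : ℕ) (a : ℚ) : FreeAbelianGroup (Option ℚ) ⧸ Std p := QuotientAddGroup.mk' _ (sym a)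

/-- the class of the Lefschetz symbol. -/
def ls (p : ℕ) : FreeAbelianGroup (Option ℚ) ⧸ Std p := QuotientAddGroup.mk' _ Lef

lemma gs_per (a : ℚ) (n : ℤ) : gs p (a + n) = gs p a := by simp [gs, sym]

lemma mk_rel {z w : FreeAbelianGroup (Option ℚ)} (h : z - w ∈ Std p) :
    QuotientAddGroup.mk' (Std p) z = QuotientAddGroup.mk' (Std p) w := by
  rw [← sub_eq_zero, ← map_sub]
  exact (QuotientAddGroup.eq_zero_iff _).2 h

lemma gs_neg {a : ℚ} (h1 : a.den ≠ 1) (h2 : a.den.Coprime p) : gs p a + gs p (-a) = ls p :=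
  (map_add _ _ _).symm.trans
    (mk_rel (AddSubgroup.subset_closure (Or.inl ⟨a, h1, h2, Or.inl rfl⟩)))

lemma gs_frob {a : ℚ} (h1 : a.den ≠ 1) (h2 : a.den.Coprime p) : gs p (p * a) = gs p a :=
  mk_rel (AddSubgroup.subset_closure (Or.inl ⟨a, h1, h2, Or.inr (Or.inl rfl)⟩))

lemma gs_dist {a : ℚ} (h1 : a.den ≠ 1) (h2 : a.den.Coprime p) {l : ℕ} (hl : l.Prime)
    (hlp : l ≠ p) :
    ∑ k ∈ range l, gs p ((a + k) / l) = gs p a + ∑ k ∈ Ico 1 l, gs p (k / l) := by
  simp only [gs]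
  rw [← map_sum, ← map_sum, ← map_add]
  refine mk_rel (AddSubgroup.subset_closure (Or.inl ⟨a, h1, h2, Or.inr (Or.inr ⟨l, hl, hlp, ?_⟩)⟩))
  rw [sub_sub]

lemma gs_four {x : Multiset ℚ} (h1 : x.card = 4) (h2 : Tate p x) (h3 : x.sum.den = 1) :
    ev (gs p) x = 2 • ls p := by
  have := mk_rel (p := p) (AddSubgroup.subset_closure (Or.inr ⟨x, h1, h2, h3, rfl⟩))
  rw [map_nsmul] at this
  exact (map_ev (g := sym) _ x).symm.trans this

lemma den_ss (hp : p.Prime) : (1 / (p + 1 : ℕ) : ℚ).den = p + 1 := by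
  rw [one_div, Rat.inv_natCast_den_of_pos p.succ_pos]

lemma two_ss (hp : p.Prime) : 2 • gs p (1 / (p + 1 : ℕ)) = ls p := by
  have h1 : (1 / (p + 1 : ℕ) : ℚ).den ≠ 1 := by rw [den_ss hp]; have := hp.pos; omega
  have h2 : (1 / (p + 1 : ℕ) : ℚ).den.Coprime p := by rw [den_ss hp]; simp
  rw [two_nsmul, ← gs_neg h1 h2, ← gs_per (-_) 1]
  nth_rewrite 2 [← gs_frob h1 h2]
  congr 2
  push_cast
  field_simp
  ring

lemma gs_ss (hp : p.Prime) {b : ℚ} {v : ℕ} (h1 : b.den ≠ 1) (h2 : b.den.Coprime p)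
    (hv : Lv (p ^ v + 1) b) : gs p b = gs p (1 / (p + 1 : ℕ)) := by
  have e1 : (1 / (p + 1 : ℕ) : ℚ).den ≠ 1 := by rw [den_ss hp]; have := hp.pos; omega
  have e2 : (1 / (p + 1 : ℕ) : ℚ).den.Coprime p := by rw [den_ss hp]; simp
  have e3 : Lv (p ^ 1 + 1) (1 / (p + 1 : ℕ)) := by rw [pow_one]; exact lv_one_div _
  generalize (1 / (p + 1 : ℕ) : ℚ) = b' at e1 e2 e3
  have p1 : ((p - 1 : ℕ) : ℚ) = p - 1 := by rw [Nat.cast_sub hp.pos, Nat.cast_one]
  have p0 : (p : ℚ) - 1 ≠ 0 := by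
    rw [← p1]
    have := hp.two_le
    exact_mod_cast (by omega : p - 1 ≠ 0)
  obtain ⟨c, hc⟩ : ∃ c : ℚ, (p - 1) * c = b - b' := ⟨(b - b') / (p - 1), by field_simp⟩
  by_cases c1 : c.den = 1
  · rw [← gs_per b' ((p - 1) * c.num)]
    congr 1
    push_cast
    rw [(Rat.den_eq_one_iff c).1 c1, hc]
    ring
  have c2 : c.den.Coprime p := by
    obtain ⟨j, hj⟩ := ((lv_iff.2 (dvd_mul_right b.den b'.den)).add
      (lv_iff.2 (dvd_mul_left b'.den b.den)).neg)
    refine (Nat.Coprime.mul_left (Nat.Coprime.mul_left h2 e2)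
      (cop_of_dvd (d := p - 1) hp one_pos (by simp))).coprime_dvd_left (lv_iff.1 ⟨j, ?_⟩)
    rw [← hj, Nat.cast_mul _ (p - 1), p1, mul_assoc, hc, sub_eq_add_neg]
  have c3 := den_mul c2.symm c1
  have c4 : ((p : ℚ) * c).den.Coprime p :=
    c2.coprime_dvd_left (lv_iff.1 ((lv_iff.2 dvd_rfl).nmul p))
  have h4 := gs_four (p := p) (x := {b, -b', c, -(p * c)}) (by simp) (tate_of hp
    (by simp [h1, e1, c1, c3]) (by simpa using ⟨h2, e2, c2, c4⟩) fun f t hf _ => ?_)
    (by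
      have : ({b, -b', c, -(p * c)} : Multiset ℚ).sum = 0 := by
        simp only [Multiset.insert_eq_cons, Multiset.sum_cons, Multiset.sum_singleton]
        linear_combination -hc
      rw [this, Rat.den_zero])
  · simp only [Multiset.insert_eq_cons, ev_cons, ev_singleton] at h4
    rw [← gs_frob c1 c2, gs_neg c3 c4, two_nsmul, ← add_assoc, add_left_inj, ← gs_neg e1 e2,
      add_left_inj] at h4
    exact h4
  · rw [← ev_sum]
    change ev (nb p f t) _ = 0
    simp only [Multiset.insert_eq_cons, ev_cons, ev_singleton]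
    rw [nb_neg, nb_neg, nb_frob hp t (lv_iff.2 (hf c (by simp))),
      nb_ss hp t (lv_iff.2 (hf b (by simp))) hv,
      nb_ss hp t (lv_iff.2 (by simpa using hf (-b') (by simp))) e3]
    simp

/-- the normalised symbol. -/
def us (p : ℕ) (a : ℚ) : FreeAbelianGroup (Option ℚ) ⧸ Std p :=
  if a.den = 1 then 0 else gs p a - gs p (1 / (p + 1 : ℕ))

lemma us_per (a : ℚ) (n : ℤ) : us p (a + n) = us p a := by
  rw [us, us, Rat.add_intCast_den, gs_per]

lemma us_neg (hp : p.Prime) {a : ℚ} (h : a.den.Coprime p) : us p (-a) = -us p a := by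
  rw [us, us, Rat.neg_den]
  split_ifs with c
  · simp
  · rw [eq_neg_iff_add_eq_zero, sub_add_sub_comm, add_comm, gs_neg c h, ← two_nsmul, two_ss hp,
      sub_self]

lemma us_ss (hp : p.Prime) {b : ℚ} {v : ℕ} (h2 : b.den.Coprime p) (hv : Lv (p ^ v + 1) b) :
    us p b = 0 := by
  rw [us]
  split_ifs with c
  · rfl
  · rw [gs_ss hp c h2 hv, sub_self]

lemma us_zero (hp : p.Prime) {l : ℕ} (hl : l.Prime) (hlp : l ≠ p) :
    ∑ k ∈ Ico 1 l, us p (k / l) = 0 := by
  have co : ∀ k : ℕ, ((k : ℚ) / l).den.Coprime p := fun k =>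
    ((Nat.coprime_primes hl hp).2 hlp).coprime_dvd_left (lv_iff.1 (lv_ndiv dvd_rfl k))
  have l0 : (l : ℚ) ≠ 0 := by have := hl.pos; positivity
  refine sum_involution (fun k _ => l - k) (fun k hk => ?_) (fun k hk h e => h ?_)
    (fun k hk => ?_) fun k hk => ?_
  · rw [add_comm, add_eq_zero_iff_eq_neg, ← us_neg hp (co k), ← us_per (-_) 1,
      Nat.cast_sub (mem_Ico.1 hk).2.le]
    congr 1
    field_simp
    push_cast
    ring
  · have : l = 2 := hl.even_iff.1 ⟨k, by have := mem_Ico.1 hk; omega⟩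
    subst this
    exact us_ss hp (co k) (v := 1) (lv_ndiv (by
      have := hp.odd_of_ne_two hlp.symm
      rw [pow_one]
      exact this.add_one.two_dvd) k)
  · rw [mem_Ico] at hk ⊢
    omega
  · rw [mem_Ico] at hk
    omega

theorem gd_us (hp : p.Prime) : GD p (us p) := by
  intro m hm hmp
  have co : ∀ a, Lv m a → a.den.Coprime p := fun a ha => hmp.coprime_dvd_left (lv_iff.1 ha)
  refine ⟨fun a _ n => us_per a n, fun a ha => us_neg hp (co a ha), fun a ha => ?_,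
    fun l hl hlm a ha => ?_⟩
  · by_cases c : a.den = 1
    · rw [us, us, if_pos c, if_pos (Nat.dvd_one.1 (lv_iff.1 ((lv_iff.2 c.dvd).nmul p)))]
    · rw [us, us, if_neg c, if_neg (den_mul (co a ha).symm c), gs_frob c (co a ha)]
  have hlp : l ≠ p := (Nat.coprime_primes hl hp).1 (hmp.coprime_dvd_left hlm)
  have l0 : (l : ℚ) ≠ 0 := by have := hl.pos; positivity
  have hz := us_zero hp hl hlp
  by_cases c : ((l : ℚ) * a).den = 1
  · have e := (Rat.den_eq_one_iff _).1 c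
    have h1 := sum_reindex hl.pos (fun k : ℤ => us p (k / l)) (fun x y h => by
      obtain ⟨z, hz⟩ := h
      rw [← us_per (y / l) z, sub_eq_iff_eq_add.1 hz]
      congr 1
      push_cast
      field_simp
      ring) (t := 1) isCoprime_one_left ((l : ℚ) * a).num
    rw [us, if_pos c, ← hz, ← zero_add (∑ k ∈ Ico 1 l, _),
      show (0 : FreeAbelianGroup (Option ℚ) ⧸ Std p) = us p ((0 : ℕ) / l) by simp [us],
      ← sum_range_eq_add_Ico (fun k : ℕ => us p (k / l)) hl.pos]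
    simp only [Int.cast_natCast] at h1
    rw [← h1]
    refine sum_congr rfl fun k _ => ?_
    congr 1
    push_cast
    rw [e]
    field_simp
    ring
  · have h1 := gs_dist c (co _ (ha.nmul l)) hl hlp
    have h2 : ∀ k ∈ range l, us p (a + k / l) = gs p ((l * a + k) / l) - gs p (1 / (p + 1 : ℕ)) := by
      intro k _
      rw [us, if_neg]
      · congr 2
        field_simp
      · intro h
        refine c (Nat.dvd_one.1 (lv_iff.1 ?_))
        convert ((lv_iff.2 h.dvd).nmul l).add (lv_nat 1 k).neg using 1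
        field_simp
        ring
    have h3 : ∀ k ∈ Ico 1 l, us p (k / l) = gs p (k / l) - gs p (1 / (p + 1 : ℕ)) := by
      intro k hk
      rw [us, if_neg]
      intro h
      obtain ⟨j, hj⟩ := lv_iff.2 h.dvd
      rw [Nat.cast_one, one_mul, div_eq_iff l0] at hj
      have h4 : (l : ℤ) ∣ k := ⟨j, by rw [mul_comm]; exact_mod_cast hj⟩
      have := mem_Ico.1 hk
      have := Nat.le_of_dvd (by omega) (Int.natCast_dvd_natCast.1 h4)
      omega
    rw [sum_congr rfl h3, sum_sub_distrib, sub_eq_zero] at hz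
    rw [sum_congr rfl h2, sum_sub_distrib, h1, hz, us, if_neg c, sum_const, sum_const, card_range,
      Nat.card_Ico]
    obtain ⟨l, rfl⟩ := Nat.exists_eq_add_of_lt hl.pos
    simp only [zero_add, Nat.add_sub_cancel, succ_nsmul]
    abel

lemma ev_us {x : Multiset ℚ} (h : ∀ a ∈ x, a.den ≠ 1) :
    ev (us p) x = ev (gs p) x - x.card • gs p (1 / (p + 1 : ℕ)) := by
  rw [ev_congr (g := us p) fun a ha => if_neg (h a ha), ev_sub]
  simp [ev]

end Pool.Agent.Lib.MP_40dc3c_ag.Fe
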