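import Pool.Agent.Lib.MP_40dc3c_ag.Fe.Zm

/-! Raising the level by an auxiliary prime. -/

namespace Pool.Agent.Lib.MP_40dc3c_ag.Fe

open Finset

variable {B : Type} [AddCommGroup B]

lemma sum_quot {G : Type} [CommGroup G] [Fintype G] (K : Subgroup G) [Fintype (G ⧸ K)]
    (F : G ⧸ K → B) : ∑ k : G, F k = Nat.card K • ∑ c, F c := by
  rw [smul_sum]
  classical
  rw [← sum_fiberwise (s := univ) (g := fun k : G => (k : G ⧸ K))]
  refine sum_congr rfl fun c _ => ?_
  rw [sum_congr rfl fun k hk => by rw [(mem_filter.1 hk).2], sum_const]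
  congr 1
  obtain ⟨g, rfl⟩ := QuotientGroup.mk_surjective c
  rw [← Nat.card_eq_finsetCard]
  refine Nat.card_congr ⟨fun k => ⟨g⁻¹ * k.1, ?_⟩, fun k => ⟨g * k.1, ?_⟩, fun k => by simp,
    fun k => by simp⟩
  · exact QuotientGroup.eq.1 (mem_filter.1 k.2).2.symm
  · simp

theorem trickA {p m l f : ℕ} {u : ℚ → B} (hl : l.Prime) (hlm : ¬l ∣ m) (hlp : ¬l ∣ p)
    (hu : Dist p (m * l) u) (hf : (m : ℤ) ∣ (p : ℤ) ^ f - 1) :
    ∃ Ψ : ℚ → B, Dist p m Ψ ∧ (∀ a, Lv m a → ∃ w, (∀ b ∈ w, Lv (m * l) b) ∧ Ψ a = ev u w) ∧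
      ∀ a, Lv m a → orderOf ((p : ZMod l) ^ f) • Ψ a = u (l * a) - u a := by
  classical
  have : Fact l.Prime := ⟨hl⟩
  have h0 : (l : ℚ) ≠ 0 := by have := hl.pos; positivity
  have unit : ∀ r : ℕ, ¬l ∣ r → ∃ s : (ZMod l)ˣ, (s : ZMod l) = r := fun r hr =>
    ⟨Units.mk0 r (by rwa [Ne, ZMod.natCast_eq_zero_iff]), rfl⟩
  obtain ⟨P, hP⟩ := unit p hlp
  set K := Subgroup.zpowers (P ^ f)
  set F : ℚ → ZMod l → B := fun a k => u (a + k.val / l) with hF
  have lv : ∀ a, Lv m a → ∀ z : ℤ, Lv (m * l) (a + z / l) := fun a ha z =>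
    (ha.mono (dvd_mul_right _ _)).add (lv_div (dvd_mul_left _ _) z)
  have lv' : ∀ a, Lv m a → ∀ k : ZMod l, Lv (m * l) (a + k.val / l) := fun a ha k => by
    simpa using lv a ha k.val
  have Fint : ∀ a, Lv m a → ∀ z : ℤ, u (a + z / l) = F a z := by
    intro a ha z
    have : (l : ℤ) ∣ z - ((z : ZMod l).val : ℤ) := by
      rw [← ZMod.intCast_zmod_eq_zero_iff_dvd]
      simp
    obtain ⟨c, hc⟩ := this
    refine hu.congr_int (lv' a ha z) c ?_
    have : (z : ℚ) = (z : ZMod l).val + l * c := by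
      have : (z : ℚ) - (z : ZMod l).val = l * c := by exact_mod_cast hc
      linarith
    conv_lhs => rw [this]
    field_simp
    ring
  have Fmul : ∀ a, Lv m a → ∀ (r : ℤ) (k : ZMod l),
      u (r * (a + k.val / l)) = F (r * a) (r * k) := by
    intro a ha r k
    have := Fint _ (ha.zmul r) (r * k.val)
    push_cast at this
    rw [ZMod.natCast_zmod_val] at this
    rw [← this]
    congr 1
    ring
  have Fper : ∀ a, Lv m a → ∀ (n : ℤ) (k : ZMod l), F (a + n) k = F a k := fun a ha n k =>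
    hu.congr_int (lv' a ha k) n (by ring)
  have F1 : ∀ a, Lv m a → ∀ k : ZMod l, F a (p ^ f * k) = F a k := by
    intro a ha k
    have h1 := Fmul a ha (p ^ f) k
    push_cast at h1
    rw [hu.frob_pow (lv' a ha k)] at h1
    obtain ⟨c, hc⟩ := hf
    obtain ⟨j, hj⟩ := id ha
    have h2 : (p : ℚ) ^ f * a = a + (c * j : ℤ) := by
      have : (p : ℚ) ^ f - 1 = m * c := by exact_mod_cast hc
      push_cast
      rw [← hj]
      linear_combination a * this
    rw [h2, Fper a ha] at h1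
    exact h1.symm
  have F2 : ∀ a, Lv m a → ∀ k : (ZMod l)ˣ, F a ((k : (ZMod l)ˣ ⧸ K).out : (ZMod l)ˣ) = F a k := by
    intro a ha k
    obtain ⟨⟨h, hh⟩, e⟩ := QuotientGroup.mk_out_eq_mul K k
    obtain ⟨n, rfl⟩ := (mem_powers_iff_mem_zpowers.2 hh)
    rw [e]
    change F a (k * (P ^ f) ^ n : (ZMod l)ˣ) = F a k
    clear e hh
    induction n with
    | zero => simp
    | succ n ih =>
      rw [← ih, ← F1 a ha (k * (P ^ f) ^ n : (ZMod l)ˣ)]
      congr 1
      push_cast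
      rw [hP]
      ring
  have F3 : ∀ a, Lv m a → ∀ r : (ZMod l)ˣ, ∑ c : (ZMod l)ˣ ⧸ K, F a (r * (c.out : (ZMod l)ˣ)) =
      ∑ c : (ZMod l)ˣ ⧸ K, F a (c.out : (ZMod l)ˣ) := by
    intro a ha r
    refine Fintype.sum_equiv (Equiv.mulLeft (r : (ZMod l)ˣ ⧸ K)) _ _ fun c => ?_
    have := F2 a ha (r * c.out)
    rw [QuotientGroup.mk_mul, QuotientGroup.out_eq'] at this
    rw [Equiv.coe_mulLeft, this, Units.val_mul]
  refine ⟨fun a => ∑ c : (ZMod l)ˣ ⧸ K, F a (c.out : (ZMod l)ˣ), ⟨fun a ha n => ?_,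
    fun a ha => ?_, fun a ha => ?_, fun r hr hrm a ha => ?_⟩, fun a ha => ?_, fun a ha => ?_⟩
  · simp only [Fper a ha]
  · rw [← F3 _ ha.neg (-1), ← sum_neg_distrib]
    refine sum_congr rfl fun c _ => ?_
    have := Fmul a ha (-1) (c.out : (ZMod l)ˣ)
    push_cast at this
    rw [neg_one_mul, neg_one_mul, hu.odd _ (lv' a ha _)] at this
    rw [Units.val_neg, Units.val_one, ← this]
  · rw [← F3 _ (ha.nmul p) P]
    refine sum_congr rfl fun c _ => ?_
    have := Fmul a ha p (c.out : (ZMod l)ˣ)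
    push_cast at this
    rw [hu.frob _ (lv' a ha _)] at this
    rw [hP, ← this]
  · obtain ⟨R, hR⟩ := unit r fun h => hlm (h.trans hrm)
    rw [← F3 _ (ha.nmul r) R, sum_comm]
    refine sum_congr rfl fun c _ => ?_
    have := Fmul a ha r (c.out : (ZMod l)ˣ)
    push_cast at this
    rw [hR, ← this, ← hu.dist r hr (hrm.mul_right l) _ (lv' a ha _)]
    refine sum_congr rfl fun k _ => ?_
    simp only [hF]
    congr 1
    ring
  · refine ⟨univ.val.map fun c : (ZMod l)ˣ ⧸ K => a + ((c.out : (ZMod l)ˣ) : ZMod l).val / l,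
      fun b hb => ?_, ?_⟩
    · obtain ⟨c, _, rfl⟩ := Multiset.mem_map.1 hb
      exact lv' a ha _
    · rw [ev, Multiset.map_map]
      rfl
  · have e1 : orderOf ((p : ZMod l) ^ f) = Nat.card K := by
      rw [Nat.card_zpowers, ← orderOf_units, Units.val_pow_eq_pow_val, hP]
    rw [e1, ← sum_quot K fun c => F a (c.out : (ZMod l)ˣ)]
    simp only [F2 a ha]
    have e2 := sum_fiber (m := l) (l := l) (c := 1) (mul_one l).symm (F a) 0
    rw [filter_true_of_mem fun y _ => by simp] at e2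
    have e3 : ∑ k ∈ range l, F a (0 + (k : ZMod l) * ((1 : ℕ) : ZMod l)) = u (l * a) := by
      rw [← hu.dist l hl (dvd_mul_left _ _) a (ha.mono (dvd_mul_right _ _))]
      refine sum_congr rfl fun k _ => ?_
      have := Fint a ha k
      push_cast at this
      rw [this]
      simp
    have e4 : ∑ k : (ZMod l)ˣ, F a k = ∑ k ∈ univ.erase (0 : ZMod l), F a k :=
      sum_bij (fun k _ => (k : ZMod l)) (fun k _ => by simp) (fun _ _ _ _ h => Units.ext h)
        (fun k hk => ⟨Units.mk0 k (mem_erase.1 hk).1, mem_univ _, rfl⟩) fun _ _ => rfl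
    rw [e4, ← e3, ← e2, ← add_sum_erase _ _ (mem_univ (0 : ZMod l))]
    simp [hF]

end Pool.Agent.Lib.MP_40dc3c_ag.Fe
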