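import Pool.Agent.Lib.MP_40dc3c_ag.Fe.Zm

/-! Raising the level at a prime. -/

namespace Pool.Agent.Lib.MP_40dc3c_ag.Fe

open Finset

variable {B : Type} [AddCommGroup B]

lemma one_add_pow (x : ℤ) (n : ℕ) : ∃ c, (1 + x) ^ n = 1 + n * x + x ^ 2 * c := by
  induction n with
  | zero => exact ⟨0, by simp⟩
  | succ n ih =>
    obtain ⟨c, hc⟩ := ih
    exact ⟨n + c + x * c, by rw [pow_succ, hc]; push_cast; ring⟩

lemma exists_mul_sub {n J : ℤ} (h : IsCoprime J n) (hn : n ≠ 0) (i : ℤ) :
    ∃ s : ℕ, n ∣ s * J - i := by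
  obtain ⟨x, y, e⟩ := h
  refine ⟨((i * x) % n).toNat, ?_⟩
  rw [Int.toNat_of_nonneg (Int.emod_nonneg _ hn), Int.emod_def]
  exact ⟨-(i * y) - i * x / n * J, by linear_combination i * e⟩

lemma pow_surj {q : ℕ} (hq : q.Prime) {c w : ℤ} (hw : ¬(q : ℤ) ∣ w) (k : ℕ) (i : ℤ) :
    ∃ (n : ℕ) (z : ℤ), (1 + q ^ 2 * c * w) ^ n = 1 + i * (q ^ 2 * c) + q ^ 2 * c * q ^ k * z := by
  have hq' : Prime (q : ℤ) := Nat.prime_iff_prime_int.1 hq
  have h1 : ∀ k : ℕ, ∃ v : ℤ, ¬(q : ℤ) ∣ v ∧
      (1 + q ^ 2 * c * w) ^ q ^ k = 1 + q ^ 2 * c * q ^ k * v := by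
    intro k
    induction k with
    | zero => exact ⟨w, hw, by simp⟩
    | succ k ih =>
      obtain ⟨v, hv, e⟩ := ih
      obtain ⟨d, hd⟩ := one_add_pow (q ^ 2 * c * q ^ k * v) q
      refine ⟨v * (1 + q * (c * q ^ k * v * d)), fun h => ?_, ?_⟩
      · rcases hq'.dvd_or_dvd h with h | h
        · exact hv h
        · exact hq'.not_dvd_one ((dvd_add_left (dvd_mul_right _ _)).1 h)
      · rw [pow_succ q k, pow_mul, e, hd]
        ring
  induction k with
  | zero => exact ⟨0, -i, by ring⟩
  | succ k ih =>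
    obtain ⟨n, z, e⟩ := ih
    obtain ⟨v, hv, e'⟩ := h1 k
    obtain ⟨s, y, hy⟩ := exists_mul_sub (hq'.irreducible.coprime_iff_not_dvd.2 hv).symm
      hq'.ne_zero (-z)
    obtain ⟨d, hd⟩ := one_add_pow (q ^ 2 * c * q ^ k * v) s
    refine ⟨n + q ^ k * s, y + q * c * ((i + q ^ k * z) * s * v +
      (1 + i * (q ^ 2 * c) + q ^ 2 * c * q ^ k * z) * q ^ k * v ^ 2 * d), ?_⟩
    rw [pow_add, pow_mul, e, e', hd]
    linear_combination (q ^ 2 * c * q ^ k) * hy

lemma sum_comp_fiber {α : Type} [Fintype α] [DecidableEq α] (f g : α → α) (c : α) (F : α → B) :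
    ∑ y with f y = c, ∑ j with g j = y, F j = ∑ j with f (g j) = c, F j := by
  rw [sum_fiberwise_eq_sum_filter]
  simp

theorem trickB {p q a k m m' w f : ℕ} [NeZero m] {u : ℚ → B} (hq : q.Prime) (ha : 2 ≤ a)
    (hm : m = q ^ a * m') (hp : m.Coprime p) (hw : ¬q ∣ w) (hf : p ^ f = 1 + m * w)
    (hu : Dist p (m * q ^ k) u) :
    ∃ lam : ℚ → B, (∀ t : ℕ, t.Coprime m → t ≡ 1 [MOD m'] →
        Dist p m fun b => lam (t * b) - lam b) ∧
      (∀ b c, cls m b = cls m c → lam b = lam c) ∧
      (∀ b, ∃ w, (∀ c ∈ w, Lv (m * q ^ k) c) ∧ lam b = ev u w) ∧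
      ∀ b, Lv m b → ¬Lv m' b → q ^ k • lam b = u b := by
  classical
  have : Fact q.Prime := ⟨hq⟩
  have hq' : Prime (q : ℤ) := Nat.prime_iff_prime_int.1 hq
  have h0 : (q : ℚ) ≠ 0 := by have := hq.pos; positivity
  have hqm : q ∣ m := hm ▸ (dvd_pow_self q (by omega)).mul_right _
  have hum : Dist p m u := hu.mono (dvd_mul_right _ _)
  set π := ZMod.castHom hqm (ZMod q) with hπ
  have lvq : ∀ b, Lv m b → ∀ e ≤ k, Lv (m * q ^ k) (b / q ^ e) := by
    rintro b ⟨j, hj⟩ e he
    obtain ⟨d, rfl⟩ := Nat.exists_eq_add_of_le he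
    refine ⟨j * q ^ d, ?_⟩
    push_cast
    rw [← hj]
    field_simp
    ring
  have V : ∀ b, Lv m b → π (cls m b) ≠ 0 → ∀ e ≤ k, ∀ i : ℤ,
      u ((b + i) / q ^ e) = u (b / q ^ e) := by
    intro b hb hex e he i
    obtain ⟨J, hJ⟩ := id hb
    rw [cls_eq hJ, map_intCast, Ne, ZMod.intCast_zmod_eq_zero_iff_dvd] at hex
    obtain ⟨s, y, hy⟩ := exists_mul_sub
      ((hq'.irreducible.coprime_iff_not_dvd.2 hex).symm.pow_right (n := e))
      (pow_ne_zero _ hq'.ne_zero) i
    obtain ⟨d, rfl⟩ := Nat.exists_eq_add_of_le ha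
    obtain ⟨n, z, hz⟩ := pow_surj hq (c := q ^ d * m') (w := w) (by exact_mod_cast hw) e s
    have e1 : (q : ℤ) ^ 2 * (q ^ d * m') = m := by rw [hm]; push_cast; ring
    have e2 : (1 : ℤ) + m * w = p ^ f := by exact_mod_cast hf.symm
    rw [e1, e2, ← pow_mul] at hz
    rw [← hu.frob_pow (lvq b hb e he) (f * n)]
    refine (hu.congr_int (lvq _ (hb.add (lv_int m i)) e he) (y + z * J) ?_).symm
    have a1 : (p : ℚ) ^ (f * n) = 1 + s * m + m * q ^ e * z := by exact_mod_cast hz
    have a2 : (s : ℚ) * J - i = q ^ e * y := by exact_mod_cast hy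
    rw [a1]
    push_cast
    field_simp
    linear_combination (s + q ^ e * z) * hJ + a2
  set v : ZMod m → B := fun j => if π j ≠ 0 then u (rat j / q ^ k) else 0 with hv
  have vc : ∀ b, Lv m b → π (cls m b) ≠ 0 → v (cls m b) = u (b / q ^ k) := by
    intro b hb hex
    obtain ⟨n, hn⟩ := exists_int_of_cls (lv_rat (cls m b)) hb (cls_rat _)
    rw [hv]
    simp only [if_pos hex]
    rw [hn, V b hb hex k le_rfl]
  have v0 : ∀ j, π j = 0 → v j = 0 := fun j hj => by simp [hv, hj]
  have vmul : ∀ (r : ℤ) j, π j ≠ 0 → π r ≠ 0 → v (r * j) = u (r * (rat j / q ^ k)) := by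
    intro r j hj hr
    have h1 : cls m (r * rat j) = r * j := by rw [cls_zmul (lv_rat j), cls_rat]
    rw [← h1, vc _ ((lv_rat j).zmul r) (by rw [h1, map_mul]; exact mul_ne_zero hr hj),
      mul_div_assoc]
  have vone : ∀ j, π j ≠ 0 → v j = u (rat j / q ^ k) := fun j hj => by simp [hv, hj]
  have vodd : ∀ j, v (-j) = -v j := by
    intro j
    by_cases hj : π j = 0
    · rw [v0 j hj, v0 _ (by rw [map_neg, hj, neg_zero]), neg_zero]
    · have := vmul (-1) j hj (by simp)
      push_cast at this
      rw [neg_one_mul, neg_one_mul, hu.odd _ (lvq _ (lv_rat j) k le_rfl)] at this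
      rw [this, vone j hj]
  have nat0 : ∀ r : ℕ, ¬q ∣ r → π ((r : ℤ) : ZMod m) ≠ 0 := fun r hr => by
    rwa [Int.cast_natCast, map_natCast, Ne, ZMod.natCast_eq_zero_iff]
  have vfrob : ∀ j, v (p * j) = v j := by
    intro j
    by_cases hj : π j = 0
    · rw [v0 j hj, v0 _ (by rw [map_mul, hj, mul_zero])]
    · have := vmul p j hj (nat0 p fun h => hq.not_dvd_one (hp ▸ Nat.dvd_gcd hqm h))
      push_cast at this
      rw [this, hu.frob _ (lvq _ (lv_rat j) k le_rfl), vone j hj]
  have vdist : ∀ l : ℕ, l.Prime → l ∣ m → l ≠ q → ∀ x,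
      ∑ y with (l : ZMod m) * y = l * x, v y = v (l * x) := by
    intro l hl hlm hlq x
    have hc : (q.Coprime l) := (Nat.coprime_primes hq hl).2 hlq.symm
    obtain ⟨c, hc'⟩ := id hlm
    have hqc : π c = 0 := by
      rw [map_natCast, ZMod.natCast_eq_zero_iff]
      exact hc.dvd_of_dvd_mul_left (hc' ▸ hqm)
    rw [sum_fiber hc']
    by_cases hx : π x = 0
    · rw [v0 _ (by rw [map_mul, hx, mul_zero])]
      exact sum_eq_zero fun i _ => v0 _ (by rw [map_add, map_mul, hx, hqc]; simp)
    · have l0 : (l : ℚ) ≠ 0 := by have := hl.pos; positivity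
      have ex : ∀ z : ℤ, π (cls m (rat x + z / l)) ≠ 0 := by
        intro z
        rw [cls_add (lv_rat x) (lv_div hlm z), cls_rat, cls_eq (a := z / l) (j := z * c)
          (by rw [hc']; push_cast; field_simp)]
        push_cast
        rwa [map_add, map_mul, hqc, mul_zero, add_zero]
      have key := sum_reindex hl.pos (fun z : ℤ => u ((rat x + z / l) / q ^ k)) (fun y z hyz => by
        obtain ⟨d, hd⟩ := hyz
        rw [← V _ ((lv_rat x).add (lv_div hlm z)) (ex z) k le_rfl d]
        congr 2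
        have : (y : ℚ) = z + l * d := by
          have : (y : ℚ) - z = l * d := by exact_mod_cast hd
          linarith
        rw [this]
        field_simp
        ring) (t := q ^ k) (Nat.isCoprime_iff_coprime.2 hc).pow_left 0
      have := vmul l x hx (nat0 l (hq.coprime_iff_not_dvd.1 hc))
      push_cast at this
      rw [this, ← hu.dist l hl (hlm.mul_right _) _ (lvq _ (lv_rat x) k le_rfl)]
      refine Eq.trans ?_ (key.symm.trans ?_)
      · refine sum_congr rfl fun i _ => ?_
        rw [← vc _ ((lv_rat x).add (lv_div hlm i)) (ex i), Int.cast_natCast,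
          cls_add (lv_rat x) (lv_ndiv hlm i), cls_rat, cls_div hc' hl.pos]
      · refine sum_congr rfl fun i _ => ?_
        congr 1
        push_cast
        field_simp
        ring
  have vq : ∀ j, π j ≠ 0 → ∀ e ≤ k, q ^ e • u (rat j / q ^ e) = u (rat j) := by
    intro j hj e
    induction e with
    | zero => simp
    | succ e ih =>
      intro he
      have h1 := hu.dist q hq (hqm.mul_right _) _ (lvq _ (lv_rat j) (e + 1) he)
      have h2 : ∀ i ∈ range q, u (rat j / q ^ (e + 1) + i / q) = u (rat j / q ^ (e + 1)) := by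
        intro i _
        rw [← V _ (lv_rat j) (by rwa [cls_rat]) (e + 1) he (i * q ^ e)]
        congr 1
        push_cast
        field_simp
        ring
      rw [sum_congr rfl h2, sum_const, card_range] at h1
      rw [pow_succ' q e, mul_nsmul, h1, ← ih (by omega)]
      congr 2
      field_simp
      ring
  set push : ℕ → (ZMod m → B) → ZMod m → B :=
    fun e G b => ∑ j with (q : ZMod m) ^ e * j = b, G j with hpush
  have punit : ∀ e G (r : ZMod m), IsUnit r → ∀ b,
      push e G (r * b) = push e (fun j => G (r * j)) b := by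
    intro e G r hr b
    refine (sum_equiv hr.unit.mulLeft (fun y => ?_) fun y _ => by simp).symm
    simp only [mem_filter, mem_univ, true_and, Units.mulLeft_apply, IsUnit.unit_spec]
    rw [mul_left_comm, hr.mul_right_inj]
  have psucc : ∀ e G b, ∑ y with (q : ZMod m) * y = b, push e G y = push (e + 1) G b := by
    intro e G b
    simp only [hpush]
    rw [sum_comp_fiber (fun y => (q : ZMod m) * y) fun j => (q : ZMod m) ^ e * j]
    simp only [pow_succ', mul_assoc]
  have pzero : ∀ G b, push 0 G b = G b := fun G b => by simp [hpush, filter_eq']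
  set L : ZMod m → B := fun b => ∑ e ∈ range a, push e v b with hL
  have Lodd : ∀ b, L (-b) = -L b := by
    intro b
    simp only [hL]
    rw [← sum_neg_distrib]
    refine sum_congr rfl fun e _ => ?_
    rw [← neg_one_mul, punit e v _ isUnit_one.neg]
    simp only [hpush, neg_one_mul, vodd, sum_neg_distrib]
  have Lfrob : ∀ b, L (p * b) = L b := by
    intro b
    refine sum_congr rfl fun e _ => ?_
    rw [punit e v _ ((ZMod.isUnit_iff_coprime p m).2 hp.symm)]
    simp only [vfrob]
  have Ldist : ∀ l : ℕ, l.Prime → l ∣ m → l ≠ q → ∀ x,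
      ∑ y with (l : ZMod m) * y = l * x, L y = L (l * x) := by
    intro l hl hlm hlq x
    simp only [hL]
    rw [sum_comm]
    refine sum_congr rfl fun e _ => ?_
    simp only [hpush]
    rw [sum_comp_fiber (fun y => (l : ZMod m) * y) fun j => (q : ZMod m) ^ e * j]
    simp only [mul_left_comm (l : ZMod m)]
    rw [← sum_comp_fiber (fun j => (q : ZMod m) ^ e * j) fun y => (l : ZMod m) * y]
    refine sum_congr rfl fun j hj => ?_
    obtain ⟨α, β, e1⟩ := (Nat.isCoprime_iff_coprime.2
      ((Nat.coprime_primes hq hl).2 hlq.symm)).pow_left (m := e)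
    have e2 : (α : ZMod m) * q ^ e + β * l = 1 := by exact_mod_cast congrArg (Int.cast (R := ZMod m)) e1
    have e3 : j = l * (α * x + β * j) := by
      linear_combination (α : ZMod m) * (mem_filter.1 hj).2 - j * e2
    have := vdist l hl hlm hlq (α * x + β * j)
    rwa [← e3] at this
  have Lq : ∀ x, ∑ y with (q : ZMod m) * y = q * x, L y = L (q * x) + push a v (q * x) := by
    intro x
    simp only [hL]
    rw [sum_comm, ← sum_range_succ (fun e => push e v (q * x)), sum_range_succ', pzero,
      v0 _ (by rw [map_mul, map_natCast, ZMod.natCast_self, zero_mul]), add_zero]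
    exact sum_congr rfl fun e _ => psucc e v _
  refine ⟨fun b => L (cls m b), fun t ht ht' => ?_, fun b c h => by simp only [h],
    fun b => ?_, fun b hb hb' => ?_⟩
  · have htu : IsUnit (t : ZMod m) := (ZMod.isUnit_iff_coprime t m).2 ht
    have tq : (t : ZMod m) * q ^ a = q ^ a := by
      have : t * q ^ a ≡ 1 * q ^ a [MOD m] := by
        rw [hm, mul_comm (q ^ a) m']
        exact ht'.mul_right' _
      have := (ZMod.natCast_eq_natCast_iff _ _ _).2 this
      simpa using this
    have z : ZD fun x : ZMod m => L (t * x) - L x := by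
      refine ⟨fun x => by rw [mul_neg, Lodd, Lodd]; abel, fun l hl hlm x => ?_⟩
      have e0 : ∑ y with (l : ZMod m) * y = l * x, L (t * y) =
          ∑ y with (l : ZMod m) * y = l * (t * x), L y := by
        refine sum_equiv htu.unit.mulLeft (fun y => ?_) fun y _ => by simp
        simp only [mem_filter, mem_univ, true_and, Units.mulLeft_apply, IsUnit.unit_spec]
        rw [mul_left_comm, mul_left_comm _ (t : ZMod m), htu.mul_right_inj]
      rw [sum_sub_distrib, e0, mul_left_comm (t : ZMod m)]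
      by_cases hlq : l = q
      · subst hlq
        rw [Lq, Lq]
        have : push a v (l * (t * x)) = push a v (l * x) := by
          refine sum_congr (filter_congr fun j _ => ?_) fun _ _ => rfl
          rw [mul_left_comm]
          constructor
          · intro h
            rw [← htu.mul_right_inj, ← h, ← mul_assoc, tq]
          · intro h
            rw [← h, ← mul_assoc, tq]
        rw [this]
        abel
      · rw [Ldist l hl hlm hlq, Ldist l hl hlm hlq]
    have d := z.toQ (p := p) fun x => by rw [mul_left_comm, Lfrob, Lfrob]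
    have e : ∀ b, Lv m b → L (cls m (t * b)) - L (cls m b) = L (t * cls m b) - L (cls m b) :=
      fun b hb => by rw [cls_nmul hb]
    exact ⟨fun b hb n => by rw [e _ (hb.add (lv_int m n)), e _ hb, d.per b hb],
      fun b hb => by rw [e _ hb.neg, e _ hb, d.odd b hb],
      fun b hb => by rw [e _ (hb.nmul p), e _ hb, d.frob b hb],
      fun l hl hlm b hb => by
        rw [e _ (hb.nmul l), ← d.dist l hl hlm b hb]
        exact sum_congr rfl fun i _ => e _ (hb.add (lv_ndiv hlm i))⟩
  · have clo : ∀ {ι : Type} (s : Finset ι) (G : ι → B),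
        (∀ i, ∃ w, (∀ c ∈ w, Lv (m * q ^ k) c) ∧ G i = ev u w) →
        ∃ w, (∀ c ∈ w, Lv (m * q ^ k) c) ∧ ∑ i ∈ s, G i = ev u w := by
      intro ι s G hG
      induction s using Finset.induction_on with
      | empty => exact ⟨0, by simp, by simp⟩
      | insert i s hi ih =>
        obtain ⟨w1, a1, a2⟩ := hG i
        obtain ⟨w2, b1, b2⟩ := ih
        exact ⟨w1 + w2, fun c hc => (Multiset.mem_add.1 hc).elim (a1 c) (b1 c),
          by rw [sum_insert hi, a2, b2, ev_add]⟩
    refine clo _ _ fun e => clo _ _ fun j => ?_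
    by_cases hj : π j = 0
    · exact ⟨0, by simp, by simp [v0 j hj]⟩
    · exact ⟨{rat j / q ^ k}, by simpa using lvq _ (lv_rat j) k le_rfl, by simp [vone j hj]⟩
  · have C : ∀ n : ℕ, ∀ x : ZMod m, (∀ j, (q : ZMod m) ^ n * j ≠ x) →
        ∑ e ∈ range n, push e (fun j => q ^ k • v j) x = u (rat x) := by
      intro n
      induction n with
      | zero => exact fun x hx => absurd (by simp) (hx x)
      | succ n ih =>
        intro x hx
        rw [sum_range_succ', pzero]
        simp only [← psucc]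
        rw [sum_comm, sum_congr rfl fun y hy => ih y fun j hj => hx j
          (by rw [← (mem_filter.1 hy).2, ← hj, pow_succ', mul_assoc])]
        by_cases h : π x = 0
        · rw [v0 x h, smul_zero, add_zero]
          have : π (x.val : ℕ) = 0 := by rwa [ZMod.natCast_zmod_val]
          rw [map_natCast, ZMod.natCast_eq_zero_iff] at this
          obtain ⟨y, hy⟩ := this
          have e : x = q * (y : ZMod m) := by rw [← Nat.cast_mul, ← hy, ZMod.natCast_zmod_val]
          have := hum.toZ.dist q hq hqm y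
          rwa [← e] at this
        · rw [vone x h, vq x h k le_rfl, filter_eq_empty_iff.2 fun y _ e => h
            (by rw [← e, map_mul, map_natCast, ZMod.natCast_self, zero_mul])]
          simp
    rw [← hum.rat_cls hb, ← C a _ fun j hj => hb' ?_]
    · simp only [hL, hpush, smul_sum]
    · obtain ⟨J, hJ⟩ := hb
      rw [cls_eq hJ] at hj
      have h1 : ((q ^ a * j.val : ℤ) : ZMod m) = J := by
        push_cast
        rwa [ZMod.natCast_zmod_val]
      obtain ⟨c, hc⟩ := (ZMod.intCast_eq_intCast_iff_dvd_sub _ _ _).1 h1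
      refine ⟨j.val + m' * c, mul_left_cancel₀ (pow_ne_zero a h0) ?_⟩
      have h2 : (J : ℚ) - q ^ a * j.val = m * c := by exact_mod_cast hc
      have h3 : (m : ℚ) = q ^ a * m' := by exact_mod_cast hm
      push_cast
      linear_combination hJ + h2 + (c - b) * h3

end Pool.Agent.Lib.MP_40dc3c_ag.Fe
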