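import Pool.Agent.Lib.MP_40dc3c_ag.Fe.TrA
import Pool.Agent.Lib.MP_40dc3c_ag.Fe.TrB
import Pool.Agent.Lib.MP_40dc3c_ag.Fe.Prime

/-! Torsion of the universal distribution is killed by two after raising the level. -/

namespace Pool.Agent.Lib.MP_40dc3c_ag.Fe

open Finset

variable {B : Type} [AddCommGroup B] {p : ℕ} {u : ℚ → B}

lemma Tors.nact {m N : ℕ} {x : Multiset ℚ} (h : Tors p m N x) {t : ℕ} (ht : t.Coprime m) :
    Tors p m N (x.map fun a => t * a) := by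
  simpa using h.act (t := t) (Nat.isCoprime_iff_coprime.2 ht)

lemma Tors.nsmul {m a b : ℕ} {x : Multiset ℚ} (h : Tors p m (a * b) x) : Tors p m a (b • x) :=
  ⟨fun c hc => h.1 c (Multiset.mem_of_mem_nsmul hc), fun B _ g hg => by
    rw [ev_nsmul, ← mul_nsmul', h.2 B g hg]⟩

/-- an auxiliary prime in a given class. -/
lemma aux_prime {q m m' t : ℕ} (hp : p.Prime) (hq : q.Prime) (hu : GD p u) (hm : 0 < m)
    (hmp : m.Coprime p) (hm' : 0 < m') (hqm : q.Coprime m') (ht : t.Coprime m') (k : ℕ) :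
    ∃ l : ℕ, l.Coprime m ∧ l ≡ t [MOD m'] ∧ ∃ (Ψ : ℚ → B) (E : ℕ), Dist p m Ψ ∧
      (∀ a, Lv m a → ∃ w, (∀ b ∈ w, b.den.Coprime p) ∧ Ψ a = ev u w) ∧
      ∀ a, Lv m a → (q ^ k * E) • Ψ a = u (l * a) - u a := by
  have f0 : 0 < m.totient := Nat.totient_pos.2 hm
  obtain ⟨l, hl, h1, h2, h3⟩ := good_prime hp hq hm' hqm ht (k + m.totient) (max m p)
  have lm : ¬l ∣ m := fun h => by have := Nat.le_of_dvd hm h; omega
  have lp : ¬l ∣ p := fun h => by have := Nat.le_of_dvd hp.pos h; omega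
  have co : (m * l).Coprime p := Nat.Coprime.mul_left hmp ((Nat.Prime.coprime_iff_not_dvd hl).2 lp)
  obtain ⟨Ψ, a1, a2, a3⟩ := trickA (f := m.totient) hl lm lp (hu _ (mul_pos hm hl.pos) co)
    (by exact_mod_cast (Nat.ModEq.pow_totient hmp.symm).symm.dvd)
  have h4 : q ^ k ∣ orderOf ((p : ZMod l) ^ m.totient) := by
    have o1 : orderOf (p : ZMod l) ∣ m.totient * orderOf ((p : ZMod l) ^ m.totient) := by
      rw [orderOf_dvd_iff_pow_eq_one, pow_mul, pow_orderOf_eq_one]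
    obtain ⟨y, z, hy, hz, e⟩ := exists_dvd_and_dvd_of_dvd_mul (h3.trans o1)
    obtain ⟨i, _, rfl⟩ := (Nat.dvd_prime_pow hq).1 (Dvd.intro _ e.symm)
    obtain ⟨j, _, rfl⟩ := (Nat.dvd_prime_pow hq).1 (Dvd.intro_left _ e.symm)
    rw [← pow_add] at e
    have e1 := Nat.pow_right_injective hq.two_le e
    have e2 := Nat.le_of_dvd f0 hy
    have e3 : i < q ^ i := Nat.lt_pow_self hq.one_lt
    exact (pow_dvd_pow q (by omega)).trans hz
  obtain ⟨E, hE⟩ := h4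
  refine ⟨l, (Nat.Prime.coprime_iff_not_dvd hl).2 lm, h2, Ψ, E, a1, fun a ha => ?_, hE ▸ a3⟩
  obtain ⟨w, b1, b2⟩ := a2 a ha
  exact ⟨w, fun b hb => co.coprime_dvd_left (lv_iff.1 (b1 b hb)), b2⟩

lemma fixA {q m m' t k : ℕ} (hp : p.Prime) (hq : q.Prime) (hu : GD p u) (hm : 0 < m)
    (hmp : m.Coprime p) (hm' : 0 < m') (hqm : q.Coprime m') (ht : t.Coprime m') :
    ∃ l : ℕ, l.Coprime m ∧ l ≡ t [MOD m'] ∧
      ∀ x, Tors p m (q ^ k) x → ev (fun a => u (l * a)) x = ev u x := by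
  obtain ⟨l, h1, h2, Ψ, E, a1, -, a3⟩ := aux_prime hp hq hu hm hmp hm' hqm ht k
  refine ⟨l, h1, h2, fun x hx => ?_⟩
  rw [← sub_eq_zero, ← ev_sub, ← ev_congr fun a ha => a3 a (hx.1 a ha), ev_smul, mul_nsmul,
    hx.2 B Ψ a1, nsmul_zero]

/-- raising the level at `q`. -/
lemma raise {q m : ℕ} (hp : p.Prime) (hq : q.Prime) (hqp : q ≠ p) (hm : 0 < m)
    (hmp : m.Coprime p) : ∃ a m' w f : ℕ, 2 ≤ a ∧ m ∣ q ^ a * m' ∧ 0 < m' ∧ ¬q ∣ m' ∧ m' ∣ m ∧
      (q ^ a * m').Coprime p ∧ ¬q ∣ w ∧ p ^ f = 1 + q ^ a * m' * w := by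
  have cq : q.Coprime p := (Nat.coprime_primes hq hp).2 hqp
  obtain ⟨b, m', hm', rfl⟩ := Nat.exists_eq_pow_mul_and_not_dvd hm.ne' q hq.ne_one
  have m0 : 0 < m' := Nat.pos_of_mul_pos_left hm
  have co : (q ^ (b + 2) * m').Coprime p :=
    Nat.Coprime.mul_left (cq.pow_left _) hmp.coprime_mul_left
  have f0 : 0 < (q ^ (b + 2) * m').totient := Nat.totient_pos.2 (by have := hq.pos; positivity)
  have h1 := (Nat.ModEq.pow_totient co.symm).symm
  generalize (q ^ (b + 2) * m').totient = f at f0 h1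
  have h2 : 1 < p ^ f := Nat.one_lt_pow f0.ne' hp.one_lt
  rw [Nat.modEq_iff_dvd' h2.le] at h1
  obtain ⟨a, w, hw, e⟩ := Nat.exists_eq_pow_mul_and_not_dvd (n := p ^ f - 1) (by omega) q hq.ne_one
  rw [e] at h1
  have c1 : (q ^ (b + 2)).Coprime w := ((Nat.Prime.coprime_iff_not_dvd hq).2 hw).pow_left _
  have c2 : m'.Coprime (q ^ a) := ((Nat.Prime.coprime_iff_not_dvd hq).2 hm').symm.pow_right _
  have h3 := (Nat.pow_dvd_pow_iff_le_right hq.one_lt).1
    (c1.dvd_of_dvd_mul_right ((dvd_mul_right _ _).trans h1))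
  obtain ⟨w', rfl⟩ := c2.dvd_of_dvd_mul_left ((dvd_mul_left _ _).trans h1)
  refine ⟨a, m', w', f, by omega, mul_dvd_mul_right (pow_dvd_pow q (by omega)) _, m0, hm',
    dvd_mul_left _ _, Nat.Coprime.mul_left (cq.pow_left _) hmp.coprime_mul_left,
    fun h => hw (h.mul_left _), ?_⟩
  rw [mul_assoc]
  omega

lemma lv_of_mul {m m' s : ℕ} {b : ℚ} (hb : Lv m b) (hs : s.Coprime m) (h : Lv m' (s * b)) :
    Lv m' b := by
  obtain ⟨x, y, e⟩ := Nat.isCoprime_iff_coprime.2 hs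
  obtain ⟨j, hj⟩ := hb
  have := (h.zmul x).add (lv_int m' (y * j))
  have e' : (x : ℚ) * s + y * m = 1 := by exact_mod_cast e
  convert this using 1
  push_cast
  rw [← hj]
  linear_combination (-b) * e'

lemma fixB {q a k m m' w f s : ℕ} (hq : q.Prime) (ha : 2 ≤ a) (hm : m = q ^ a * m') (h0 : 0 < m)
    (hp : m.Coprime p) (hw : ¬q ∣ w) (hf : p ^ f = 1 + m * w) (hu : GD p u) (hs : s.Coprime m)
    (h1 : s ≡ 1 [MOD m']) {x : Multiset ℚ} (hx : Tors p m (q ^ k) x) :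
    ev (fun b => u (s * b)) x = ev u x := by
  have : NeZero m := ⟨h0.ne'⟩
  have cq : q.Coprime p := hp.coprime_dvd_left (hm ▸ (dvd_pow_self q (by omega)).mul_right _)
  obtain ⟨lam, a1, a2, -, a4⟩ := trickB hq ha hm hp hw hf
    (hu (m * q ^ k) (mul_pos h0 (pow_pos hq.pos _)) (Nat.Coprime.mul_left hp (cq.pow_left _)))
  rw [← sub_eq_zero, ← ev_sub, ← hx.2 B _ (a1 s hs h1), ← ev_smul]
  refine ev_congr fun b hb => ?_
  have lb := hx.1 b hb
  by_cases c : Lv m' b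
  · have e : cls m (s * b) = cls m b := by
      obtain ⟨j, hj⟩ := c
      obtain ⟨c, hc⟩ := h1.symm.dvd
      have : (s : ℚ) * b = b + (c * j : ℤ) := by
        have : (s : ℚ) - 1 = m' * c := by exact_mod_cast hc
        push_cast
        rw [← hj]
        linear_combination b * this
      rw [this, cls_add lb (lv_int _ _), cls_int, add_zero]
    rw [a2 _ _ e, (hu m h0 hp).cls_congr (lb.nmul s) lb e]
    simp
  · rw [nsmul_sub, a4 _ lb c, a4 _ (lb.nmul s) fun h => c (lv_of_mul lb hs h)]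

lemma fix_neg {m t : ℕ} (hu : Dist p m u) {x : Multiset ℚ} (hx : ∀ a ∈ x, Lv m a)
    (ht : m ∣ t + 1) (h : ev (fun a => u (t * a)) x = ev u x) : 2 • ev u x = 0 := by
  rw [two_nsmul]
  nth_rewrite 1 [← h]
  rw [add_eq_zero_iff_eq_neg, ← ev_neg]
  refine ev_congr fun a ha => ?_
  have := hu.mod_congr (hx a ha) dvd_rfl (s := t) (t := -1) (by rw [sub_neg_eq_add]; exact_mod_cast ht)
  rw [← hu.odd a (hx a ha)]
  simpa using this

lemma two_pow {q k m : ℕ} (hp : p.Prime) (hq : q.Prime) (hu : GD p u) (hm : 0 < m)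
    (hmp : m.Coprime p) {x : Multiset ℚ} (hx : Tors p m (q ^ k) x) : 2 • ev u x = 0 := by
  have cp : ∀ n : ℕ, 0 < n → (n - 1).Coprime n := fun n hn => by
    obtain ⟨n, rfl⟩ := Nat.exists_eq_add_of_lt hn
    simp
  have key : ∀ {n l : ℕ}, 0 < n → l ≡ n - 1 [MOD n] → n ∣ l + 1 := fun {n l} hn h => by
    have := h.add_right 1
    rw [Nat.sub_add_cancel hn] at this
    exact (Nat.modEq_zero_iff_dvd).1 (this.trans (Nat.modEq_zero_iff_dvd.2 dvd_rfl))
  by_cases hqp : q = p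
  · obtain ⟨l, -, h2, h3⟩ := fixA (k := k) hp hq hu hm hmp hm (hqp ▸ hmp.symm) (cp m hm)
    exact fix_neg (hu m hm hmp) hx.1 (key hm h2) (h3 x hx)
  obtain ⟨a, m', w, f, ha, h1, h2, h3, -, h4, h5, h6⟩ := raise hp hq hqp hm hmp
  have hx' := hx.mono h1
  generalize hM : q ^ a * m' = M at h1 h4 h6 hx'
  have M0 : 0 < M := by have := hq.pos; rw [← hM]; positivity
  have hd : m' ∣ M := hM ▸ dvd_mul_left _ _
  obtain ⟨l, b1, b2, b3⟩ := fixA (k := k) (t := M - 1) hp hq hu M0 h4 h2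
    ((Nat.Prime.coprime_iff_not_dvd hq).2 h3) ((cp M M0).coprime_dvd_right hd)
  set s := (M - 1) * l ^ (M.totient - 1) with hs
  have e1 : s * l ≡ M - 1 [MOD M] := by
    rw [hs, mul_assoc, ← pow_succ, Nat.sub_add_cancel (Nat.totient_pos.2 M0)]
    simpa using (Nat.ModEq.pow_totient b1).mul_left (M - 1)
  have e2 : s ≡ 1 [MOD m'] := Nat.ModEq.cancel_right_of_coprime (b1.coprime_dvd_right hd).symm
    (by rw [one_mul]; exact (e1.of_dvd hd).trans b2.symm)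
  have e3 := fixB hq ha hM.symm M0 h4 h5 h6 hu
    (Nat.Coprime.mul_left (cp M M0) (b1.pow_left _)) e2 (hx'.nact b1)
  rw [ev_map, ev_map, b3 x hx'] at e3
  refine fix_neg (hu M M0 h4) hx'.1 (key M0 e1) ?_
  simpa [mul_assoc, hs] using e3

theorem two_tors {m N : ℕ} (hp : p.Prime) (hu : GD p u) (hm : 0 < m) (hmp : m.Coprime p)
    (hN : 0 < N) {x : Multiset ℚ} (hx : Tors p m N x) : 2 • ev u x = 0 := by
  induction N using Nat.recOnPosPrimePosCoprime generalizing x with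
  | zero => omega
  | one => exact two_pow (k := 0) hp hp hu hm hmp (by simpa using hx)
  | prime_pow q k hq _ => exact two_pow hp hq hu hm hmp hx
  | coprime a b ha hb co iha ihb =>
    have h1 := iha (by omega) hx.nsmul
    have h2 := ihb (by omega) (mul_comm a b ▸ hx).nsmul
    rw [ev_nsmul, smul_comm] at h1 h2
    rw [← addOrderOf_dvd_iff_nsmul_eq_zero] at h1 h2
    exact AddMonoid.addOrderOf_eq_one_iff.1 (Nat.eq_one_of_dvd_coprimes co h2 h1)

end Pool.Agent.Lib.MP_40dc3c_ag.Fe
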