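import Pool.Agent.Lib.MP_40dc3c_ag.Fe.Basic

/-! Distributions on `ZMod m`. -/

namespace Pool.Agent.Lib.MP_40dc3c_ag.Fe

open Finset

variable {p m : ℕ} {B : Type} [AddCommGroup B]

/-- residue class of an element of level `m`. -/
def cls (m : ℕ) (a : ℚ) : ZMod m := (((m : ℚ) * a).num : ZMod m)

/-- the rational number of a residue class. -/
def rat {m : ℕ} (x : ZMod m) : ℚ := (x.val : ℚ) / m

lemma cls_eq {a : ℚ} {j : ℤ} (h : (m : ℚ) * a = j) : cls m a = j := by
  rw [cls, h, Rat.num_intCast]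

lemma lv_rat (x : ZMod m) : Lv m (rat x) := lv_ndiv dvd_rfl _

lemma cls_add {a b : ℚ} (ha : Lv m a) (hb : Lv m b) : cls m (a + b) = cls m a + cls m b := by
  obtain ⟨i, hi⟩ := ha
  obtain ⟨j, hj⟩ := hb
  rw [cls_eq hi, cls_eq hj, cls_eq (j := i + j) (by rw [mul_add, hi, hj]; push_cast; ring)]
  push_cast
  ring

lemma cls_zmul {a : ℚ} (ha : Lv m a) (t : ℤ) : cls m (t * a) = t * cls m a := by
  obtain ⟨i, hi⟩ := ha
  rw [cls_eq hi, cls_eq (j := t * i) (by rw [mul_left_comm, hi]; push_cast; ring)]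
  push_cast
  ring

lemma cls_nmul {a : ℚ} (ha : Lv m a) (t : ℕ) : cls m (t * a) = t * cls m a := by
  simpa using cls_zmul ha t

lemma cls_neg {a : ℚ} (ha : Lv m a) : cls m (-a) = -cls m a := by
  simpa using cls_zmul ha (-1)

lemma cls_int (n : ℤ) : cls m n = 0 := by
  rw [cls_eq (j := m * n) (by push_cast; ring)]
  simp

lemma cls_div {l c : ℕ} (h : m = l * c) (hl : 0 < l) (k : ℕ) : cls m (k / l) = k * c := by
  have h0 : (l : ℚ) ≠ 0 := by positivity
  rw [cls_eq (j := k * c) (by rw [h]; push_cast; field_simp)]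
  push_cast
  ring

variable [NeZero m]

lemma cls_rat (x : ZMod m) : cls m (rat x) = x := by
  have h0 : (m : ℚ) ≠ 0 := by exact_mod_cast NeZero.ne m
  rw [cls_eq (j := x.val) (by rw [rat]; push_cast; field_simp)]
  simp

lemma exists_int_of_cls {a b : ℚ} (ha : Lv m a) (hb : Lv m b) (h : cls m a = cls m b) :
    ∃ n : ℤ, a = b + n := by
  obtain ⟨i, hi⟩ := ha
  obtain ⟨j, hj⟩ := hb
  rw [cls_eq hi, cls_eq hj, ZMod.intCast_eq_intCast_iff_dvd_sub] at h
  obtain ⟨c, hc⟩ := h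
  have h0 : (m : ℚ) ≠ 0 := by exact_mod_cast NeZero.ne m
  refine ⟨-c, mul_left_cancel₀ h0 ?_⟩
  have : (j : ℚ) - i = m * c := by exact_mod_cast hc
  rw [mul_add, hi, hj]
  push_cast
  linarith

lemma Dist.cls_congr {g : ℚ → B} (h : Dist p m g) {a b : ℚ} (ha : Lv m a) (hb : Lv m b)
    (e : cls m a = cls m b) : g a = g b := by
  obtain ⟨n, hn⟩ := exists_int_of_cls ha hb e
  exact h.congr_int hb n hn

lemma sum_fiber {l c : ℕ} (h : m = l * c) (F : ZMod m → B) (x : ZMod m) :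
    ∑ y with (l : ZMod m) * y = l * x, F y = ∑ k ∈ range l, F (x + k * c) := by
  have hm : 0 < m := Nat.pos_of_ne_zero (NeZero.ne m)
  have hc : 0 < c := Nat.pos_of_mul_pos_left (h ▸ hm)
  have hl : 0 < l := Nat.pos_of_mul_pos_right (h ▸ hm)
  symm
  refine sum_bij (fun k _ => x + k * c) (fun k _ => ?_) (fun a ha b hb e => ?_)
    (fun y hy => ?_) fun _ _ => rfl
  · simp only [mem_filter, mem_univ, true_and]
    have : (l : ZMod m) * c = 0 := by rw [← Nat.cast_mul, ← h, ZMod.natCast_self]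
    linear_combination k * this
  · have e' : ((a * c : ℕ) : ZMod m) = (b * c : ℕ) := by push_cast; exact add_left_cancel e
    have := congrArg ZMod.val e'
    rw [ZMod.val_natCast_of_lt (h ▸ Nat.mul_lt_mul_of_pos_right (mem_range.1 ha) hc),
      ZMod.val_natCast_of_lt (h ▸ Nat.mul_lt_mul_of_pos_right (mem_range.1 hb) hc)] at this
    exact Nat.eq_of_mul_eq_mul_right hc this
  · have h1 : ((l * (y - x).val : ℕ) : ZMod m) = 0 := by
      push_cast
      rw [ZMod.natCast_zmod_val]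
      linear_combination (mem_filter.1 hy).2
    rw [ZMod.natCast_eq_zero_iff] at h1
    have h2 : l * c ∣ l * (y - x).val := h ▸ h1
    obtain ⟨k, hk⟩ := Nat.dvd_of_mul_dvd_mul_left hl h2
    refine ⟨k, mem_range.2 ?_, ?_⟩
    · have := ZMod.val_lt (y - x)
      rw [hk, h, mul_comm] at this
      exact Nat.lt_of_mul_lt_mul_right this
    · have : ((c * k : ℕ) : ZMod m) = y - x := by rw [← hk, ZMod.natCast_zmod_val]
      push_cast at this
      linear_combination this

/-- odd distributions on `ZMod m`. -/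
structure ZD (G : ZMod m → B) : Prop where
  odd : ∀ x, G (-x) = -G x
  dist : ∀ l : ℕ, l.Prime → l ∣ m → ∀ x, ∑ y with (l : ZMod m) * y = l * x, G y = G (l * x)

lemma ZD.toQ {G : ZMod m → B} (h : ZD G) (hp : ∀ x, G (p * x) = G x) :
    Dist p m fun a => G (cls m a) := by
  refine ⟨fun a ha n => by rw [cls_add ha (lv_int m n), cls_int, add_zero],
    fun a ha => by rw [cls_neg ha, h.odd], fun a ha => by rw [cls_nmul ha, hp],
    fun l hl hlm a ha => ?_⟩
  obtain ⟨c, hc⟩ := id hlm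
  rw [cls_nmul ha, ← h.dist l hl hlm, sum_fiber hc]
  refine sum_congr rfl fun k _ => ?_
  rw [cls_add ha (lv_ndiv hlm k), cls_div hc hl.pos]

lemma Dist.toZ {g : ℚ → B} (h : Dist p m g) : ZD fun x : ZMod m => g (rat x) := by
  refine ⟨fun x => ?_, fun l hl hlm x => ?_⟩
  · rw [← h.odd _ (lv_rat x)]
    exact h.cls_congr (lv_rat _) (lv_rat _).neg (by rw [cls_neg (lv_rat _), cls_rat, cls_rat])
  · obtain ⟨c, hc⟩ := id hlm
    rw [sum_fiber hc, h.cls_congr (lv_rat _) ((lv_rat x).nmul l)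
      (by rw [cls_nmul (lv_rat _), cls_rat, cls_rat]), ← h.dist l hl hlm _ (lv_rat x)]
    refine sum_congr rfl fun k _ => h.cls_congr (lv_rat _) ((lv_rat _).add (lv_ndiv hlm k)) ?_
    rw [cls_add (lv_rat _) (lv_ndiv hlm k), cls_div hc hl.pos, cls_rat, cls_rat]

lemma Dist.toZ_frob {g : ℚ → B} (h : Dist p m g) (x : ZMod m) :
    g (rat ((p : ZMod m) * x)) = g (rat x) := by
  rw [← h.frob _ (lv_rat x)]
  exact h.cls_congr (lv_rat _) ((lv_rat _).nmul p) (by rw [cls_nmul (lv_rat _), cls_rat, cls_rat])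

lemma Dist.rat_cls {g : ℚ → B} (h : Dist p m g) {a : ℚ} (ha : Lv m a) :
    g (rat (cls m a)) = g a :=
  h.cls_congr (lv_rat _) ha (cls_rat _)

lemma ZD.unit {G : ZMod m → B} (h : ZD G) {t : ZMod m} (ht : IsUnit t) :
    ZD fun x => G (t * x) := by
  refine ⟨fun x => by rw [mul_neg, h.odd], fun l hl hlm x => ?_⟩
  rw [mul_left_comm, ← h.dist l hl hlm]
  refine sum_equiv ht.unit.mulLeft (fun y => ?_) fun y _ => by simp
  simp only [mem_filter, mem_univ, true_and, Units.mulLeft_apply, IsUnit.unit_spec]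
  rw [mul_left_comm, mul_left_comm _ t, ht.mul_right_inj]

end Pool.Agent.Lib.MP_40dc3c_ag.Fe
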